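import Pool.Agent.Work.MP_db9399_sw_helper39.VCho

/-!
# MP_db9399, PHASE 2 (short spots): block VSHORT (own colours of all short spots)
-/

set_option autoImplicit false

namespace Pool.Agent.Work.MP_db9399_sw_helper39

open Finset Classical
open Pool.Agent.Work.MP_db9399_all (nb)
open Pool.Agent.Work.MP_db9399_dn (IsMat Tot)
open Pool.Agent.Work.MP_db9399_bg (HPre)
open Pool.Agent.Work.MP_db9399_sl (InS Same Gout Gss Gin Gex Out Vert odd)
open Pool.Agent.Work.MP_db9399_sw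

universe u

section main
variable {V : Type u} [Fintype V] {k : ℕ} {δ δ1 π x η θ T0 y0 y1 B : ℝ} {G EH : SimpleGraph V}
  {d : ℕ} {Ys Sm : Finset (Finset V)} {UH Gd Hs : Finset V} {c0 tu c : V → Fin k}
  {t : V → V → Fin k} {E F0 : V → Finset (Fin k)} {K0 : Finset (Fin k)}
  {C : Fin 3 → Finset (Fin k)} {p : V → Fin 3} {a : V → Bool} {Z : Finset V}
  {Fy : Finset V → Finset (Fin k)} {Mt : SimpleGraph V} {pn : Finset V → ℕ}
  {hi : Finset V → Fin k → Fin 3} {U Wc : Finset V → Finset (Fin k)} {i0 : Finset V → Fin 3}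
  {Kc : Finset V → Fin 3 → Finset (Fin k)}

/-- the colouring, with the facts needed later -/
lemma colouring (hL : Stmt_LSB.{u}) (hC : Cst x η θ T0 y0 y1 B d)
    (hO : Out δ1 π G (Gex G Ys) ⊥ EH d Ys UH c0 tu c t E K0 C p a Z)
    (hS : SHH x η θ T0 y0 y1 B G EH d Ys Sm UH Gd Hs c0 c E F0 K0 Fy Mt pn)
    (hP : HPre G UH c0 EH tu)
    (hH : CH x θ y0 G d Ys Sm UH Gd c0 c E F0 K0 C p Fy Mt pn hi U Wc i0 Kc) :
    ∃ c' : V → Fin k, (∀ v, ¬ Act (shs d Ys) UH v → c' v = c v) ∧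
      (∀ Y ∈ shs d Ys, ∀ v ∈ Y, v ∉ UH → (Gl Mt v → c' v ∈ Wc Y) ∧
        (¬ Gl Mt v → c' v ∈ Kc Y (p v)) ∧ (∃ i, c' v ∈ Kc Y i) ∧
        c' v ∉ E v ∧ c' v ∉ ac G Ys UH c v) ∧
      (∀ Y ∈ shs d Ys, ∀ v ∈ Y, ∀ w ∈ Y, v ∉ UH → w ∉ UH → c' v = c' w → v = w ∨ Mt.Adj v w) ∧
      (∀ v w, Mt.Adj v w → c' v = c' w) ∧
      (∀ Y ∈ shs d Ys, ∀ Y' ∈ shs d Ys, Y ≠ Y' → ∀ v ∈ Y, ∀ w ∈ Y', v ∉ UH → w ∉ UH →
        G.Adj v w → c' v ≠ c' w) ∧
      (∀ Y ∈ shs d Ys, ∀ i, ∀ b ∈ Kc Y i, ∃ v ∈ Y, v ∉ UH ∧ c' v = b) ∧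
      ∀ Y ∈ shs d Ys, (Y.filter (fun v => Gl Mt v ∧ rp Mt v = v)).card = pn Y := by
  have h := (facts hC hO hS hP hH).vlh
  have hdis := shs_dis (d := d) hS.dis
  obtain ⟨c', h1, h2, h3, h4, h5, h6⟩ := h.exists_colouring hL c
  have hact : ∀ Y ∈ shs d Ys, ∀ v ∈ Y, v ∉ UH → Act (shs d Ys) UH v :=
    fun Y hY v hv hu => ⟨⟨Y, hY, hv⟩, hu⟩
  refine ⟨c', h1, ?_, ?_, h4, ?_, h6, fun Y hY => h.reps hY⟩
  · intro Y hY v hv hu
    obtain ⟨q1, q2⟩ := h2 v (hact Y hY v hv hu)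
    have hsp := spf_eq hdis hY hv
    have q3 := alv_cases q1
    rw [hsp] at q3
    have q4 : c' v ∉ hvy G Ys UH c0 c E d Y → c' v ∉ E v ∧ c' v ∉ ac G Ys UH c v := by
      intro hn
      have q5 : c' v ∉ E v ∪ ac G Ys UH c v := q2 (by
        intro hn'
        apply hn
        have : (Dat G Ys Sm UH Gd c0 c E d p Mt pn x y0 Kc i0 Wc).sp v = Y := hsp
        rw [this] at hn'
        exact hn')
      exact ⟨fun h' => q5 (Finset.mem_union_left _ h'), fun h' => q5 (Finset.mem_union_right _ h')⟩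
    rcases q3 with ⟨hg, q5⟩ | ⟨hg, q5, q6⟩
    · obtain ⟨q7, q8⟩ := hH.c7 Y hY _ q5
      exact ⟨fun _ => q5, fun h' => absurd hg h', ⟨_, q7⟩, q4 q8⟩
    · refine ⟨fun h' => absurd h' hg, fun _ => q5, ⟨_, q5⟩, ?_⟩
      by_cases hb : c' v ∈ hvy G Ys UH c0 c E d Y
      · exact ⟨(q6 hb).1, (q6 hb).2.1⟩
      · exact q4 hb
  · intro Y hY v hv w hw hu hu' hcc
    exact h3 v w (hact Y hY v hv hu) (hact Y hY w hw hu')
      ((spf_eq hdis hY hv).trans (spf_eq hdis hY hw).symm) hcc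
  · intro Y hY Y' hY' hne v hv w hw hu hu' hvw
    refine h5 v w (hact Y hY v hv hu) (hact Y' hY' w hw hu') ?_ hvw
    intro he
    apply hne
    have e1 : (Dat G Ys Sm UH Gd c0 c E d p Mt pn x y0 Kc i0 Wc).sp v = Y := spf_eq hdis hY hv
    have e2 : (Dat G Ys Sm UH Gd c0 c E d p Mt pn x y0 Kc i0 Wc).sp w = Y' := spf_eq hdis hY' hw
    rw [← e1, ← e2, he]

/-- parity -/
lemma parity (hH : CH x θ y0 G d Ys Sm UH Gd c0 c E F0 K0 C p Fy Mt pn hi U Wc i0 Kc)
    (hS : SHH x η θ T0 y0 y1 B G EH d Ys Sm UH Gd Hs c0 c E F0 K0 Fy Mt pn) (hK0 : K0.card = d + 2)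
    {c' : V → Fin k}
    (h2 : ∀ Y ∈ shs d Ys, ∀ v ∈ Y, v ∉ UH → (Gl Mt v → c' v ∈ Wc Y) ∧
        (¬ Gl Mt v → c' v ∈ Kc Y (p v)) ∧ (∃ i, c' v ∈ Kc Y i) ∧
        c' v ∉ E v ∧ c' v ∉ ac G Ys UH c v)
    (h3 : ∀ Y ∈ shs d Ys, ∀ v ∈ Y, ∀ w ∈ Y, v ∉ UH → w ∉ UH → c' v = c' w → v = w ∨ Mt.Adj v w)
    (h4 : ∀ v w, Mt.Adj v w → c' v = c' w)
    (h6 : ∀ Y ∈ shs d Ys, ∀ i, ∀ b ∈ Kc Y i, ∃ v ∈ Y, v ∉ UH ∧ c' v = b)
    (h7 : ∀ Y ∈ shs d Ys, (Y.filter (fun v => Gl Mt v ∧ rp Mt v = v)).card = pn Y)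
    {Y : Finset V} (hY : Y ∈ shs d Ys) :
    (odd Y (fun v => if v ∈ UH then F0 v else insert (c' v) (E v)) K0).card ≤ Y.card := by
  have hdis := shs_dis (d := d) hS.dis
  -- numbers of vertices
  have hN : ∀ b, (Y.filter (fun v => b ∉ fst UH F0 E v)).card =
      (Y.filter (fun v => b ∉ (if v ∈ UH then F0 v else insert (c' v) (E v)))).card +
      (Y.filter (fun v => v ∉ UH ∧ c' v = b)).card := by
    intro b
    rw [← Finset.card_union_of_disjoint]
    · congr 1
      ext v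
      simp only [Finset.mem_union, Finset.mem_filter]
      constructor
      · rintro ⟨hv, hb⟩
        by_cases hu : v ∈ UH
        · left
          rw [if_pos hu]
          unfold fst at hb
          rw [if_pos hu] at hb
          exact ⟨hv, hb⟩
        · unfold fst at hb
          rw [if_neg hu] at hb
          by_cases hc : c' v = b
          · exact Or.inr ⟨hv, hu, hc⟩
          · left
            rw [if_neg hu]
            refine ⟨hv, fun h' => ?_⟩
            rcases Finset.mem_insert.1 h' with h'' | h''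
            · exact hc h''.symm
            · exact hb h''
      · rintro (⟨hv, hb⟩ | ⟨hv, hu, hc⟩)
        · refine ⟨hv, fun h' => hb ?_⟩
          unfold fst at h'
          by_cases hu : v ∈ UH
          · rw [if_pos hu] at h' ⊢
            exact h'
          · rw [if_neg hu] at h' ⊢
            exact Finset.mem_insert_of_mem h'
        · refine ⟨hv, fun h' => ?_⟩
          unfold fst at h'
          rw [if_neg hu, ← hc] at h'
          exact (h2 Y hY v hv hu).2.2.2.1 h'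
    · rw [Finset.disjoint_left]
      intro v hv hv'
      obtain ⟨_, e1⟩ := Finset.mem_filter.1 hv
      obtain ⟨_, e2, e3⟩ := Finset.mem_filter.1 hv'
      rw [if_neg e2, e3] at e1
      exact e1 (Finset.mem_insert_self _ _)
  -- the pairs
  have hPcard : ((Y.filter (fun v => Gl Mt v ∧ rp Mt v = v)).image c').card = pn Y := by
    rw [Finset.card_image_of_injOn, h7 Y hY]
    intro v hv w hw hcc
    obtain ⟨e1, e2, e3⟩ := Finset.mem_filter.1 (Finset.mem_coe.1 hv)
    obtain ⟨f1, f2, f3⟩ := Finset.mem_filter.1 (Finset.mem_coe.1 hw)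
    rcases h3 Y hY v e1 w f1 (gl_not hS e2).1 (gl_not hS f2).1 hcc with h8 | h8
    · exact h8
    · rw [← e3, ← f3]
      exact rp_adj hS.mat h8
  obtain ⟨S, s1, s2⟩ := hH.c10 Y hY ((Y.filter (fun v => Gl Mt v ∧ rp Mt v = v)).image c') (by
    intro b hb
    obtain ⟨v, hv, rfl⟩ := Finset.mem_image.1 hb
    obtain ⟨e1, e2, e3⟩ := Finset.mem_filter.1 hv
    exact (h2 Y hY v e1 (gl_not hS e2).1).1 e2) hPcard
  have hS2 : ∀ b ∈ S, b ∈ K0 ∧
      ¬ Odd (Y.filter (fun v => b ∉ (if v ∈ UH then F0 v else insert (c' v) (E v)))).card := by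
    intro b hb
    obtain ⟨hbK, hb2⟩ := s1 b hb
    refine ⟨hbK, ?_⟩
    have hNb := hN b
    rcases hb2 with ⟨hodd, hcase⟩ | ⟨hodd, hbU, hbP, hbc⟩
    · have hM : (Y.filter (fun v => v ∉ UH ∧ c' v = b)).card = 0 ∨
          (Y.filter (fun v => v ∉ UH ∧ c' v = b)).card = 2 := by
        by_cases hbP : b ∈ (Y.filter (fun v => Gl Mt v ∧ rp Mt v = v)).image c'
        · right
          obtain ⟨v, hv, rfl⟩ := Finset.mem_image.1 hbP
          obtain ⟨e1, e2, e3⟩ := Finset.mem_filter.1 hv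
          obtain ⟨w, hw⟩ := id e2
          have hw' := mem_nb.1 hw
          obtain ⟨⟨Y', hY', m1, m2⟩, _, m3, _⟩ := hS.mta v w hw'
          have hYY : Y' = Y := by
            by_contra hne
            exact Finset.disjoint_left.1 (hdis Y' hY' Y hY hne) m1 e1
          subst hYY
          rw [Finset.card_eq_two]
          refine ⟨v, w, hw'.ne, ?_⟩
          ext z
          simp only [Finset.mem_filter, Finset.mem_insert, Finset.mem_singleton]
          constructor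
          · rintro ⟨hz, hzu, hzc⟩
            rcases h3 Y' hY v e1 z hz m3 hzu hzc.symm with h8 | h8
            · exact Or.inl h8.symm
            · exact Or.inr (mat_uniq hS.mat h8 hw')
          · rintro (rfl | rfl)
            · exact ⟨e1, m3, rfl⟩
            · exact ⟨m2, (gl_not hS (gl_of_adj hw'.symm)).1, (h4 v z hw').symm⟩
        · left
          rw [Finset.card_eq_zero, Finset.filter_eq_empty_iff]
          rintro v hv ⟨hu, hc⟩
          obtain ⟨i, hi'⟩ := (h2 Y hY v hv hu).2.2.1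
          obtain ⟨_, e2, e3⟩ := hH.c3 Y hY i _ hi'
          rw [hc] at e2 e3
          rcases hcase with h8 | h8 | h8
          · exact e2 h8
          · exact hbP h8
          · exact e3 h8
      rw [Nat.not_odd_iff_even] at hodd ⊢
      rw [hNb] at hodd
      rcases hM with hM | hM
      · rw [hM] at hodd
        simpa using hodd
      · rw [hM] at hodd
        rw [Nat.even_add] at hodd
        exact hodd.2 (by decide)
    · obtain ⟨i, hbi⟩ := hH.c9 Y hY b hbK hbU hbc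
      obtain ⟨v, hv, hu, hc⟩ := h6 Y hY i b hbi
      have hg : ¬ Gl Mt v := by
        intro hg
        apply hbP
        refine Finset.mem_image.2 ⟨rp Mt v, ?_, ?_⟩
        · rcases rp_eq_or Mt v with e1 | e1
          · rw [e1]
            exact Finset.mem_filter.2 ⟨hv, hg, e1⟩
          · obtain ⟨⟨Y', hY', m1, m2⟩, _, m3, _⟩ := hS.mta v _ e1
            have hYY : Y' = Y := by
              by_contra hne
              exact Finset.disjoint_left.1 (hdis Y' hY' Y hY hne) m1 hv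
            subst hYY
            exact Finset.mem_filter.2 ⟨m2, gl_of_adj e1.symm, rp_rp hS.mat v⟩
        · rcases rp_eq_or Mt v with e1 | e1
          · rw [e1, hc]
          · rw [← h4 v _ e1, hc]
      have hM : (Y.filter (fun v => v ∉ UH ∧ c' v = b)).card = 1 := by
        rw [Finset.card_eq_one]
        refine ⟨v, ?_⟩
        ext z
        simp only [Finset.mem_filter, Finset.mem_singleton]
        constructor
        · rintro ⟨hz, hzu, hzc⟩
          rcases h3 Y hY v hv z hz hu hzu (hc.trans hzc.symm) with h8 | h8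
          · exact h8.symm
          · exact absurd (gl_of_adj h8) hg
        · rintro rfl
          exact ⟨hv, hu, hc⟩
      rw [Nat.not_odd_iff_even]
      rw [hNb, hM] at hodd
      by_contra hne
      rw [Nat.not_even_iff_odd] at hne
      have : Even ((Y.filter (fun v => b ∉
        (if v ∈ UH then F0 v else insert (c' v) (E v)))).card + 1) := hne.add_odd odd_one
      exact (Nat.not_odd_iff_even.2 this) hodd
  -- counting
  have hodd : ∀ b ∈ odd Y (fun v => if v ∈ UH then F0 v else insert (c' v) (E v)) K0, b ∈ K0 ∧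
      Odd (Y.filter (fun v => b ∉ (if v ∈ UH then F0 v else insert (c' v) (E v)))).card := by
    intro b hb
    obtain ⟨e1, e2⟩ := Finset.mem_filter.1 hb
    refine ⟨e1, ?_⟩
    have e4 : ∀ (i1 i2 : DecidablePred
        (fun v => b ∉ (if v ∈ UH then F0 v else insert (c' v) (E v)))),
        (@Finset.filter V _ i1 Y).card = (@Finset.filter V _ i2 Y).card := by
      intro i1 i2
      rw [Subsingleton.elim i1 i2]
    rw [e4 _ _]
    exact e2
  have hdisj : Disjoint (odd Y (fun v => if v ∈ UH then F0 v else insert (c' v) (E v)) K0) S := by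
    rw [Finset.disjoint_left]
    intro b hb hb'
    exact (hS2 b hb').2 (hodd b hb).2
  have hsub : (odd Y (fun v => if v ∈ UH then F0 v else insert (c' v) (E v)) K0) ∪ S ⊆ K0 := by
    intro b hb
    rcases Finset.mem_union.1 hb with hb | hb
    · exact (hodd b hb).1
    · exact (hS2 b hb).1
  have hcard := Finset.card_le_card hsub
  rw [Finset.card_union_of_disjoint hdisj, hK0] at hcard
  omega

/-- the conclusion of VSHORT -/
lemma final (hL : Stmt_LSB.{u}) (hC : Cst x η θ T0 y0 y1 B d)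
    (hO : Out δ1 π G (Gex G Ys) ⊥ EH d Ys UH c0 tu c t E K0 C p a Z)
    (hS : SHH x η θ T0 y0 y1 B G EH d Ys Sm UH Gd Hs c0 c E F0 K0 Fy Mt pn)
    (hP : HPre G UH c0 EH tu)
    (hH : CH x θ y0 G d Ys Sm UH Gd c0 c E F0 K0 C p Fy Mt pn hi U Wc i0 Kc)
    (k4 : δ1 * d + 2020 * η * d ≤ δ * d) :
    ∃ (c' : V → Fin k) (Z' : Finset V),
        (∀ v, (InS (shs d Ys) v → v ∈ UH) → c' v = c v) ∧ Z ⊆ Z' ∧
        (∀ v ∈ Z', v ∉ Z → InS (shs d Ys) v) ∧
        (∀ Y ∈ shs d Ys, ((Y ∩ Z').card : ℝ) ≤ δ * d) ∧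
        (∀ v, InS (shs d Ys) v → v ∉ UH → c' v ∈ K0 ∧ c' v ∉ E v ∧ (v ∉ Z' → c' v ∉ C (p v))) ∧
        (∀ v w, G.Adj v w → (InS Ys v → InS (shs d Ys) v ∨ v ∈ UH) →
          (InS Ys w → InS (shs d Ys) w ∨ w ∈ UH) → c' v ≠ c' w) ∧
        (∀ Y ∈ shs d Ys, ∀ b, (Y.filter (fun v => v ∉ UH ∧ c' v = b)).card ≤ 2) ∧
        ∀ Y ∈ shs d Ys, (odd Y (fun v => if v ∈ UH then F0 v else insert (c' v) (E v)) K0).card ≤
          Y.card := by
  have hdis := shs_dis (d := d) hS.dis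
  obtain ⟨c', h1, h2, h3, h4, h5, h6, h7⟩ := colouring hL hC hO hS hP hH
  have hadj : ∀ v w, G.Adj v w → (InS (shs d Ys) v ∧ v ∉ UH) → ¬ (InS (shs d Ys) w ∧ w ∉ UH) →
      (InS Ys w → InS (shs d Ys) w ∨ w ∈ UH) → c' v ≠ c' w := by
    rintro v w hvw ⟨⟨Y, hY, hv⟩, hu⟩ hw hw'
    rw [h1 w hw]
    intro hcc
    apply (h2 Y hY v hv hu).2.2.2.2
    rw [hcc]
    refine Finset.mem_image.2 ⟨w, Finset.mem_filter.2 ⟨mem_nb.2 hvw, fun hin => ?_⟩, rfl⟩
    rcases hw' hin with h8 | h8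
    · by_contra h9
      exact hw ⟨h8, h9⟩
    · exact h8
  refine ⟨c', Z ∪ univ.filter (fun v => Act (shs d Ys) UH v ∧ (Gl Mt v ∨
    c' v ∈ hvy G Ys UH c0 c E d (spf (shs d Ys) v))), ?_, Finset.subset_union_left, ?_, ?_, ?_,
    ?_, ?_, ?_⟩
  · intro v hv
    exact h1 v (fun h => h.2 (hv h.1))
  · intro v hv hZ
    rcases Finset.mem_union.1 hv with h8 | h8
    · exact absurd h8 hZ
    · exact (Finset.mem_filter.1 h8).2.1.1
  · intro Y hY
    have e1 : Y ∩ (Z ∪ univ.filter (fun v => Act (shs d Ys) UH v ∧ (Gl Mt v ∨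
        c' v ∈ hvy G Ys UH c0 c E d (spf (shs d Ys) v)))) ⊆
        ((Y ∩ Z) ∪ Y.filter (fun v => Gl Mt v)) ∪
          Y.filter (fun v => v ∉ UH ∧ ¬ Gl Mt v ∧ c' v ∈ hvy G Ys UH c0 c E d Y) := by
      intro v hv
      obtain ⟨hv1, hv2⟩ := Finset.mem_inter.1 hv
      rcases Finset.mem_union.1 hv2 with h8 | h8
      · exact Finset.mem_union_left _ (Finset.mem_union_left _ (Finset.mem_inter.2 ⟨hv1, h8⟩))
      · obtain ⟨_, h9, h10⟩ := Finset.mem_filter.1 h8
        by_cases hg : Gl Mt v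
        · exact Finset.mem_union_left _ (Finset.mem_union_right _
            (Finset.mem_filter.2 ⟨hv1, hg⟩))
        · apply Finset.mem_union_right
          rcases h10 with h10 | h10
          · exact absurd h10 hg
          · rw [spf_eq hdis hY hv1] at h10
            exact Finset.mem_filter.2 ⟨hv1, h9.2, hg, h10⟩
    have e2 : (Y.filter (fun v => v ∉ UH ∧ ¬ Gl Mt v ∧
        c' v ∈ hvy G Ys UH c0 c E d Y)).card ≤ (hvy G Ys UH c0 c E d Y).card := by
      apply Finset.card_le_card_of_injOn c'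
      · intro v hv
        exact (Finset.mem_filter.1 (Finset.mem_coe.1 hv)).2.2.2
      · intro v hv w hw hcc
        obtain ⟨a1, a2, a3, _⟩ := Finset.mem_filter.1 (Finset.mem_coe.1 hv)
        obtain ⟨b1, b2, _, _⟩ := Finset.mem_filter.1 (Finset.mem_coe.1 hw)
        rcases h3 Y hY v a1 w b1 a2 b2 hcc with h8 | h8
        · exact h8
        · exact absurd (gl_of_adj h8) a3
    have e3 := (Finset.card_le_card e1).trans ((Finset.card_union_le _ _).trans
      (Nat.add_le_add_right (Finset.card_union_le _ _) _))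
    rw [gl_filter hS hY] at e3
    have e4 := hO.ZY Y (mem_shs hY).1
    have e5 := hS.pnu Y hY
    have e6 := (hvy_le hC hO hS hP hY).1
    have e7 : ((Y ∩ (Z ∪ univ.filter (fun v => Act (shs d Ys) UH v ∧ (Gl Mt v ∨
        c' v ∈ hvy G Ys UH c0 c E d (spf (shs d Ys) v))))).card : ℝ) ≤
        ((Y ∩ Z).card : ℝ) + 2 * pn Y + ((hvy G Ys UH c0 c E d Y).card : ℝ) := by
      exact_mod_cast e3.trans (Nat.add_le_add_left e2 _)
    linarith
  · rintro v ⟨Y, hY, hv⟩ hu
    obtain ⟨q1, q2, ⟨i, q3⟩, q4, _⟩ := h2 Y hY v hv hu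
    refine ⟨(hH.c3 Y hY i _ q3).1, q4, ?_⟩
    intro hZ
    have hg : ¬ Gl Mt v := fun hg => hZ (Finset.mem_union_right _
      (Finset.mem_filter.2 ⟨Finset.mem_univ _, ⟨⟨Y, hY, hv⟩, hu⟩, Or.inl hg⟩))
    have hb : c' v ∉ hvy G Ys UH c0 c E d Y := by
      intro hb
      apply hZ
      refine Finset.mem_union_right _
        (Finset.mem_filter.2 ⟨Finset.mem_univ _, ⟨⟨Y, hY, hv⟩, hu⟩, Or.inr ?_⟩)
      rw [spf_eq hdis hY hv]
      exact hb
    exact hH.c6 Y hY _ _ (q2 hg) hb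
  · intro v w hvw hv hw
    by_cases av : InS (shs d Ys) v ∧ v ∉ UH
    · by_cases aw : InS (shs d Ys) w ∧ w ∉ UH
      · obtain ⟨⟨Y, hY, hvY⟩, hu⟩ := av
        obtain ⟨⟨Y', hY', hwY⟩, hu'⟩ := aw
        by_cases hYY : Y = Y'
        · subst hYY
          intro hcc
          rcases h3 Y hY v hvY w hwY hu hu' hcc with h8 | h8
          · exact hvw.ne h8
          · exact (hS.mta v w h8).2.1 hvw
        · exact h5 Y hY Y' hY' hYY v hvY w hwY hu hu' hvw
      · exact hadj v w hvw av aw hw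
    · by_cases aw : InS (shs d Ys) w ∧ w ∉ UH
      · exact (hadj w v hvw.symm aw av hv).symm
      · rw [h1 v av, h1 w aw]
        refine hO.cc v w hvw ?_ ?_
        · intro hin
          rcases hv hin with h8 | h8
          · by_contra h9
            exact av ⟨h8, h9⟩
          · exact h8
        · intro hin
          rcases hw hin with h8 | h8
          · by_contra h9
            exact aw ⟨h8, h9⟩
          · exact h8
  · intro Y hY b
    rcases (Y.filter (fun v => v ∉ UH ∧ c' v = b)).eq_empty_or_nonempty with h8 | ⟨v, hv⟩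
    · rw [h8]; simp
    · obtain ⟨a1, a2, a3⟩ := Finset.mem_filter.1 hv
      have hsub : Y.filter (fun v => v ∉ UH ∧ c' v = b) ⊆ insert v (nb Mt v) := by
        intro w hw
        obtain ⟨b1, b2, b3⟩ := Finset.mem_filter.1 hw
        rcases h3 Y hY v a1 w b1 a2 b2 (a3.trans b3.symm) with h9 | h9
        · exact Finset.mem_insert.2 (Or.inl h9.symm)
        · exact Finset.mem_insert.2 (Or.inr (mem_nb.2 h9))
      calc _ ≤ (insert v (nb Mt v)).card := Finset.card_le_card hsub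
        _ ≤ (nb Mt v).card + 1 := Finset.card_insert_le _ _
        _ ≤ 2 := by have := hS.mat v; omega
  · intro Y hY
    exact parity hH hS hO.K0c h2 h3 h4 h6 h7 hY

end main

/-- VSHORT -/
theorem stmt_VSHORT (hL : Stmt_LSB.{u}) (hCh : Stmt_CHO) : Stmt_VSHORT.{u} := by
  intro δ π hδ hδ1 hπ hπ1
  obtain ⟨θ, δc, dc, hθ, hθ1, hδc, hcho⟩ := hCh π hπ hπ1
  have hm : 0 < min δc δ := lt_min hδc hδ
  refine ⟨min δc δ / 100, θ, by positivity, hθ, ?_⟩
  intro x hx hxθ
  refine ⟨min (x ^ 2 / 10 ^ 7) (min δc δ / 10 ^ 5),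
    max dc (max 1000 ⌈1000 / (min δc δ)⌉₊), lt_min (by positivity) (by positivity), ?_⟩
  intro V _ k T0 y0 y1 B G EH d Ys Sm UH Gd Hs c0 tu c t E F0 K0 C p a Z Fy Mt pn hd hT1 hB1 hy11
    hxy hyB hP hCc hO hS
  have m1 : min δc δ ≤ δc := min_le_left _ _
  have m2 : min δc δ ≤ δ := min_le_right _ _
  have d1 : dc ≤ d := (le_max_left _ _).trans hd
  have d2 : 1000 ≤ d := (le_max_left _ _).trans ((le_max_right _ _).trans hd)
  have d3 : ⌈1000 / (min δc δ)⌉₊ ≤ d := (le_max_right _ _).trans ((le_max_right _ _).trans hd)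
  have d4 : 1000 / (min δc δ) ≤ d := (Nat.le_ceil _).trans (by exact_mod_cast d3)
  have d5 : 1000 ≤ min δc δ * d := by
    rw [div_le_iff₀ hm] at d4
    linarith
  have d6 : (1000 : ℝ) ≤ d := by exact_mod_cast d2
  have dpos : (0 : ℝ) < d := by linarith
  obtain ⟨η, hη⟩ : ∃ η, η = min (x ^ 2 / 10 ^ 7) (min δc δ / 10 ^ 5) := ⟨_, rfl⟩
  rw [← hη] at hS
  have η1 : η ≤ x ^ 2 / 10 ^ 7 := by rw [hη]; exact min_le_left _ _
  have η2 : η ≤ min δc δ / 10 ^ 5 := by rw [hη]; exact min_le_right _ _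
  have η0 : 0 < η := by rw [hη]; exact lt_min (by positivity) (by positivity)
  have η3 : η * d ≤ min δc δ * d / 10 ^ 5 := by
    have := mul_le_mul_of_nonneg_right η2 dpos.le
    linarith
  have μd : min δc δ * d ≤ δc * d := mul_le_mul_of_nonneg_right m1 dpos.le
  have μd2 : min δc δ * d ≤ δ * d := mul_le_mul_of_nonneg_right m2 dpos.le
  have μd3 : δ * d ≤ 1 / 1000 * d := mul_le_mul_of_nonneg_right hδ1 dpos.le
  have hC : Cst x η θ T0 y0 y1 B d :=
    { θ0 := hθ, θ1 := hθ1, x0 := hx, xθ := hxθ, η0 := η0, ηx := by linarith, d1 := d6,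
      T1 := hT1, B1 := hB1, y11 := hy11, xy := hxy, yB := hyB }
  obtain ⟨hi, U, Wc, i0, Kc, hH⟩ := exists_CH (δc := δc) (dc := dc) hcho hC hO hS hP d1 hCc
    (by linarith) (by linarith) (by linarith)
  exact final hL hC hO hS hP hH (by linarith)

end Pool.Agent.Work.MP_db9399_sw_helper39
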