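import Pool.Agent.Work.MP_db9399_sw_helper39.VVlh

/-!
# MP_db9399, PHASE 2 (short spots), block VSHORT, part 6: CHO at all short spots
-/

set_option autoImplicit false

namespace Pool.Agent.Work.MP_db9399_sw_helper39

open Finset Classical
open Pool.Agent.Work.MP_db9399_all (nb)
open Pool.Agent.Work.MP_db9399_dn (IsMat Tot)
open Pool.Agent.Work.MP_db9399_bg (HPre)
open Pool.Agent.Work.MP_db9399_sl (InS Same Gout Gss Gin Gex Out Vert odd)
open Pool.Agent.Work.MP_db9399_sw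

universe u

/-- the statement of CHO for given constants -/
def CHOc (π θ δc : ℝ) (dc : ℕ) : Prop :=
    ∀ {D : Type} (d m pn w2 : ℕ) (n : Fin 3 → ℕ) (K0 Fy cw Q0 Hv : Finset D)
      (P : Fin 3 → Finset D) (hi : D → Fin 3), dc ≤ d → K0.card = d + 2 → cw.card ≤ w2 → w2 ≤ 2 →
      n 0 + n 1 + n 2 + 2 * pn + w2 = m → m < d → (1 - θ) * d ≤ (m : ℝ) →
      (∀ i, |(n i : ℝ) - m / 3| ≤ δc * d) → Fy ⊆ K0 → Fy.card + m ≤ d + 2 + pn →
      (pn : ℝ) ≤ δc * d → ((Fy.card) : ℝ) ≤ δc * d → ((Hv.card) : ℝ) ≤ δc * d → Q0 ⊆ K0 →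
      Fy.card ≤ 2 * pn + (Q0 \ (Fy ∪ cw)).card → (∀ i j, i ≠ j → Disjoint (P i) (P j)) →
      (∀ i, ((P i).card : ℝ) ≤ π * d + 1) →
      ∃ (U W : Finset D) (i0 : Fin 3) (K : Fin 3 → Finset D), Fy \ cw ⊆ U ∧
        (∀ i j, i ≠ j → Disjoint (K i) (K j)) ∧ (∀ i, K i ⊆ K0 \ (U ∪ cw)) ∧
        (∀ i, (K i).card = n i + if i = i0 then pn else 0) ∧
        (∀ i, ∀ b ∈ K i, b ∈ Hv → hi b = i) ∧ (∀ i, ∀ b ∈ K i, b ∉ Hv → b ∉ P i) ∧
        W ⊆ K i0 \ Hv ∧ 10 ^ 4 * θ * d ≤ (W.card : ℝ) ∧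
        (∀ b ∈ K0, b ∉ U → b ∉ cw → ∃ i, b ∈ K i) ∧
        ∀ Pc ⊆ W, Pc.card = pn → d + 2 ≤ m + (K0.filter (fun b =>
          (b ∉ Q0 ∧ (b ∈ U ∨ b ∈ Pc ∨ b ∈ cw)) ∨ (b ∈ Q0 ∧ b ∉ U ∧ b ∉ Pc ∧ b ∉ cw))).card

/-- the same without decidability instances -/
lemma cho_free {π θ δc : ℝ} {dc : ℕ} (h : CHOc π θ δc dc) {D : Type} (d m pn w2 : ℕ)
    (n : Fin 3 → ℕ) (K0 Fy cw Q0 Hv QF : Finset D) (P : Fin 3 → Finset D) (hi : D → Fin 3)
    (h1 : dc ≤ d) (h2 : K0.card = d + 2) (h3 : cw.card ≤ w2) (h4 : w2 ≤ 2)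
    (h5 : n 0 + n 1 + n 2 + 2 * pn + w2 = m) (h6 : m < d) (h7 : (1 - θ) * d ≤ (m : ℝ))
    (h8 : ∀ i, |(n i : ℝ) - m / 3| ≤ δc * d) (h9 : Fy ⊆ K0) (h10 : Fy.card + m ≤ d + 2 + pn)
    (h11 : (pn : ℝ) ≤ δc * d) (h12 : ((Fy.card) : ℝ) ≤ δc * d) (h13 : ((Hv.card) : ℝ) ≤ δc * d)
    (h14 : Q0 ⊆ K0) (h15 : ∀ b ∈ QF, b ∈ Q0 ∧ b ∉ Fy ∧ b ∉ cw)
    (h16 : Fy.card ≤ 2 * pn + QF.card) (h17 : ∀ i j, i ≠ j → Disjoint (P i) (P j))
    (h18 : ∀ i, ((P i).card : ℝ) ≤ π * d + 1) :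
    ∃ (U W : Finset D) (i0 : Fin 3) (K : Fin 3 → Finset D), (∀ b ∈ Fy, b ∉ cw → b ∈ U) ∧
      (∀ i j, i ≠ j → Disjoint (K i) (K j)) ∧ (∀ i, ∀ b ∈ K i, b ∈ K0 ∧ b ∉ U ∧ b ∉ cw) ∧
      (∀ i, (K i).card = n i + if i = i0 then pn else 0) ∧
      (∀ i, ∀ b ∈ K i, b ∈ Hv → hi b = i) ∧ (∀ i, ∀ b ∈ K i, b ∉ Hv → b ∉ P i) ∧
      (∀ b ∈ W, b ∈ K i0 ∧ b ∉ Hv) ∧ 10 ^ 4 * θ * d ≤ (W.card : ℝ) ∧
      (∀ b ∈ K0, b ∉ U → b ∉ cw → ∃ i, b ∈ K i) ∧
      ∀ Pc : Finset D, (∀ b ∈ Pc, b ∈ W) → Pc.card = pn →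
        ∃ S : Finset D, (∀ b ∈ S, b ∈ K0 ∧ ((b ∉ Q0 ∧ (b ∈ U ∨ b ∈ Pc ∨ b ∈ cw)) ∨
          (b ∈ Q0 ∧ b ∉ U ∧ b ∉ Pc ∧ b ∉ cw))) ∧ d + 2 ≤ m + S.card := by
  obtain ⟨U, W, i0, K, r1, r2, r3, r4, r5, r6, r7, r8, r9, r10⟩ :=
    h d m pn w2 n K0 Fy cw Q0 Hv P hi h1 h2 h3 h4 h5 h6 h7 h8 h9 h10 h11 h12 h13 h14
      (by
        refine h16.trans (Nat.add_le_add_left (Finset.card_le_card ?_) _)
        intro b hb
        obtain ⟨e1, e2, e3⟩ := h15 b hb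
        refine Finset.mem_sdiff.2 ⟨e1, fun e4 => ?_⟩
        rcases Finset.mem_union.1 e4 with e5 | e5
        · exact e2 e5
        · exact e3 e5) h17 h18
  refine ⟨U, W, i0, K, ?_, r2, ?_, r4, r5, r6, ?_, r8, r9, ?_⟩
  · intro b hb hbc
    exact r1 (Finset.mem_sdiff.2 ⟨hb, hbc⟩)
  · intro i b hb
    obtain ⟨e1, e2⟩ := Finset.mem_sdiff.1 (r3 i hb)
    exact ⟨e1, fun h => e2 (Finset.mem_union_left _ h), fun h => e2 (Finset.mem_union_right _ h)⟩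
  · intro b hb
    exact Finset.mem_sdiff.1 (r7 hb)
  · intro Pc hPc hcard
    refine ⟨_, ?_, r10 Pc hPc hcard⟩
    intro b hb
    exact Finset.mem_filter.1 hb

section main
variable {V : Type u} [Fintype V] {k : ℕ} {δ1 π x η θ T0 y0 y1 B : ℝ} {G EH : SimpleGraph V}
  {d : ℕ} {Ys Sm : Finset (Finset V)} {UH Gd Hs : Finset V} {c0 tu c : V → Fin k}
  {t : V → V → Fin k} {E F0 : V → Finset (Fin k)} {K0 : Finset (Fin k)}
  {C : Fin 3 → Finset (Fin k)} {p : V → Fin 3} {a : V → Bool} {Z : Finset V}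
  {Fy : Finset V → Finset (Fin k)} {Mt : SimpleGraph V} {pn : Finset V → ℕ}

/-- normal vertices of a third -/
noncomputable def nrm (UH : Finset V) (p : V → Fin 3) (Mt : SimpleGraph V) (Y : Finset V)
    (i : Fin 3) : Finset V := Y.filter (fun v => v ∉ UH ∧ ¬ Gl Mt v ∧ p v = i)

lemma gl_filter (hS : SHH x η θ T0 y0 y1 B G EH d Ys Sm UH Gd Hs c0 c E F0 K0 Fy Mt pn)
    {Y : Finset V} (hY : Y ∈ shs d Ys) : (Y.filter (fun v => Gl Mt v)).card = 2 * pn Y := by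
  refine Eq.trans ?_ (hS.mtn Y hY)
  congr 1
  ext v
  rw [Finset.mem_filter, Finset.mem_filter]
  exact Iff.rfl

lemma gl_not (hS : SHH x η θ T0 y0 y1 B G EH d Ys Sm UH Gd Hs c0 c E F0 K0 Fy Mt pn)
    {v : V} (hv : Gl Mt v) : v ∉ UH ∧ v ∉ Gd := by
  obtain ⟨w, hw⟩ := hv
  obtain ⟨_, _, h4, h5⟩ := hS.mta v w (mem_nb.1 hw)
  exact ⟨h4, h5⟩

lemma nrm_sum (hS : SHH x η θ T0 y0 y1 B G EH d Ys Sm UH Gd Hs c0 c E F0 K0 Fy Mt pn)
    {Y : Finset V} (hY : Y ∈ shs d Ys) :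
    (nrm UH p Mt Y 0).card + (nrm UH p Mt Y 1).card + (nrm UH p Mt Y 2).card + 2 * pn Y +
      (Y ∩ UH).card = Y.card := by
  have h1 : (Y.filter (fun v => v ∈ UH)).card + (Y.filter (fun v => ¬ v ∈ UH)).card = Y.card :=
    Finset.card_filter_add_card_filter_not _
  have h2 : Y.filter (fun v => v ∈ UH) = Y ∩ UH := by
    ext v; simp only [Finset.mem_filter, Finset.mem_inter]
  have h3 : ((Y.filter (fun v => ¬ v ∈ UH)).filter (fun v => Gl Mt v)).card +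
      ((Y.filter (fun v => ¬ v ∈ UH)).filter (fun v => ¬ Gl Mt v)).card =
      (Y.filter (fun v => ¬ v ∈ UH)).card :=
    Finset.card_filter_add_card_filter_not _
  have h4 : (Y.filter (fun v => ¬ v ∈ UH)).filter (fun v => Gl Mt v) =
      Y.filter (fun v => Gl Mt v) := by
    ext v
    simp only [Finset.mem_filter]
    constructor
    · rintro ⟨⟨h5, _⟩, h6⟩
      exact ⟨h5, h6⟩
    · rintro ⟨h5, h6⟩
      exact ⟨⟨h5, (gl_not hS h6).1⟩, h6⟩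
  have h5 := Finset.card_eq_sum_card_fiberwise (f := p)
    (s := (Y.filter (fun v => ¬ v ∈ UH)).filter (fun v => ¬ Gl Mt v))
    (t := (univ : Finset (Fin 3))) (fun v _ => Finset.mem_coe.2 (Finset.mem_univ _))
  have h6 : ∀ i, (((Y.filter (fun v => ¬ v ∈ UH)).filter (fun v => ¬ Gl Mt v)).filter
      (fun v => p v = i)) = nrm UH p Mt Y i := by
    intro i
    ext v
    simp only [Finset.mem_filter, nrm]
    tauto
  rw [Fin.sum_univ_three, h6, h6, h6] at h5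
  rw [h2] at h1
  rw [h4, gl_filter hS hY] at h3
  omega

lemma nrm_card (hC : Cst x η θ T0 y0 y1 B d)
    (hO : Out δ1 π G (Gex G Ys) ⊥ EH d Ys UH c0 tu c t E K0 C p a Z)
    (hS : SHH x η θ T0 y0 y1 B G EH d Ys Sm UH Gd Hs c0 c E F0 K0 Fy Mt pn)
    {Y : Finset V} (hY : Y ∈ shs d Ys) (i : Fin 3) :
    |((nrm UH p Mt Y i).card : ℝ) - (Y.card : ℝ) / 3| ≤ 2 * δ1 * d + 2 + 20 * η * d := by
  have hY1 := (mem_shs hY).1
  have h1 := hO.cell Y hY1 i true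
  have h2 := hO.cell Y hY1 i false
  have h3 : (Y.filter (fun v => p v = i ∧ a v = true)).card +
      (Y.filter (fun v => p v = i ∧ a v = false)).card = (Y.filter (fun v => p v = i)).card := by
    rw [← Finset.card_union_of_disjoint]
    · congr 1
      ext v
      simp only [Finset.mem_union, Finset.mem_filter]
      rcases Bool.eq_false_or_eq_true (a v) with h | h <;> simp [h]
    · rw [Finset.disjoint_left]
      intro v hv hv'
      have e1 := (Finset.mem_filter.1 hv).2.2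
      have e2 := (Finset.mem_filter.1 hv').2.2
      rw [e1] at e2
      exact absurd e2 (by decide)
  have h4 : (nrm UH p Mt Y i).card ≤ (Y.filter (fun v => p v = i)).card := by
    apply Finset.card_le_card
    intro v hv
    obtain ⟨e1, _, _, e2⟩ := Finset.mem_filter.1 hv
    exact Finset.mem_filter.2 ⟨e1, e2⟩
  have h5 : (Y.filter (fun v => p v = i)).card ≤ (nrm UH p Mt Y i).card + (Y ∩ UH).card +
      (Y.filter (fun v => Gl Mt v)).card := by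
    refine (Finset.card_le_card (t := nrm UH p Mt Y i ∪ (Y ∩ UH) ∪
      (Y.filter (fun v => Gl Mt v))) ?_).trans ((Finset.card_union_le _ _).trans
      (Nat.add_le_add_right (Finset.card_union_le _ _) _))
    intro v hv
    obtain ⟨e1, e2⟩ := Finset.mem_filter.1 hv
    by_cases hg : Gl Mt v
    · exact Finset.mem_union_right _ (Finset.mem_filter.2 ⟨e1, hg⟩)
    · apply Finset.mem_union_left
      by_cases hu : v ∈ UH
      · exact Finset.mem_union_right _ (Finset.mem_inter.2 ⟨e1, hu⟩)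
      · exact Finset.mem_union_left _ (Finset.mem_filter.2 ⟨e1, hu, hg, e2⟩)
  have h6 := hS.uh2 Y hY1
  have h7 := hS.pnu Y hY
  rw [gl_filter hS hY] at h5
  have h8 : ((Y.filter (fun v => p v = i)).card : ℝ) ≤ (nrm UH p Mt Y i).card + 2 + 2 * pn Y := by
    exact_mod_cast (by omega : (Y.filter (fun v => p v = i)).card ≤
      (nrm UH p Mt Y i).card + 2 + 2 * pn Y)
  have h9 : ((nrm UH p Mt Y i).card : ℝ) ≤ ((Y.filter (fun v => p v = i)).card : ℝ) := by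
    exact_mod_cast h4
  have h10 : ((Y.filter (fun v => p v = i ∧ a v = true)).card : ℝ) +
      ((Y.filter (fun v => p v = i ∧ a v = false)).card : ℝ) =
      ((Y.filter (fun v => p v = i)).card : ℝ) := by exact_mod_cast h3
  have hd : (0 : ℝ) < d := by linarith [hC.d1]
  have hηd : 0 < η * d := mul_pos hC.η0 hd
  rw [abs_le] at h1 h2 ⊢
  constructor
  · linarith [h1.1, h2.1]
  · linarith [h1.2, h2.2]

/-- best thirds -/
lemma exists_hi : ∃ hi : Finset V → Fin k → Fin 3, ∀ Y b i,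
    (lst G Ys Sm UH Gd c E d p Mt Y i b).card ≤
      (lst G Ys Sm UH Gd c E d p Mt Y (hi Y b) b).card := by
  have h : ∀ (Y : Finset V) (b : Fin k), ∃ j : Fin 3, ∀ i,
      (lst G Ys Sm UH Gd c E d p Mt Y i b).card ≤
        (lst G Ys Sm UH Gd c E d p Mt Y j b).card := by
    intro Y b
    obtain ⟨j, _, hj⟩ := Finset.exists_max_image (univ : Finset (Fin 3))
      (fun i => (lst G Ys Sm UH Gd c E d p Mt Y i b).card) Finset.univ_nonempty
    exact ⟨j, fun i => hj i (Finset.mem_univ _)⟩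
  choose hi hhi using h
  exact ⟨hi, hhi⟩

lemma lists (hC : Cst x η θ T0 y0 y1 B d)
    (hS : SHH x η θ T0 y0 y1 B G EH d Ys Sm UH Gd Hs c0 c E F0 K0 Fy Mt pn)
    {hi : Finset V → Fin k → Fin 3} (hhi : ∀ Y b i,
    (lst G Ys Sm UH Gd c E d p Mt Y i b).card ≤
      (lst G Ys Sm UH Gd c E d p Mt Y (hi Y b) b).card) {Y : Finset V} (hY : Y ∈ shs d Ys)
    {b : Fin k} (hb : b ∈ K0) (hbF : b ∉ Fy Y) (hbc : b ∉ cw UH c0 Y) :
    (Y ∉ Sm → x * d * (3 / 10) ≤ ((lst G Ys Sm UH Gd c E d p Mt Y (hi Y b) b).card : ℝ)) ∧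
    (Y ∈ Sm → y0 / 3 ≤ ((lst G Ys Sm UH Gd c E d p Mt Y (hi Y b) b).card : ℝ)) := by
  have hdis := shs_dis (d := d) hS.dis
  have hd : (0 : ℝ) < d := by linarith [hC.d1]
  have huni : ∀ T : Finset V, (∀ w ∈ T, w ∈ Y ∧ w ∉ UH ∧ ¬ Gl Mt w ∧ b ∉ E w ∧
      b ∉ ac G Ys UH c w ∧ (Y ∈ Sm → w ∈ Gd)) → T.card ≤
      3 * (lst G Ys Sm UH Gd c E d p Mt Y (hi Y b) b).card := by
    intro T hT
    have h1 := Finset.card_eq_sum_card_fiberwise (f := p) (s := T)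
      (t := (univ : Finset (Fin 3))) (fun v _ => Finset.mem_coe.2 (Finset.mem_univ _))
    have h2 : ∀ i ∈ (univ : Finset (Fin 3)), (T.filter (fun v => p v = i)).card ≤
        (lst G Ys Sm UH Gd c E d p Mt Y (hi Y b) b).card := by
      intro i _
      refine (Finset.card_le_card ?_).trans (hhi Y b i)
      intro v hv
      obtain ⟨e1, e2⟩ := Finset.mem_filter.1 hv
      obtain ⟨e3, e4, e5, e6, e7, e8⟩ := hT v e1
      refine Finset.mem_filter.2 ⟨e3, e4, e5, e2, e6, e7, ?_⟩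
      rw [spf_eq hdis hY e3]
      exact e8
    rw [h1]
    calc _ ≤ ∑ i ∈ (univ : Finset (Fin 3)),
          (lst G Ys Sm UH Gd c E d p Mt Y (hi Y b) b).card := Finset.sum_le_sum h2
      _ = 3 * (lst G Ys Sm UH Gd c E d p Mt Y (hi Y b) b).card := by
          rw [Finset.sum_const, Finset.card_univ, Fintype.card_fin, smul_eq_mul]
  constructor
  · intro hs
    have h1 := hS.big Y hY hs b hb hbF hbc
    have h2 := huni ((avl G Ys UH c E Y b).filter (fun v => ¬ Gl Mt v)) (by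
      intro w hw
      obtain ⟨e1, e2⟩ := Finset.mem_filter.1 hw
      obtain ⟨e3, e4, e5, e6⟩ := Finset.mem_filter.1 e1
      exact ⟨e3, e4, e2, e5, e6, fun h => absurd h hs⟩)
    have h3 : ((avl G Ys UH c E Y b).filter (fun v => Gl Mt v)).card +
        ((avl G Ys UH c E Y b).filter (fun v => ¬ Gl Mt v)).card = (avl G Ys UH c E Y b).card :=
      Finset.card_filter_add_card_filter_not _
    have h4 : ((avl G Ys UH c E Y b).filter (fun v => Gl Mt v)).card ≤ 2 * pn Y := by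
      rw [← gl_filter hS hY]
      exact Finset.card_le_card (Finset.filter_subset_filter _ (Finset.filter_subset _ _))
    have h5 : ((avl G Ys UH c E Y b).card : ℝ) ≤ 2 * pn Y +
        3 * ((lst G Ys Sm UH Gd c E d p Mt Y (hi Y b) b).card : ℝ) := by
      exact_mod_cast (by omega : (avl G Ys UH c E Y b).card ≤ 2 * pn Y +
        3 * (lst G Ys Sm UH Gd c E d p Mt Y (hi Y b) b).card)
    have h6 := hS.pnu Y hY
    have h7 : 10 ^ 14 * η * d ≤ x * d := mul_le_mul_of_nonneg_right hC.η1 hd.le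
    have h8 : 0 < x * d := mul_pos hC.x0 hd
    linarith
  · intro hs
    have h1 := hS.gds Y hs b hb hbF hbc
    have h2 := huni (avl G Ys UH c E Y b ∩ Gd) (by
      intro w hw
      obtain ⟨e1, e2⟩ := Finset.mem_inter.1 hw
      obtain ⟨e3, e4, e5, e6⟩ := Finset.mem_filter.1 e1
      exact ⟨e3, e4, fun hg => (gl_not hS hg).2 e2, e5, e6, fun _ => e2⟩)
    have h3 : ((avl G Ys UH c E Y b ∩ Gd).card : ℝ) ≤
        3 * ((lst G Ys Sm UH Gd c E d p Mt Y (hi Y b) b).card : ℝ) := by exact_mod_cast h2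
    linarith

/-- CHO at all short spots -/
lemma exists_CH {δc : ℝ} {dc : ℕ} (hcho : CHOc π θ δc dc) (hC : Cst x η θ T0 y0 y1 B d)
    (hO : Out δ1 π G (Gex G Ys) ⊥ EH d Ys UH c0 tu c t E K0 C p a Z)
    (hS : SHH x η θ T0 y0 y1 B G EH d Ys Sm UH Gd Hs c0 c E F0 K0 Fy Mt pn)
    (hP : HPre G UH c0 EH tu) (hdc : dc ≤ d)
    (hCc : ∀ j, ((C j).card : ℝ) ≤ π * d + 1)
    (k1 : 2 * δ1 * d + 2 + 20 * η * d ≤ δc * d) (k2 : 2 * δ1 * d + 2 + 20 * η * d ≤ d / 20)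
    (k3 : 2000 * η ≤ δc) :
    ∃ (hi : Finset V → Fin k → Fin 3) (U Wc : Finset V → Finset (Fin k))
      (i0 : Finset V → Fin 3) (Kc : Finset V → Fin 3 → Finset (Fin k)),
      CH x θ y0 G d Ys Sm UH Gd c0 c E F0 K0 C p Fy Mt pn hi U Wc i0 Kc := by
  have hd : (0 : ℝ) < d := by linarith [hC.d1]
  have hη := hC.η0
  have hηd : 0 < η * d := mul_pos hη hd
  have hθ := hC.θ0
  have hθ1 := hC.θ1
  obtain ⟨hi, hhi⟩ := exists_hi (G := G) (Ys := Ys) (Sm := Sm) (UH := UH) (Gd := Gd) (c := c)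
    (E := E) (d := d) (p := p) (Mt := Mt)
  have key : ∀ Y ∈ shs d Ys, ∃ (U W : Finset (Fin k)) (i0 : Fin 3)
      (K : Fin 3 → Finset (Fin k)), (∀ b ∈ Fy Y, b ∉ cw UH c0 Y → b ∈ U) ∧
        (∀ i j, i ≠ j → Disjoint (K i) (K j)) ∧
        (∀ i, ∀ b ∈ K i, b ∈ K0 ∧ b ∉ U ∧ b ∉ cw UH c0 Y) ∧
        (∀ i, (K i).card = (nrm UH p Mt Y i).card + if i = i0 then pn Y else 0) ∧
        (∀ i, ∀ b ∈ K i, b ∈ hvy G Ys UH c0 c E d Y → hi Y b = i) ∧
        (∀ i, ∀ b ∈ K i, b ∉ hvy G Ys UH c0 c E d Y → b ∉ C i) ∧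
        (∀ b ∈ W, b ∈ K i0 ∧ b ∉ hvy G Ys UH c0 c E d Y) ∧ 10 ^ 4 * θ * d ≤ (W.card : ℝ) ∧
        (∀ b ∈ K0, b ∉ U → b ∉ cw UH c0 Y → ∃ i, b ∈ K i) ∧
        ∀ Pc : Finset (Fin k), (∀ b ∈ Pc, b ∈ W) → Pc.card = pn Y →
          ∃ S : Finset (Fin k), (∀ b ∈ S, b ∈ K0 ∧
            ((¬ Odd (Y.filter (fun v => b ∉ fst UH F0 E v)).card ∧
              (b ∈ U ∨ b ∈ Pc ∨ b ∈ cw UH c0 Y)) ∨
            (Odd (Y.filter (fun v => b ∉ fst UH F0 E v)).card ∧ b ∉ U ∧ b ∉ Pc ∧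
              b ∉ cw UH c0 Y))) ∧ d + 2 ≤ Y.card + S.card := by
    intro Y hY
    obtain ⟨hY1, hY2⟩ := mem_shs hY
    have q1 : (cw UH c0 Y).card ≤ (Y ∩ UH).card := Finset.card_image_le
    have q2 := nrm_sum (p := p) hS hY
    have q3 : ∀ i, |((nrm UH p Mt Y i).card : ℝ) - (Y.card : ℝ) / 3| ≤ δc * d :=
      fun i => (nrm_card hC hO hS hY i).trans k1
    have q4 := hS.pnu Y hY
    have q5 := hS.Fyu Y hY
    have q6 := (hvy_le hC hO hS hP hY).1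
    have q7 : 2000 * η * d ≤ δc * d := mul_le_mul_of_nonneg_right k3 hd.le
    obtain ⟨U, W, i0, K, r1, r2, r3, r4, r5, r6, r7, r8, r9, r10⟩ :=
      cho_free hcho d Y.card (pn Y) (Y ∩ UH).card (fun i => (nrm UH p Mt Y i).card) K0 (Fy Y)
        (cw UH c0 Y) (K0.filter (fun b => Odd (Y.filter (fun v => b ∉ fst UH F0 E v)).card))
        (hvy G Ys UH c0 c E d Y) ((K0 \ (Fy Y ∪ (Y ∩ UH).image c0)).filter
          (fun b => Odd (Y.filter (fun v => b ∉ fst UH F0 E v)).card)) C (hi Y) hdc hO.K0c q1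
        (hS.uh2 Y hY1) q2 hY2 (hS.low Y hY1) q3
        (hS.FyK Y hY) (hS.Fyc Y hY) (by linarith) (by linarith) (by linarith)
        (Finset.filter_subset _ _) (by
          intro b hb
          obtain ⟨e1, e2⟩ := Finset.mem_filter.1 hb
          obtain ⟨e3, e4⟩ := Finset.mem_sdiff.1 e1
          exact ⟨Finset.mem_filter.2 ⟨e3, e2⟩, fun h => e4 (Finset.mem_union_left _ h),
            fun h => e4 (Finset.mem_union_right _ h)⟩) (hS.par Y hY) hO.Cd hCc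
    refine ⟨U, W, i0, K, r1, r2, r3, r4, r5, r6, r7, r8, r9, ?_⟩
    intro Pc hPc hcard
    obtain ⟨S, s1, s2⟩ := r10 Pc hPc hcard
    refine ⟨S, ?_, s2⟩
    intro b hb
    obtain ⟨e1, e2⟩ := s1 b hb
    refine ⟨e1, ?_⟩
    have e3 : b ∈ K0.filter (fun b => Odd (Y.filter (fun v => b ∉ fst UH F0 E v)).card) ↔
        Odd (Y.filter (fun v => b ∉ fst UH F0 E v)).card := by
      rw [Finset.mem_filter]
      exact ⟨fun h => h.2, fun h => ⟨e1, h⟩⟩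
    rw [e3] at e2
    exact e2
  choose! U Wc i0 Kc hk using key
  refine ⟨hi, U, Wc, i0, Kc, ?_⟩
  exact
    { c1 := fun Y hY => (hk Y hY).1
      c2 := fun Y hY => (hk Y hY).2.1
      c3 := fun Y hY => (hk Y hY).2.2.1
      c4 := fun Y hY => (hk Y hY).2.2.2.1
      c5 := fun Y hY => (hk Y hY).2.2.2.2.1
      c6 := fun Y hY => (hk Y hY).2.2.2.2.2.1
      c7 := fun Y hY => (hk Y hY).2.2.2.2.2.2.1
      c8 := fun Y hY => (hk Y hY).2.2.2.2.2.2.2.1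
      c9 := fun Y hY => (hk Y hY).2.2.2.2.2.2.2.2.1
      c10 := fun Y hY => (hk Y hY).2.2.2.2.2.2.2.2.2
      ls := fun Y hY b hb hbF hbc => lists hC hS hhi hY hb hbF hbc
      cc := by
        intro Y hY i
        have e1 := (abs_le.1 (nrm_card hC hO hS hY i)).1
        have e2 := hS.low Y (mem_shs hY).1
        have e3 : ((nrm UH p Mt Y i).card : ℝ) ≤ ((Kc Y i).card : ℝ) := by
          have := (hk Y hY).2.2.2.1 i
          exact_mod_cast (by rw [this]; exact Nat.le_add_right _ _ :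
            (nrm UH p Mt Y i).card ≤ (Kc Y i).card)
        have e4 : θ * d ≤ 1 / 10 ^ 7 * d := mul_le_mul_of_nonneg_right hθ1 hd.le
        linarith }

end main

end Pool.Agent.Work.MP_db9399_sw_helper39
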