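import Pool.Agent.Work.MP_db9399_sw_helper39.VPos

/-!
# MP_db9399, PHASE 2 (short spots), block VSHORT, part 2: degrees and heavy colours
-/

set_option autoImplicit false

namespace Pool.Agent.Work.MP_db9399_sw_helper39

open Finset Classical
open Pool.Agent.Work.MP_db9399_all (nb)
open Pool.Agent.Work.MP_db9399_dn (IsMat Tot)
open Pool.Agent.Work.MP_db9399_bg (HPre)
open Pool.Agent.Work.MP_db9399_sl (InS Same Gout Gss Gin Gex Out Vert odd)
open Pool.Agent.Work.MP_db9399_sw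

universe u

section deg
variable {V : Type u} [Fintype V] {k : ℕ}

lemma same_iff {Ys : Finset (Finset V)} (dis : ∀ Y ∈ Ys, ∀ Y' ∈ Ys, Y ≠ Y' → Disjoint Y Y')
    {Y : Finset V} (hY : Y ∈ Ys) {v w : V} (hv : v ∈ Y) : Same Ys v w ↔ w ∈ Y := by
  constructor
  · rintro ⟨Y', hY', h1, h2⟩
    by_cases h : Y = Y'
    · rw [h]; exact h2
    · exact absurd h1 (Finset.disjoint_left.1 (dis Y hY Y' hY' h) hv)
  · intro hw
    exact ⟨Y, hY, hv, hw⟩

lemma E_card {G EH : SimpleGraph V} {Ys : Finset (Finset V)} {UH : Finset V} {d : ℕ}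
    {E : V → Finset (Fin k)}
    (hEd : ∀ v, InS Ys v → (E v).card + (nb (Gin G EH Ys) v).card + (nb (⊥ : SimpleGraph V) v).card
      = d) (hEU : ∀ v w, EH.Adj v w → v ∈ UH)
    (dis : ∀ Y ∈ Ys, ∀ Y' ∈ Ys, Y ≠ Y' → Disjoint Y Y')
    {Y : Finset V} (hY : Y ∈ Ys) {v : V} (hv : v ∈ Y) (hu : v ∉ UH) :
    (E v).card + (nb G v ∩ Y).card = d := by
  have h1 := hEd v ⟨Y, hY, hv⟩
  have h2 : nb (Gin G EH Ys) v = nb G v ∩ Y := by
    ext w
    rw [mem_nb, Finset.mem_inter, mem_nb]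
    constructor
    · rintro ⟨h3, h4, _⟩
      exact ⟨h3, (same_iff dis hY hv).1 h4⟩
    · rintro ⟨h3, h4⟩
      exact ⟨h3, (same_iff dis hY hv).2 h4, fun h5 => hu (hEU _ _ h5)⟩
  have h3 : (nb (⊥ : SimpleGraph V) v).card = 0 := by
    rw [Finset.card_eq_zero]
    ext w
    simp [mem_nb]
  rw [h2, h3] at h1
  omega

lemma out_card {G : SimpleGraph V} {d : ℕ} (deg : ∀ v, (nb G v).card ≤ d) (Y : Finset V) (v : V) :
    (nb G v \ Y).card + (nb G v ∩ Y).card ≤ d := by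
  rw [Finset.card_sdiff_add_card_inter]
  exact deg v

/-- own colours of the precoloured vertices of `Y` -/
noncomputable def cw (UH : Finset V) (c0 : V → Fin k) (Y : Finset V) : Finset (Fin k) :=
  (Y ∩ UH).image c0

lemma ac_card {G : SimpleGraph V} {Ys : Finset (Finset V)} {UH : Finset V} {c0 c : V → Fin k}
    (cU : ∀ v ∈ UH, c v = c0 v) {Y : Finset V} (hY : Y ∈ Ys) (v : V) :
    (ac G Ys UH c v \ cw UH c0 Y).card ≤ (nb G v \ Y).card := by
  have h1 : ac G Ys UH c v \ cw UH c0 Y ⊆ (nb G v \ Y).image c := by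
    intro b hb
    obtain ⟨hb1, hb2⟩ := Finset.mem_sdiff.1 hb
    obtain ⟨w, hw, rfl⟩ := Finset.mem_image.1 hb1
    obtain ⟨hw1, hw2⟩ := Finset.mem_filter.1 hw
    refine Finset.mem_image.2 ⟨w, Finset.mem_sdiff.2 ⟨hw1, fun hwY => hb2 ?_⟩, rfl⟩
    have hwU := hw2 ⟨Y, hY, hwY⟩
    rw [cU w hwU]
    exact Finset.mem_image.2 ⟨w, Finset.mem_inter.2 ⟨hwY, hwU⟩, rfl⟩
  exact (Finset.card_le_card h1).trans Finset.card_image_le

/-- vertices of `Y` at which `b` is forbidden -/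
noncomputable def bad (G : SimpleGraph V) (Ys : Finset (Finset V)) (UH : Finset V)
    (c : V → Fin k) (E : V → Finset (Fin k)) (Y : Finset V) (b : Fin k) : Finset V :=
  Y.filter (fun v => v ∉ UH ∧ (b ∈ E v ∨ b ∈ ac G Ys UH c v))

/-- heavy colours -/
noncomputable def hvy (G : SimpleGraph V) (Ys : Finset (Finset V)) (UH : Finset V)
    (c0 c : V → Fin k) (E : V → Finset (Fin k)) (d : ℕ) (Y : Finset V) : Finset (Fin k) :=
  univ.filter (fun b => b ∉ cw UH c0 Y ∧ d < 1000 * (bad G Ys UH c E Y b).card)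

lemma hvy_sum {G EH : SimpleGraph V} {Ys : Finset (Finset V)} {UH : Finset V} {d : ℕ}
    {c0 c : V → Fin k} {E : V → Finset (Fin k)}
    (hEd : ∀ v, InS Ys v → (E v).card + (nb (Gin G EH Ys) v).card + (nb (⊥ : SimpleGraph V) v).card
      = d) (hEU : ∀ v w, EH.Adj v w → v ∈ UH)
    (dis : ∀ Y ∈ Ys, ∀ Y' ∈ Ys, Y ≠ Y' → Disjoint Y Y') (deg : ∀ v, (nb G v).card ≤ d)
    (cU : ∀ v ∈ UH, c v = c0 v) {Y : Finset V} (hY : Y ∈ Ys) {S : Finset V} (hS : S ⊆ Y) :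
    ∑ b ∈ hvy G Ys UH c0 c E d Y, ((bad G Ys UH c E Y b ∩ S).card : ℝ) ≤
      2 * ∑ v ∈ S, ((d : ℝ) - (nb G v ∩ Y).card) := by
  have e1 : ∀ b, ((bad G Ys UH c E Y b ∩ S).card : ℝ) =
      ∑ v ∈ S, if v ∉ UH ∧ (b ∈ E v ∨ b ∈ ac G Ys UH c v) then (1 : ℝ) else 0 := by
    intro b
    have e2 : bad G Ys UH c E Y b ∩ S =
        S.filter (fun v => v ∉ UH ∧ (b ∈ E v ∨ b ∈ ac G Ys UH c v)) := by
      ext v
      unfold bad
      rw [Finset.mem_inter, Finset.mem_filter, Finset.mem_filter]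
      constructor
      · rintro ⟨⟨_, h2⟩, h3⟩
        exact ⟨h3, h2⟩
      · rintro ⟨h2, h3⟩
        exact ⟨⟨hS h2, h3⟩, h2⟩
    rw [e2, Finset.card_filter]
    push_cast
    rfl
  rw [Finset.sum_congr rfl (fun b _ => e1 b), Finset.sum_comm, Finset.mul_sum]
  apply Finset.sum_le_sum
  intro v hvS
  have hv := hS hvS
  have h3 : ((nb G v ∩ Y).card : ℝ) ≤ d := by
    have := out_card deg Y v
    exact_mod_cast (by omega : (nb G v ∩ Y).card ≤ d)
  by_cases hu : v ∈ UH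
  · rw [Finset.sum_eq_zero]
    · linarith
    · intro b _
      rw [if_neg]
      exact fun h => h.1 hu
  · have h4 : ∑ b ∈ hvy G Ys UH c0 c E d Y,
        (if v ∉ UH ∧ (b ∈ E v ∨ b ∈ ac G Ys UH c v) then (1 : ℝ) else 0) ≤
        (((E v ∪ (ac G Ys UH c v \ cw UH c0 Y)).card : ℕ) : ℝ) := by
      rw [← Finset.sum_filter, Finset.sum_const, nsmul_eq_mul, mul_one]
      have : ((hvy G Ys UH c0 c E d Y).filter
          (fun b => v ∉ UH ∧ (b ∈ E v ∨ b ∈ ac G Ys UH c v))).card ≤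
          (E v ∪ (ac G Ys UH c v \ cw UH c0 Y)).card := by
        apply Finset.card_le_card
        intro b hb
        obtain ⟨hb1, _, hb2⟩ := Finset.mem_filter.1 hb
        have hb3 := (Finset.mem_filter.1 hb1).2.1
        rcases hb2 with hb2 | hb2
        · exact Finset.mem_union_left _ hb2
        · exact Finset.mem_union_right _ (Finset.mem_sdiff.2 ⟨hb2, hb3⟩)
      exact_mod_cast this
    have h5 := E_card hEd hEU dis hY hv hu
    have h6 := out_card deg Y v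
    have h7 := ac_card (G := G) cU hY v
    have h8 := Finset.card_union_le (E v) (ac G Ys UH c v \ cw UH c0 Y)
    have h9 : (((E v ∪ (ac G Ys UH c v \ cw UH c0 Y)).card : ℕ) : ℝ) +
        2 * ((nb G v ∩ Y).card : ℝ) ≤ 2 * d := by
      exact_mod_cast (by omega : (E v ∪ (ac G Ys UH c v \ cw UH c0 Y)).card +
        2 * (nb G v ∩ Y).card ≤ 2 * d)
    linarith

lemma hvy_card {G EH : SimpleGraph V} {Ys : Finset (Finset V)} {UH : Finset V} {d : ℕ}
    {c0 c : V → Fin k} {E : V → Finset (Fin k)}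
    (hEd : ∀ v, InS Ys v → (E v).card + (nb (Gin G EH Ys) v).card + (nb (⊥ : SimpleGraph V) v).card
      = d) (hEU : ∀ v w, EH.Adj v w → v ∈ UH)
    (dis : ∀ Y ∈ Ys, ∀ Y' ∈ Ys, Y ≠ Y' → Disjoint Y Y') (deg : ∀ v, (nb G v).card ≤ d)
    (cU : ∀ v ∈ UH, c v = c0 v) {Y : Finset V} (hY : Y ∈ Ys) :
    ((hvy G Ys UH c0 c E d Y).card : ℝ) * d ≤ 2000 * wt G d Y := by
  have h1 := hvy_sum (c0 := c0) hEd hEU dis deg cU hY (Finset.Subset.refl Y)
  have h2 : ((hvy G Ys UH c0 c E d Y).card : ℝ) * d ≤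
      1000 * ∑ b ∈ hvy G Ys UH c0 c E d Y, ((bad G Ys UH c E Y b ∩ Y).card : ℝ) := by
    rw [Finset.mul_sum, ← nsmul_eq_mul, ← Finset.sum_const]
    apply Finset.sum_le_sum
    intro b hb
    have h3 := (Finset.mem_filter.1 hb).2.2
    have h4 : bad G Ys UH c E Y b ∩ Y = bad G Ys UH c E Y b :=
      Finset.inter_eq_left.2 (Finset.filter_subset _ _)
    rw [h4]
    exact_mod_cast h3.le
  unfold wt
  linarith

lemma hvy_card2 {G EH : SimpleGraph V} {Ys : Finset (Finset V)} {UH Hs : Finset V} {d : ℕ}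
    {c0 c : V → Fin k} {E : V → Finset (Fin k)}
    (hEd : ∀ v, InS Ys v → (E v).card + (nb (Gin G EH Ys) v).card + (nb (⊥ : SimpleGraph V) v).card
      = d) (hEU : ∀ v w, EH.Adj v w → v ∈ UH)
    (dis : ∀ Y ∈ Ys, ∀ Y' ∈ Ys, Y ≠ Y' → Disjoint Y Y') (deg : ∀ v, (nb G v).card ≤ d)
    (cU : ∀ v ∈ UH, c v = c0 v) {Y : Finset V} (hY : Y ∈ Ys)
    (hsc : 10 ^ 4 * (Y ∩ Hs).card ≤ Y.card) (hYd : Y.card ≤ d) :
    ((hvy G Ys UH c0 c E d Y).card : ℝ) * d ≤ 2500 * wl G d Hs Y := by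
  have h1 := hvy_sum (c0 := c0) hEd hEU dis deg cU hY (Finset.sdiff_subset : Y \ Hs ⊆ Y)
  have h2 : ((hvy G Ys UH c0 c E d Y).card : ℝ) * d ≤
      1250 * ∑ b ∈ hvy G Ys UH c0 c E d Y, ((bad G Ys UH c E Y b ∩ (Y \ Hs)).card : ℝ) := by
    rw [Finset.mul_sum, ← nsmul_eq_mul, ← Finset.sum_const]
    apply Finset.sum_le_sum
    intro b hb
    have h3 := (Finset.mem_filter.1 hb).2.2
    have h4 : (bad G Ys UH c E Y b).card ≤ (bad G Ys UH c E Y b ∩ (Y \ Hs)).card +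
        (Y ∩ Hs).card := by
      refine (Finset.card_le_card ?_).trans (Finset.card_union_le _ _)
      intro v hv
      have hvY : v ∈ Y := (Finset.mem_filter.1 hv).1
      by_cases hH : v ∈ Hs
      · exact Finset.mem_union_right _ (Finset.mem_inter.2 ⟨hvY, hH⟩)
      · exact Finset.mem_union_left _ (Finset.mem_inter.2 ⟨hv, Finset.mem_sdiff.2 ⟨hvY, hH⟩⟩)
    exact_mod_cast (by omega : d ≤ 1250 * (bad G Ys UH c E Y b ∩ (Y \ Hs)).card)
  unfold wl
  linarith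

lemma wt_nonneg {G : SimpleGraph V} {d : ℕ} (deg : ∀ v, (nb G v).card ≤ d) (Y : Finset V) :
    ∀ v, (0 : ℝ) ≤ (d : ℝ) - (nb G v ∩ Y).card := by
  intro v
  have := out_card deg Y v
  have h : ((nb G v ∩ Y).card : ℝ) ≤ d := by
    exact_mod_cast (by omega : (nb G v ∩ Y).card ≤ d)
  linarith

end deg

end Pool.Agent.Work.MP_db9399_sw_helper39
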