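import Pool.Agent.Work.MP_db9399_sw_helper39.VDeg

/-!
# MP_db9399, PHASE 2 (short spots), block VSHORT, part 3: row and column sums (abstract)
-/

set_option autoImplicit false

namespace Pool.Agent.Work.MP_db9399_sw_helper39

open Finset Classical
open Pool.Agent.Work.MP_db9399_all (nb)
open Pool.Agent.Work.MP_db9399_dn (IsMat Tot)
open Pool.Agent.Work.MP_db9399_bg (HPre)
open Pool.Agent.Work.MP_db9399_sl (InS Same Gout Gss Gin Gex Out Vert odd)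
open Pool.Agent.Work.MP_db9399_sw

universe u

lemma sum_ite_le {C : Type} (S T : Finset C) (P : C → Prop) [DecidablePred P] (f : C → ℝ) (hf : ∀ b, 0 ≤ f b)
    (h : ∀ b ∈ S, P b → b ∈ T) : ∑ b ∈ S, (if P b then f b else 0) ≤ ∑ b ∈ T, f b := by
  rw [← Finset.sum_filter]
  apply Finset.sum_le_sum_of_subset_of_nonneg
  · intro b hb
    obtain ⟨h1, h2⟩ := Finset.mem_filter.1 hb
    exact h b h1 h2
  · intro b _ _
    exact hf b

section num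
variable {V : Type u} [Fintype V] {C : Type} {G Mt : SimpleGraph V} {Ts : Finset (Finset V)}
  {UH : Finset V} {D : VD V C}

lemma row_le {v : V} {n ε β γ : ℝ} (hε : 0 ≤ ε) (hεβ : ε ≤ β) (hγ : 0 ≤ γ)
    (μ0 : ∀ v b, 0 ≤ D.μ v b)
    (F1 : ∀ w, Act Ts UH w → ∀ b ∈ Alv Mt D w, b ∉ D.H (D.sp w) → D.μ w b ≤ ε)
    (F3 : ∑ b ∈ Alv Mt D v \ D.H (D.sp v), D.μ v b ≤ 5)
    (F4 : ∀ w, Act Ts UH w → ∑ b ∈ Alv Mt D w ∩ D.H (D.sp w), D.μ w b ≤ γ)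
    (F5 : ∀ w ∈ outn G Ts UH D v, ∀ b ∈ Alv Mt D v, b ∈ Alv Mt D w → D.μ v b ≤ β ∨ D.μ w b ≤ β)
    (hv : Act Ts UH v)
    (hF : (((Alv Mt D v \ D.H (D.sp v)) ∩ D.Fb v).card : ℝ) ≤ 2 * n)
    (hn : ((outn G Ts UH D v).card : ℝ) ≤ n) :
    ∑ b ∈ (Alv Mt D v \ D.H (D.sp v)) ∩ D.Fb v, D.μ v b +
      ∑ w ∈ outn G Ts UH D v, ∑ b ∈ Alv Mt D v ∩ Alv Mt D w, D.μ v b * D.μ w b ≤
    2 * n * ε + n * (5 * ε + 2 * β * γ) := by
  have hβ : 0 ≤ β := hε.trans hεβ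
  refine add_le_add ?_ ?_
  · calc ∑ b ∈ (Alv Mt D v \ D.H (D.sp v)) ∩ D.Fb v, D.μ v b
        ≤ ∑ b ∈ (Alv Mt D v \ D.H (D.sp v)) ∩ D.Fb v, ε := by
          apply Finset.sum_le_sum
          intro b hb
          obtain ⟨h1, h2⟩ := Finset.mem_sdiff.1 (Finset.mem_inter.1 hb).1
          exact F1 v hv b h1 h2
      _ = (((Alv Mt D v \ D.H (D.sp v)) ∩ D.Fb v).card : ℝ) * ε := by
          rw [Finset.sum_const, nsmul_eq_mul]
      _ ≤ 2 * n * ε := mul_le_mul_of_nonneg_right hF hε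
  · have hin : ∀ w ∈ outn G Ts UH D v, ∑ b ∈ Alv Mt D v ∩ Alv Mt D w, D.μ v b * D.μ w b ≤
        5 * ε + 2 * β * γ := by
      intro w hw
      have hwa : Act Ts UH w := (Finset.mem_filter.1 hw).2.1
      have hpt : ∀ b ∈ Alv Mt D v ∩ Alv Mt D w, D.μ v b * D.μ w b ≤
          ε * (if b ∉ D.H (D.sp v) then D.μ v b else 0) +
          β * (if b ∈ D.H (D.sp v) then D.μ v b else 0) +
          β * (if b ∈ D.H (D.sp w) then D.μ w b else 0) := by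
        intro b hb
        obtain ⟨hb1, hb2⟩ := Finset.mem_inter.1 hb
        have hm1 := μ0 v b
        have hm2 := μ0 w b
        by_cases h1 : b ∈ D.H (D.sp v)
        · rw [if_neg (not_not.2 h1), if_pos h1]
          by_cases h2 : b ∈ D.H (D.sp w)
          · rw [if_pos h2]
            rcases F5 w hw b hb1 hb2 with h3 | h3
            · nlinarith
            · nlinarith
          · rw [if_neg h2]
            have h3 := (F1 w hwa b hb2 h2).trans hεβ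
            nlinarith
        · rw [if_pos h1, if_neg h1]
          by_cases h2 : b ∈ D.H (D.sp w)
          · rw [if_pos h2]
            have h3 := (F1 v hv b hb1 h1).trans hεβ
            nlinarith
          · rw [if_neg h2]
            have h3 := F1 w hwa b hb2 h2
            nlinarith
      refine (Finset.sum_le_sum hpt).trans ?_
      rw [Finset.sum_add_distrib, Finset.sum_add_distrib, ← Finset.mul_sum, ← Finset.mul_sum,
        ← Finset.mul_sum]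
      have s1 : ∑ b ∈ Alv Mt D v ∩ Alv Mt D w, (if b ∉ D.H (D.sp v) then D.μ v b else 0) ≤ 5 :=
        (sum_ite_le _ (Alv Mt D v \ D.H (D.sp v)) (fun b => b ∉ D.H (D.sp v)) (D.μ v) (μ0 v)
          (fun b hb h => Finset.mem_sdiff.2 ⟨(Finset.mem_inter.1 hb).1, h⟩)).trans F3
      have s2 : ∑ b ∈ Alv Mt D v ∩ Alv Mt D w, (if b ∈ D.H (D.sp v) then D.μ v b else 0) ≤ γ :=
        (sum_ite_le _ (Alv Mt D v ∩ D.H (D.sp v)) (fun b => b ∈ D.H (D.sp v)) (D.μ v) (μ0 v)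
          (fun b hb h => Finset.mem_inter.2 ⟨(Finset.mem_inter.1 hb).1, h⟩)).trans (F4 v hv)
      have s3 : ∑ b ∈ Alv Mt D v ∩ Alv Mt D w, (if b ∈ D.H (D.sp w) then D.μ w b else 0) ≤ γ :=
        (sum_ite_le _ (Alv Mt D w ∩ D.H (D.sp w)) (fun b => b ∈ D.H (D.sp w)) (D.μ w) (μ0 w)
          (fun b hb h => Finset.mem_inter.2 ⟨(Finset.mem_inter.1 hb).2, h⟩)).trans (F4 w hwa)
      have t1 := mul_le_mul_of_nonneg_left s1 hε
      have t2 := mul_le_mul_of_nonneg_left s2 hβ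
      have t3 := mul_le_mul_of_nonneg_left s3 hβ
      linarith
    calc ∑ w ∈ outn G Ts UH D v, ∑ b ∈ Alv Mt D v ∩ Alv Mt D w, D.μ v b * D.μ w b
        ≤ ∑ w ∈ outn G Ts UH D v, (5 * ε + 2 * β * γ) := Finset.sum_le_sum hin
      _ = ((outn G Ts UH D v).card : ℝ) * (5 * ε + 2 * β * γ) := by
          rw [Finset.sum_const, nsmul_eq_mul]
      _ ≤ n * (5 * ε + 2 * β * γ) := by
          apply mul_le_mul_of_nonneg_right hn
          have := mul_nonneg hβ hγ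
          nlinarith

/-- column sums, first part -/
lemma clm1_le {Y : Finset V} {b : C} {lam ε n1 n2 : ℝ} (hlam : 0 ≤ lam) (hε : 0 ≤ ε)
    (F1 : ∀ v ∈ Y, v ∉ UH → b ∈ Alv Mt D v → b ∉ D.H Y → D.μ v b ≤
      lam + if Gl Mt v then ε else 0)
    (h1 : b ∉ D.H Y → ((Y.filter (fun v => v ∉ UH ∧ b ∈ D.Fb v)).card : ℝ) ≤ n1)
    (h2 : ((Y.filter (fun v => Gl Mt v)).card : ℝ) ≤ n2) (hn1 : 0 ≤ n1) (hn2 : 0 ≤ n2) :
    ∑ v ∈ Y.filter (fun v => v ∉ UH ∧ b ∈ (Alv Mt D v \ D.H Y) ∩ D.Fb v), D.μ v b ≤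
      lam * n1 + ε * n2 := by
  by_cases hb : b ∈ D.H Y
  · rw [Finset.sum_eq_zero]
    · positivity
    · intro v hv
      obtain ⟨_, _, h3⟩ := Finset.mem_filter.1 hv
      exact absurd hb (Finset.mem_sdiff.1 (Finset.mem_inter.1 h3).1).2
  · have hsub : Y.filter (fun v => v ∉ UH ∧ b ∈ (Alv Mt D v \ D.H Y) ∩ D.Fb v) ⊆
        Y.filter (fun v => v ∉ UH ∧ b ∈ D.Fb v) := by
      intro v hv
      obtain ⟨h3, h4, h5⟩ := Finset.mem_filter.1 hv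
      exact Finset.mem_filter.2 ⟨h3, h4, (Finset.mem_inter.1 h5).2⟩
    have hsub2 : (Y.filter (fun v => v ∉ UH ∧ b ∈ (Alv Mt D v \ D.H Y) ∩ D.Fb v)).filter
        (fun v => Gl Mt v) ⊆ Y.filter (fun v => Gl Mt v) :=
      Finset.filter_subset_filter _ (Finset.filter_subset _ _)
    calc ∑ v ∈ Y.filter (fun v => v ∉ UH ∧ b ∈ (Alv Mt D v \ D.H Y) ∩ D.Fb v), D.μ v b
        ≤ ∑ v ∈ Y.filter (fun v => v ∉ UH ∧ b ∈ (Alv Mt D v \ D.H Y) ∩ D.Fb v),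
            (lam + if Gl Mt v then ε else 0) := by
          apply Finset.sum_le_sum
          intro v hv
          obtain ⟨h3, h4, h5⟩ := Finset.mem_filter.1 hv
          obtain ⟨h6, h7⟩ := Finset.mem_sdiff.1 (Finset.mem_inter.1 h5).1
          exact F1 v h3 h4 h6 h7
      _ = lam * ((Y.filter (fun v => v ∉ UH ∧ b ∈ (Alv Mt D v \ D.H Y) ∩ D.Fb v)).card : ℝ) +
          ε * (((Y.filter (fun v => v ∉ UH ∧ b ∈ (Alv Mt D v \ D.H Y) ∩ D.Fb v)).filter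
            (fun v => Gl Mt v)).card : ℝ) := by
          rw [Finset.sum_add_distrib, Finset.sum_const, nsmul_eq_mul, ← Finset.sum_filter,
            Finset.sum_const, nsmul_eq_mul]
          ring
      _ ≤ lam * n1 + ε * n2 := by
          have e1 : ((Y.filter (fun v => v ∉ UH ∧ b ∈ (Alv Mt D v \ D.H Y) ∩ D.Fb v)).card : ℝ) ≤
              n1 := le_trans (by exact_mod_cast Finset.card_le_card hsub) (h1 hb)
          have e2 : (((Y.filter (fun v => v ∉ UH ∧ b ∈ (Alv Mt D v \ D.H Y) ∩ D.Fb v)).filter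
            (fun v => Gl Mt v)).card : ℝ) ≤ n2 :=
            le_trans (by exact_mod_cast Finset.card_le_card hsub2) h2
          exact add_le_add (mul_le_mul_of_nonneg_left e1 hlam) (mul_le_mul_of_nonneg_left e2 hε)

/-- column sums, second part, no special list -/
lemma clm2_le {Y Gd : Finset V} {b : C} {β γ0 w1 w2 : ℝ} (hβ : 0 ≤ β) (hγ0 : 0 ≤ γ0)
    (μ0 : ∀ v b, 0 ≤ D.μ v b)
    (F : ∀ v ∈ Y, v ∉ UH → b ∈ Alv Mt D v → D.μ v b ≤ β)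
    (F2 : ∀ w, Act Ts UH w → b ∈ Alv Mt D w → D.μ w b ≤ β + if w ∈ Gd then γ0 else 0)
    (h1 : ∑ v ∈ Y.filter (fun v => v ∉ UH), ((outn G Ts UH D v).card : ℝ) ≤ w1)
    (h2 : ∑ v ∈ Y.filter (fun v => v ∉ UH), ((outn G Ts UH D v ∩ Gd).card : ℝ) ≤ w2) :
    ∑ v ∈ Y.filter (fun v => v ∉ UH ∧ b ∈ Alv Mt D v),
      ∑ w ∈ (outn G Ts UH D v).filter (fun w => b ∈ Alv Mt D w), D.μ v b * D.μ w b ≤
    β * (β * w1 + γ0 * w2) := by
  have hin : ∀ v ∈ Y.filter (fun v => v ∉ UH ∧ b ∈ Alv Mt D v),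
      ∑ w ∈ (outn G Ts UH D v).filter (fun w => b ∈ Alv Mt D w), D.μ v b * D.μ w b ≤
      β * (β * ((outn G Ts UH D v).card : ℝ) + γ0 * ((outn G Ts UH D v ∩ Gd).card : ℝ)) := by
    intro v hv
    obtain ⟨hv1, hv2, hv3⟩ := Finset.mem_filter.1 hv
    calc ∑ w ∈ (outn G Ts UH D v).filter (fun w => b ∈ Alv Mt D w), D.μ v b * D.μ w b
        ≤ ∑ w ∈ (outn G Ts UH D v).filter (fun w => b ∈ Alv Mt D w),
            β * (β + if w ∈ Gd then γ0 else 0) := by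
          apply Finset.sum_le_sum
          intro w hw
          obtain ⟨hw1, hw2⟩ := Finset.mem_filter.1 hw
          exact mul_le_mul (F v hv1 hv2 hv3) (F2 w (Finset.mem_filter.1 hw1).2.1 hw2)
            (μ0 _ _) hβ
      _ ≤ ∑ w ∈ outn G Ts UH D v, β * (β + if w ∈ Gd then γ0 else 0) := by
          apply Finset.sum_le_sum_of_subset_of_nonneg (Finset.filter_subset _ _)
          intro w _ _
          apply mul_nonneg hβ
          split_ifs <;> linarith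
      _ = β * (β * ((outn G Ts UH D v).card : ℝ) + γ0 * ((outn G Ts UH D v ∩ Gd).card : ℝ)) := by
          rw [← Finset.mul_sum, Finset.sum_add_distrib, Finset.sum_const, nsmul_eq_mul,
            ← Finset.sum_filter, Finset.sum_const, nsmul_eq_mul, Finset.filter_mem_eq_inter]
          ring
  calc _ ≤ ∑ v ∈ Y.filter (fun v => v ∉ UH ∧ b ∈ Alv Mt D v),
        β * (β * ((outn G Ts UH D v).card : ℝ) + γ0 * ((outn G Ts UH D v ∩ Gd).card : ℝ)) :=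
        Finset.sum_le_sum hin
    _ ≤ ∑ v ∈ Y.filter (fun v => v ∉ UH),
        β * (β * ((outn G Ts UH D v).card : ℝ) + γ0 * ((outn G Ts UH D v ∩ Gd).card : ℝ)) := by
        apply Finset.sum_le_sum_of_subset_of_nonneg
        · intro v hv
          obtain ⟨hv1, hv2, _⟩ := Finset.mem_filter.1 hv
          exact Finset.mem_filter.2 ⟨hv1, hv2⟩
        · intro v _ _
          positivity
    _ = β * (β * (∑ v ∈ Y.filter (fun v => v ∉ UH), ((outn G Ts UH D v).card : ℝ)) +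
          γ0 * (∑ v ∈ Y.filter (fun v => v ∉ UH), ((outn G Ts UH D v ∩ Gd).card : ℝ))) := by
        rw [← Finset.mul_sum, Finset.sum_add_distrib, ← Finset.mul_sum, ← Finset.mul_sum]
    _ ≤ β * (β * w1 + γ0 * w2) := by
        apply mul_le_mul_of_nonneg_left _ hβ
        exact add_le_add (mul_le_mul_of_nonneg_left h1 hβ) (mul_le_mul_of_nonneg_left h2 hγ0)

/-- column sums, second part, list of guards -/
lemma clm3_le {Y Gd : Finset V} {b : C} {β γ0 y1 B : ℝ} (hβ : 0 ≤ β) (hγ0 : 0 ≤ γ0) (hB : 0 ≤ B)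
    (μ0 : ∀ v b, 0 ≤ D.μ v b)
    (F : ∀ v ∈ Y, v ∉ UH → b ∈ Alv Mt D v → v ∈ Gd ∧ D.μ v b ≤ γ0)
    (F2 : ∀ v ∈ Y, v ∉ UH → b ∈ Alv Mt D v → ∀ w ∈ outn G Ts UH D v, b ∈ Alv Mt D w →
      D.μ w b ≤ β)
    (h1 : ((Y ∩ Gd).card : ℝ) ≤ y1)
    (h2 : ∀ v ∈ Y, v ∈ Gd → ((outn G Ts UH D v).card : ℝ) ≤ B) :
    ∑ v ∈ Y.filter (fun v => v ∉ UH ∧ b ∈ Alv Mt D v),
      ∑ w ∈ (outn G Ts UH D v).filter (fun w => b ∈ Alv Mt D w), D.μ v b * D.μ w b ≤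
    y1 * (B * (γ0 * β)) := by
  have hin : ∀ v ∈ Y.filter (fun v => v ∉ UH ∧ b ∈ Alv Mt D v),
      ∑ w ∈ (outn G Ts UH D v).filter (fun w => b ∈ Alv Mt D w), D.μ v b * D.μ w b ≤
      B * (γ0 * β) := by
    intro v hv
    obtain ⟨hv1, hv2, hv3⟩ := Finset.mem_filter.1 hv
    obtain ⟨hg, hm⟩ := F v hv1 hv2 hv3
    calc ∑ w ∈ (outn G Ts UH D v).filter (fun w => b ∈ Alv Mt D w), D.μ v b * D.μ w b
        ≤ ∑ w ∈ (outn G Ts UH D v).filter (fun w => b ∈ Alv Mt D w), γ0 * β := by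
          apply Finset.sum_le_sum
          intro w hw
          obtain ⟨hw1, hw2⟩ := Finset.mem_filter.1 hw
          exact mul_le_mul hm (F2 v hv1 hv2 hv3 w hw1 hw2) (μ0 _ _) hγ0
      _ = (((outn G Ts UH D v).filter (fun w => b ∈ Alv Mt D w)).card : ℝ) * (γ0 * β) := by
          rw [Finset.sum_const, nsmul_eq_mul]
      _ ≤ B * (γ0 * β) := by
          apply mul_le_mul_of_nonneg_right _ (mul_nonneg hγ0 hβ)
          exact le_trans (by exact_mod_cast Finset.card_le_card (Finset.filter_subset _ _))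
            (h2 v hv1 hg)
  calc _ ≤ ∑ v ∈ Y.filter (fun v => v ∉ UH ∧ b ∈ Alv Mt D v), B * (γ0 * β) :=
        Finset.sum_le_sum hin
    _ = ((Y.filter (fun v => v ∉ UH ∧ b ∈ Alv Mt D v)).card : ℝ) * (B * (γ0 * β)) := by
        rw [Finset.sum_const, nsmul_eq_mul]
    _ ≤ y1 * (B * (γ0 * β)) := by
        apply mul_le_mul_of_nonneg_right _ (mul_nonneg hB (mul_nonneg hγ0 hβ))
        refine le_trans ?_ h1
        have : (Y.filter (fun v => v ∉ UH ∧ b ∈ Alv Mt D v)).card ≤ (Y ∩ Gd).card := by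
          apply Finset.card_le_card
          intro v hv
          obtain ⟨hv1, hv2, hv3⟩ := Finset.mem_filter.1 hv
          exact Finset.mem_inter.2 ⟨hv1, (F v hv1 hv2 hv3).1⟩
        exact_mod_cast this

/-- facts which imply the hypotheses of LSB for vertices -/
structure VFacts (G Mt : SimpleGraph V) (Ts Sm : Finset (Finset V)) (UH Gd : Finset V)
    (D : VD V C) (n ε β γ γ0 lam n1 n2 w1 w2 y1 B : ℝ) : Prop where
  spY : ∀ Y ∈ Ts, ∀ v ∈ Y, D.sp v = Y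
  mat : IsMat Mt
  mta : ∀ v w, Mt.Adj v w → Act Ts UH v ∧ D.sp v = D.sp w
  mtn : ∀ Y ∈ Ts, (Y.filter (fun v => Gl Mt v)).card = 2 * D.pn Y
  Kd : ∀ Y ∈ Ts, ∀ i j, i ≠ j → Disjoint (D.Kc Y i) (D.Kc Y j)
  Kn : ∀ Y ∈ Ts, ∀ i, (D.Kc Y i).card =
    (Y.filter (fun v => v ∉ UH ∧ ¬ Gl Mt v ∧ D.p v = i)).card + if i = D.i0 Y then D.pn Y else 0
  WK : ∀ Y ∈ Ts, ∀ b ∈ D.Wc Y, b ∈ D.Kc Y (D.i0 Y) ∧ b ∉ D.H Y
  μ0 : ∀ v b, 0 ≤ D.μ v b
  μg : ∀ v w b, Mt.Adj v w → D.μ v b = D.μ w b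
  μl : ∀ Y ∈ Ts, ∀ v ∈ Y, v ∉ UH → ¬ Gl Mt v → ∀ b ∈ D.Kc Y (D.p v), b ∉ D.H Y →
    1 ≤ D.μ v b * (((D.Kc Y (D.p v)).card : ℝ) - (D.H Y).card - D.pn Y)
  μh : ∀ Y ∈ Ts, ∀ v ∈ Y, v ∉ UH → ¬ Gl Mt v → ∀ b ∈ D.Kc Y (D.p v), b ∈ D.H Y → D.av v b →
    ∀ T : Finset V, (∀ w ∈ Y, w ∉ UH → ¬ Gl Mt w → D.p w = D.p v → D.av w b → w ∈ T) →
    1 ≤ D.μ v b * ((T.card : ℝ) - (D.H Y).card)
  Lc : ∀ Y ∈ Ts, ∀ i, ∀ b ∈ D.Kc Y i, b ∈ D.H Y →
    ∀ T : Finset V, (∀ w ∈ Y, w ∉ UH → ¬ Gl Mt w → D.p w = i → D.av w b → w ∈ T) →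
    (D.H Y).card < T.card
  μx : ∀ Y ∈ Ts, ∀ v ∈ Y, Gl Mt v → ∀ b ∈ D.Wc Y, 1 ≤ D.μ v b * (((D.Wc Y).card : ℝ) - D.pn Y)
  Wn : ∀ Y ∈ Ts, D.pn Y < (D.Wc Y).card
  ε0 : 0 ≤ ε
  εβ : ε ≤ β
  γ1 : 0 ≤ γ
  γ2 : 0 ≤ γ0
  l0 : 0 ≤ lam
  B0 : 0 ≤ B
  n10 : 0 ≤ n1
  n20 : 0 ≤ n2
  F1 : ∀ w, Act Ts UH w → ∀ b ∈ Alv Mt D w, b ∉ D.H (D.sp w) → D.μ w b ≤ ε
  F1' : ∀ w, Act Ts UH w → ¬ Gl Mt w → ∀ b ∈ Alv Mt D w, b ∉ D.H (D.sp w) → D.μ w b ≤ lam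
  F2 : ∀ w, Act Ts UH w → ∀ b ∈ Alv Mt D w, D.μ w b ≤ β ∨
    (D.sp w ∈ Sm ∧ w ∈ Gd ∧ b ∈ D.H (D.sp w) ∧ D.μ w b ≤ γ0)
  F6 : ∀ v, Act Ts UH v → ∀ b ∈ Alv Mt D v, b ∈ D.H (D.sp v) → D.sp v ∈ Sm →
    v ∈ Gd ∧ D.μ v b ≤ γ0
  F3 : ∀ v, Act Ts UH v → ∀ T : Finset C, (∀ b ∈ T, b ∈ Alv Mt D v ∧ b ∉ D.H (D.sp v)) →
    ∑ b ∈ T, D.μ v b ≤ 5
  F4 : ∀ v, Act Ts UH v → ∀ T : Finset C, (∀ b ∈ T, b ∈ Alv Mt D v ∧ b ∈ D.H (D.sp v)) →
    ∑ b ∈ T, D.μ v b ≤ γ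
  F5 : ∀ v, Act Ts UH v → ∀ w ∈ outn G Ts UH D v, v ∈ Gd → w ∈ Gd → D.sp v ∈ Sm →
    D.sp w ∈ Sm → False
  hF : ∀ v, Act Ts UH v → ∀ T : Finset C, (∀ b ∈ T, b ∈ Alv Mt D v ∧ b ∈ D.Fb v) →
    (T.card : ℝ) ≤ 2 * n
  hn : ∀ v, Act Ts UH v → ((outn G Ts UH D v).card : ℝ) ≤ n
  h1 : ∀ Y ∈ Ts, ∀ i, ∀ b ∈ D.Kc Y i, b ∉ D.H Y →
    ∀ T : Finset V, (∀ v ∈ T, v ∈ Y ∧ v ∉ UH ∧ b ∈ D.Fb v) → (T.card : ℝ) ≤ n1
  h2 : ∀ Y ∈ Ts, (2 * D.pn Y : ℝ) ≤ n2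
  h3 : ∀ Y ∈ Ts, ∑ v ∈ Y.filter (fun v => v ∉ UH), ((outn G Ts UH D v).card : ℝ) ≤ w1
  h4 : ∀ Y ∈ Ts, ∑ v ∈ Y.filter (fun v => v ∉ UH), ((outn G Ts UH D v ∩ Gd).card : ℝ) ≤ w2
  h5 : ∀ Y ∈ Ts, Y ∈ Sm → ((Y ∩ Gd).card : ℝ) ≤ y1
  h6 : ∀ Y ∈ Ts, ∀ v ∈ Y, v ∈ Gd → ((outn G Ts UH D v).card : ℝ) ≤ B
  z1 : 2 * n * ε + n * (5 * ε + 2 * β * γ) ≤ 1 / 128
  z2 : lam * n1 + ε * n2 + β * (β * w1 + γ0 * w2) ≤ 1 / 64
  z3 : lam * n1 + ε * n2 + y1 * (B * (γ0 * β)) ≤ 1 / 64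

theorem VFacts.vlh {Sm : Finset (Finset V)} {Gd : Finset V}
    {n ε β γ γ0 lam n1 n2 w1 w2 y1 B : ℝ}
    (h : VFacts G Mt Ts Sm UH Gd D n ε β γ γ0 lam n1 n2 w1 w2 y1 B) : VLH G Mt Ts UH D := by
  have hact : ∀ Y ∈ Ts, ∀ v ∈ Y, v ∉ UH → Act Ts UH v := fun Y hY v hv hu => ⟨⟨Y, hY, hv⟩, hu⟩
  have hβ : 0 ≤ β := h.ε0.trans h.εβ
  have hF5 : ∀ v, Act Ts UH v → ∀ w ∈ outn G Ts UH D v, ∀ b ∈ Alv Mt D v, b ∈ Alv Mt D w →
      D.μ v b ≤ β ∨ D.μ w b ≤ β := by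
    intro v hv w hw b hb hb'
    rcases h.F2 v hv b hb with h1 | ⟨h1, h1', _, _⟩
    · exact Or.inl h1
    rcases h.F2 w (Finset.mem_filter.1 hw).2.1 b hb' with h2 | ⟨h2, h2', _, _⟩
    · exact Or.inr h2
    exact (h.F5 v hv w hw h1' h2' h1 h2).elim
  refine
    { spY := h.spY
      mat := h.mat
      mta := h.mta
      mtn := h.mtn
      Kd := h.Kd
      Kn := h.Kn
      WK := fun Y hY b hb => Finset.mem_sdiff.2 (h.WK Y hY b hb)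
      μ0 := h.μ0
      μg := h.μg
      μl := h.μl
      μh := ?_
      Lc := ?_
      μx := h.μx
      Wn := h.Wn
      row := ?_
      clm := ?_ }
  · intro Y hY v hv hu hg b hb hbH hav
    exact h.μh Y hY v hv hu hg b hb hbH hav _
      (fun w hw hwu hwg hwp hwa => Finset.mem_filter.2 ⟨hw, hwu, hwg, hwp, hwa⟩)
  · intro Y hY i b hb hbH
    exact h.Lc Y hY i b hb hbH _
      (fun w hw hwu hwg hwp hwa => Finset.mem_filter.2 ⟨hw, hwu, hwg, hwp, hwa⟩)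
  · intro v hv
    refine (row_le (n := n) h.ε0 h.εβ h.γ1 h.μ0 h.F1 (h.F3 v hv _ (fun b hb =>
      ⟨(Finset.mem_sdiff.1 hb).1, (Finset.mem_sdiff.1 hb).2⟩)) (fun w hw => h.F4 w hw _
      (fun b hb => ⟨(Finset.mem_inter.1 hb).1, (Finset.mem_inter.1 hb).2⟩)) (hF5 v hv) hv
      (h.hF v hv _ (fun b hb => ⟨(Finset.mem_sdiff.1 (Finset.mem_inter.1 hb).1).1,
        (Finset.mem_inter.1 hb).2⟩)) (h.hn v hv)).trans h.z1
  · intro Y hY i b hb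
    have p1 : ∑ v ∈ Y.filter (fun v => v ∉ UH ∧ b ∈ (Alv Mt D v \ D.H Y) ∩ D.Fb v), D.μ v b ≤
        lam * n1 + ε * n2 := by
      refine clm1_le h.l0 h.ε0 ?_ ?_ ?_ h.n10 h.n20
      · intro v hv hu hbA hbH
        have hsp := h.spY Y hY v hv
        by_cases hg : Gl Mt v
        · rw [if_pos hg]
          have := h.F1 v (hact Y hY v hv hu) b hbA (by rw [hsp]; exact hbH)
          linarith [h.l0]
        · rw [if_neg hg, add_zero]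
          exact h.F1' v (hact Y hY v hv hu) hg b hbA (by rw [hsp]; exact hbH)
      · intro hbH
        refine h.h1 Y hY i b hb hbH _ ?_
        intro v hv
        obtain ⟨h7, h8, h9⟩ := Finset.mem_filter.1 hv
        exact ⟨h7, h8, h9⟩
      · rw [h.mtn Y hY]
        push_cast
        exact h.h2 Y hY
    by_cases hs : Y ∈ Sm ∧ b ∈ D.H Y
    · refine (add_le_add p1 (clm3_le (G := G) (Gd := Gd) (β := β) (γ0 := γ0) (y1 := y1) (B := B)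
        hβ h.γ2 h.B0 h.μ0 ?_ ?_ (h.h5 Y hY hs.1) ?_)).trans h.z3
      · intro v hv hu hbA
        have hsp := h.spY Y hY v hv
        exact h.F6 v (hact Y hY v hv hu) b hbA (by rw [hsp]; exact hs.2) (by rw [hsp]; exact hs.1)
      · intro v hv hu hbA w hw hbA'
        have hsp := h.spY Y hY v hv
        have h7 := h.F6 v (hact Y hY v hv hu) b hbA (by rw [hsp]; exact hs.2)
          (by rw [hsp]; exact hs.1)
        rcases h.F2 w (Finset.mem_filter.1 hw).2.1 b hbA' with h8 | ⟨h8, h9, _, _⟩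
        · exact h8
        · exact (h.F5 v (hact Y hY v hv hu) w hw h7.1 h9 (by rw [hsp]; exact hs.1) h8).elim
      · intro v hv hvG
        exact h.h6 Y hY v hv hvG
    · refine (add_le_add p1 (clm2_le (G := G) (Gd := Gd) (β := β) (γ0 := γ0) (w1 := w1)
        (w2 := w2) hβ h.γ2 h.μ0 ?_ ?_ (h.h3 Y hY) (h.h4 Y hY))).trans h.z2
      · intro v hv hu hbA
        have hsp := h.spY Y hY v hv
        rcases h.F2 v (hact Y hY v hv hu) b hbA with h7 | ⟨h7, _, h8, _⟩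
        · exact h7
        · rw [hsp] at h7 h8
          exact absurd ⟨h7, h8⟩ hs
      · intro w hw hbA
        rcases h.F2 w hw b hbA with h7 | ⟨_, h7, _, h8⟩
        · split_ifs
          · linarith [h.γ2]
          · linarith
        · rw [if_pos h7]
          linarith

end num

end Pool.Agent.Work.MP_db9399_sw_helper39
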