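import Pool.Agent.Work.MP_db9399_sw.Short

/-!
# MP_db9399, PHASE 2 (short spots), block VSHORT, part 1: from vertices to positions

LSB formulated for vertices: the two vertices of an edge of the matching `Mt` are glued.
-/

set_option autoImplicit false

namespace Pool.Agent.Work.MP_db9399_sw_helper39

open Finset Classical
open Pool.Agent.Work.MP_db9399_all (nb)
open Pool.Agent.Work.MP_db9399_dn (IsMat Tot)
open Pool.Agent.Work.MP_db9399_bg (HPre)
open Pool.Agent.Work.MP_db9399_sl (InS Same Gout Gss Gin Gex Out Vert odd)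
open Pool.Agent.Work.MP_db9399_sw

universe u

/-! ## Sums -/

lemma sum_inj_le {ι κ : Type*} (s : Finset ι) (t : Finset κ) (f : ι → ℝ) (g : κ → ℝ)
    (hg : ∀ x ∈ t, 0 ≤ g x) (r : ι → κ) (hr : ∀ i ∈ s, r i ∈ t)
    (inj : ∀ i ∈ s, ∀ j ∈ s, r i = r j → i = j) (hfg : ∀ i ∈ s, f i ≤ g (r i)) :
    ∑ i ∈ s, f i ≤ ∑ x ∈ t, g x := by
  calc ∑ i ∈ s, f i ≤ ∑ i ∈ s, g (r i) := Finset.sum_le_sum hfg
    _ = ∑ x ∈ s.image r, g x := by
        rw [Finset.sum_image]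
        intro i hi j hj h
        exact inj i hi j hj h
    _ ≤ ∑ x ∈ t, g x := by
        apply Finset.sum_le_sum_of_subset_of_nonneg
        · intro x hx
          obtain ⟨i, hi, rfl⟩ := Finset.mem_image.1 hx
          exact hr i hi
        · intro x hx _
          exact hg x hx

lemma sum_rel_le {ι κ : Type*} (s : Finset ι) (t : Finset κ) (f : ι → ℝ) (g : κ → ℝ)
    (hg : ∀ x ∈ t, 0 ≤ g x) (Q : ι → κ → Prop) (hQ : ∀ i ∈ s, ∀ j ∈ s, ∀ x, Q i x → Q j x → i = j)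
    (H : ∀ i ∈ s, ∃ x ∈ t, Q i x ∧ f i ≤ g x) : ∑ i ∈ s, f i ≤ ∑ x ∈ t, g x := by
  rcases s.eq_empty_or_nonempty with rfl | ⟨i0, hi0⟩
  · simpa using Finset.sum_nonneg hg
  · obtain ⟨x0, _⟩ := H i0 hi0
    have : Nonempty κ := ⟨x0⟩
    choose! r hr using H
    exact sum_inj_le s t f g hg r (fun i hi => (hr i hi).1)
      (fun i hi j hj hij => hQ i hi j hj (r i) (hr i hi).2.1 (by rw [hij]; exact (hr j hj).2.1))
      (fun i hi => (hr i hi).2.2)

section defs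
variable {V : Type u} [Fintype V] {C : Type}

lemma mem_nb {G : SimpleGraph V} {v w : V} : w ∈ nb G v ↔ G.Adj v w := by
  simp [nb]

/-- active vertices: in a short spot, not precoloured -/
def Act (Ts : Finset (Finset V)) (UH : Finset V) (v : V) : Prop := InS Ts v ∧ v ∉ UH

/-- glued vertices -/
def Gl (Mt : SimpleGraph V) (v : V) : Prop := (nb Mt v).Nonempty

/-- representative of the position of `v` -/
noncomputable def rp (Mt : SimpleGraph V) (v : V) : V :=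
  if h : ∃ w, Mt.Adj v w ∧ Fintype.equivFin V w < Fintype.equivFin V v then h.choose else v

lemma mat_uniq {Mt : SimpleGraph V} (hM : IsMat Mt) {v w w' : V} (h : Mt.Adj v w)
    (h' : Mt.Adj v w') : w = w' :=
  Finset.card_le_one.1 (hM v) w (mem_nb.2 h) w' (mem_nb.2 h')

lemma rp_eq_or (Mt : SimpleGraph V) (v : V) : rp Mt v = v ∨ Mt.Adj v (rp Mt v) := by
  unfold rp
  split_ifs with h
  · exact Or.inr h.choose_spec.1
  · exact Or.inl rfl

lemma rp_adj_lt {Mt : SimpleGraph V} (hM : IsMat Mt) {v w : V} (h : Mt.Adj v w)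
    (hlt : Fintype.equivFin V w < Fintype.equivFin V v) : rp Mt v = w ∧ rp Mt w = w := by
  constructor
  · have h0 : ∃ w, Mt.Adj v w ∧ Fintype.equivFin V w < Fintype.equivFin V v := ⟨w, h, hlt⟩
    unfold rp
    rw [dif_pos h0]
    exact mat_uniq hM h0.choose_spec.1 h
  · have h0 : ¬ ∃ u, Mt.Adj w u ∧ Fintype.equivFin V u < Fintype.equivFin V w := by
      rintro ⟨u, hu, hlt'⟩
      have : u = v := mat_uniq hM hu h.symm
      subst this
      exact absurd (hlt.trans hlt') (lt_irrefl _)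
    unfold rp
    rw [dif_neg h0]

lemma rp_adj {Mt : SimpleGraph V} (hM : IsMat Mt) {v w : V} (h : Mt.Adj v w) :
    rp Mt v = rp Mt w := by
  rcases lt_trichotomy (Fintype.equivFin V w) (Fintype.equivFin V v) with hlt | heq | hlt
  · obtain ⟨h1, h2⟩ := rp_adj_lt hM h hlt
    rw [h1, h2]
  · exact absurd ((Fintype.equivFin V).injective heq) h.ne'
  · obtain ⟨h1, h2⟩ := rp_adj_lt hM h.symm hlt
    rw [h1, h2]

lemma rp_rp {Mt : SimpleGraph V} (hM : IsMat Mt) (v : V) : rp Mt (rp Mt v) = rp Mt v := by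
  rcases rp_eq_or Mt v with h | h
  · rw [h, h]
  · exact (rp_adj hM h).symm

lemma rp_inj {Mt : SimpleGraph V} (hM : IsMat Mt) {v w : V} (h : rp Mt v = rp Mt w) :
    v = w ∨ Mt.Adj v w := by
  rcases rp_eq_or Mt v with h1 | h1 <;> rcases rp_eq_or Mt w with h2 | h2
  · left; rw [← h1, h, h2]
  · right
    rw [← h, h1] at h2
    exact h2.symm
  · right
    rw [h, h2] at h1
    exact h1
  · left
    rw [h] at h1
    exact mat_uniq hM h1.symm h2.symm

lemma rp_of_not_gl {Mt : SimpleGraph V} {v : V} (h : ¬ Gl Mt v) : rp Mt v = v := by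
  rcases rp_eq_or Mt v with h1 | h1
  · exact h1
  · exact absurd ⟨_, mem_nb.2 h1⟩ h

lemma gl_of_adj {Mt : SimpleGraph V} {v w : V} (h : Mt.Adj v w) : Gl Mt v := ⟨w, mem_nb.2 h⟩

lemma gl_rp {Mt : SimpleGraph V} (v : V) : Gl Mt (rp Mt v) ↔ Gl Mt v := by
  rcases rp_eq_or Mt v with h1 | h1
  · rw [h1]
  · exact ⟨fun _ => gl_of_adj h1, fun _ => gl_of_adj h1.symm⟩

/-- data at the vertices: `sp v` = spot, `p v` = third, `Kc Y i` = colours for the third `i` of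
`Y`, `i0 Y` = third of the glued vertices, `Wc Y` = their colours, `H Y` = heavy colours, `av v b` =
`v` may get the heavy colour `b`, `Fb v` = forbidden light colours, `pn Y` = number of pairs -/
structure VD (V : Type u) (C : Type) where
  /-- spot -/
  sp : V → Finset V
  /-- third -/
  p : V → Fin 3
  /-- colours -/
  Kc : Finset V → Fin 3 → Finset (C)
  /-- third of the pairs -/
  i0 : Finset V → Fin 3
  /-- colours of the pairs -/
  Wc : Finset V → Finset (C)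
  /-- heavy colours -/
  H : Finset V → Finset (C)
  /-- available -/
  av : V → C → Prop
  /-- forbidden -/
  Fb : V → Finset (C)
  /-- number of pairs -/
  pn : Finset V → ℕ
  /-- bound for the probabilities -/
  μ : V → C → ℝ

/-- colours which the vertex `v` may get -/
noncomputable def Alv (Mt : SimpleGraph V) (D : VD V C) (v : V) : Finset (C) :=
  if Gl Mt v then D.Wc (D.sp v)
  else (D.Kc (D.sp v) (D.p v)).filter (fun b => b ∈ D.H (D.sp v) → D.av v b)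

lemma mem_Alv {Mt : SimpleGraph V} {D : VD V C} {v : V} {b : C} : b ∈ Alv Mt D v ↔
    (Gl Mt v ∧ b ∈ D.Wc (D.sp v)) ∨
      (¬ Gl Mt v ∧ b ∈ D.Kc (D.sp v) (D.p v) ∧ (b ∈ D.H (D.sp v) → D.av v b)) := by
  unfold Alv
  split_ifs with hg
  · constructor
    · intro h
      exact Or.inl ⟨hg, h⟩
    · rintro (⟨_, h⟩ | ⟨h, _⟩)
      · exact h
      · exact absurd hg h
  · rw [Finset.mem_filter]
    constructor
    · intro h
      exact Or.inr ⟨hg, h⟩
    · rintro (⟨h, _⟩ | ⟨_, h⟩)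
      · exact absurd h hg
      · exact h

/-- neighbours in other short spots -/
noncomputable def outn (G : SimpleGraph V) (Ts : Finset (Finset V)) (UH : Finset V)
    (D : VD V C) (v : V) : Finset V :=
  (nb G v).filter (fun w => Act Ts UH w ∧ D.sp w ≠ D.sp v)

/-- third of the position -/
noncomputable def pt (Mt : SimpleGraph V) (D : VD V C) (v : V) : Fin 3 :=
  if Gl Mt v then D.i0 (D.sp v) else D.p v

/-- Hypotheses of LSB for vertices. -/
structure VLH (G Mt : SimpleGraph V) (Ts : Finset (Finset V)) (UH : Finset V) (D : VD V C) :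
    Prop where
  spY : ∀ Y ∈ Ts, ∀ v ∈ Y, D.sp v = Y
  mat : IsMat Mt
  mta : ∀ v w, Mt.Adj v w → Act Ts UH v ∧ D.sp v = D.sp w
  mtn : ∀ Y ∈ Ts, (Y.filter (fun v => Gl Mt v)).card = 2 * D.pn Y
  Kd : ∀ Y ∈ Ts, ∀ i j, i ≠ j → Disjoint (D.Kc Y i) (D.Kc Y j)
  Kn : ∀ Y ∈ Ts, ∀ i, (D.Kc Y i).card =
    (Y.filter (fun v => v ∉ UH ∧ ¬ Gl Mt v ∧ D.p v = i)).card + if i = D.i0 Y then D.pn Y else 0
  WK : ∀ Y ∈ Ts, D.Wc Y ⊆ D.Kc Y (D.i0 Y) \ D.H Y
  μ0 : ∀ v b, 0 ≤ D.μ v b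
  μg : ∀ v w b, Mt.Adj v w → D.μ v b = D.μ w b
  μl : ∀ Y ∈ Ts, ∀ v ∈ Y, v ∉ UH → ¬ Gl Mt v → ∀ b ∈ D.Kc Y (D.p v), b ∉ D.H Y →
    1 ≤ D.μ v b * (((D.Kc Y (D.p v)).card : ℝ) - (D.H Y).card - D.pn Y)
  μh : ∀ Y ∈ Ts, ∀ v ∈ Y, v ∉ UH → ¬ Gl Mt v → ∀ b ∈ D.Kc Y (D.p v), b ∈ D.H Y → D.av v b →
    1 ≤ D.μ v b * (((Y.filter (fun w => w ∉ UH ∧ ¬ Gl Mt w ∧ D.p w = D.p v ∧ D.av w b)).card : ℝ) -
      (D.H Y).card)
  Lc : ∀ Y ∈ Ts, ∀ i, ∀ b ∈ D.Kc Y i, b ∈ D.H Y → (D.H Y).card <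
    (Y.filter (fun w => w ∉ UH ∧ ¬ Gl Mt w ∧ D.p w = i ∧ D.av w b)).card
  μx : ∀ Y ∈ Ts, ∀ v ∈ Y, Gl Mt v → ∀ b ∈ D.Wc Y, 1 ≤ D.μ v b * (((D.Wc Y).card : ℝ) - D.pn Y)
  Wn : ∀ Y ∈ Ts, D.pn Y < (D.Wc Y).card
  row : ∀ v, Act Ts UH v → ∑ b ∈ (Alv Mt D v \ D.H (D.sp v)) ∩ D.Fb v, D.μ v b +
    ∑ w ∈ outn G Ts UH D v, ∑ b ∈ Alv Mt D v ∩ Alv Mt D w, D.μ v b * D.μ w b ≤ 1 / 128
  clm : ∀ Y ∈ Ts, ∀ i, ∀ b ∈ D.Kc Y i,
    ∑ v ∈ Y.filter (fun v => v ∉ UH ∧ b ∈ (Alv Mt D v \ D.H Y) ∩ D.Fb v), D.μ v b +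
    ∑ v ∈ Y.filter (fun v => v ∉ UH ∧ b ∈ Alv Mt D v),
      ∑ w ∈ (outn G Ts UH D v).filter (fun w => b ∈ Alv Mt D w), D.μ v b * D.μ w b ≤ 1 / 64

end defs

/-- index of a part: spot and third -/
structure Idx (V : Type u) where
  /-- spot -/
  fst : Finset V
  /-- third -/
  snd : Fin 3

noncomputable instance {V : Type u} [Fintype V] : Fintype (Idx V) :=
  Fintype.ofInjective (fun i : Idx V => (i.fst, i.snd)) (by
    rintro ⟨a, b⟩ ⟨a', b'⟩ h
    obtain ⟨h1, h2⟩ := Prod.mk.inj h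
    simp only at h1 h2
    rw [h1, h2])

section pos
variable {V : Type u} [Fintype V] {C : Type} {G Mt : SimpleGraph V} {Ts : Finset (Finset V)}
  {UH : Finset V} {D : VD V C}

lemma VLH.act_iff (h : VLH G Mt Ts UH D) {v : V} :
    Act Ts UH v ↔ D.sp v ∈ Ts ∧ v ∈ D.sp v ∧ v ∉ UH := by
  constructor
  · rintro ⟨⟨Y, hY, hv⟩, hu⟩
    have := h.spY Y hY v hv
    rw [this]
    exact ⟨hY, hv, hu⟩
  · rintro ⟨h1, h2, h3⟩
    exact ⟨⟨_, h1, h2⟩, h3⟩

lemma VLH.sp_rp (h : VLH G Mt Ts UH D) (v : V) : D.sp (rp Mt v) = D.sp v := by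
  rcases rp_eq_or Mt v with h1 | h1
  · rw [h1]
  · exact (h.mta _ _ h1).2.symm

lemma VLH.act_rp (h : VLH G Mt Ts UH D) {v : V} (hv : Act Ts UH v) : Act Ts UH (rp Mt v) := by
  rcases rp_eq_or Mt v with h1 | h1
  · rw [h1]; exact hv
  · exact (h.mta _ _ h1.symm).1

lemma VLH.gl_act (h : VLH G Mt Ts UH D) {v : V} (hv : Gl Mt v) : Act Ts UH v := by
  obtain ⟨w, hw⟩ := hv
  exact (h.mta _ _ (mem_nb.1 hw)).1

lemma VLH.Alv_rp (h : VLH G Mt Ts UH D) (v : V) : Alv Mt D (rp Mt v) = Alv Mt D v := by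
  rcases rp_eq_or Mt v with h1 | h1
  · rw [h1]
  · have hg : Gl Mt v := gl_of_adj h1
    have hg' : Gl Mt (rp Mt v) := (gl_rp v).2 hg
    unfold Alv
    rw [if_pos hg, if_pos hg', h.sp_rp]

lemma VLH.μ_rp (h : VLH G Mt Ts UH D) (v : V) (b : C) : D.μ (rp Mt v) b = D.μ v b := by
  rcases rp_eq_or Mt v with h1 | h1
  · rw [h1]
  · exact (h.μg _ _ b h1).symm

lemma VLH.pt_rp (h : VLH G Mt Ts UH D) (v : V) : pt Mt D (rp Mt v) = pt Mt D v := by
  rcases rp_eq_or Mt v with h1 | h1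
  · rw [h1]
  · have hg : Gl Mt v := gl_of_adj h1
    have hg' : Gl Mt (rp Mt v) := (gl_rp v).2 hg
    unfold pt
    rw [if_pos hg, if_pos hg', h.sp_rp]

lemma VLH.Alv_sub (h : VLH G Mt Ts UH D) {v : V} (hv : Act Ts UH v) :
    Alv Mt D v ⊆ D.Kc (D.sp v) (pt Mt D v) := by
  have hY := (h.act_iff.1 hv).1
  intro b hb
  unfold Alv at hb
  unfold pt
  split_ifs at hb ⊢ with hg
  · exact (Finset.mem_sdiff.1 (h.WK _ hY hb)).1
  · exact (Finset.mem_filter.1 hb).1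

/-- half of the glued vertices are representatives -/
lemma VLH.reps (h : VLH G Mt Ts UH D) {Y : Finset V} (hY : Y ∈ Ts) :
    (Y.filter (fun v => Gl Mt v ∧ rp Mt v = v)).card = D.pn Y := by
  have hmap : ∀ v ∈ Y.filter (fun v => Gl Mt v),
      rp Mt v ∈ Y.filter (fun v => Gl Mt v ∧ rp Mt v = v) := by
    intro v hv
    obtain ⟨hvY, hg⟩ := Finset.mem_filter.1 hv
    have ha := h.gl_act hg
    have ha' := h.act_iff.1 (h.act_rp ha)
    rw [h.sp_rp, h.spY Y hY v hvY] at ha'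
    exact Finset.mem_filter.2 ⟨ha'.2.1, (gl_rp v).2 hg, rp_rp h.mat v⟩
  have hcard := Finset.card_eq_sum_card_fiberwise (f := rp Mt)
    (s := Y.filter (fun v => Gl Mt v)) (t := Y.filter (fun v => Gl Mt v ∧ rp Mt v = v)) hmap
  have hfib : ∀ s ∈ Y.filter (fun v => Gl Mt v ∧ rp Mt v = v),
      ((Y.filter (fun v => Gl Mt v)).filter (fun v => rp Mt v = s)).card = 2 := by
    intro s hs
    obtain ⟨hsY, hg, hr⟩ := Finset.mem_filter.1 hs
    obtain ⟨w, hw⟩ := id hg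
    have hw' := mem_nb.1 hw
    rw [Finset.card_eq_two]
    refine ⟨s, w, hw'.ne, ?_⟩
    ext v
    simp only [Finset.mem_filter, Finset.mem_insert, Finset.mem_singleton]
    constructor
    · rintro ⟨⟨_, _⟩, hv⟩
      rw [← hr] at hv
      rcases rp_inj h.mat hv with h1 | h1
      · exact Or.inl h1
      · exact Or.inr (mat_uniq h.mat h1.symm hw')
    · rintro (rfl | rfl)
      · exact ⟨⟨hsY, hg⟩, hr⟩
      · have ha := h.act_iff.1 (h.mta _ _ hw'.symm).1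
        have h2 : D.sp v = D.sp s := (h.mta _ _ hw'.symm).2
        rw [h2, h.spY Y hY s hsY] at ha
        refine ⟨⟨ha.2.1, gl_of_adj hw'.symm⟩, ?_⟩
        rw [rp_adj h.mat hw'.symm, hr]
  rw [Finset.sum_congr rfl hfib, Finset.sum_const, smul_eq_mul, h.mtn Y hY] at hcard
  omega

/-- positions -/
abbrev Pos (Ts : Finset (Finset V)) (UH : Finset V) (Mt : SimpleGraph V) : Type u :=
  {v : V // Act Ts UH v ∧ rp Mt v = v}

/-- part of a position -/
noncomputable def prt (Ts : Finset (Finset V)) (UH : Finset V) (Mt : SimpleGraph V) (D : VD V C)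
    (s : Pos Ts UH Mt) : Idx V := ⟨D.sp s.1, pt Mt D s.1⟩

/-- colours of a part -/
noncomputable def KK (Ts : Finset (Finset V)) (D : VD V C) (i : Idx V) :
    Finset (C) := if i.fst ∈ Ts then D.Kc i.fst i.snd else ∅

/-- heavy colours of a part -/
noncomputable def HH (Ts : Finset (Finset V)) (D : VD V C) (i : Idx V) :
    Finset (C) := KK Ts D i ∩ D.H i.fst

/-- lists -/
noncomputable def LL (Ts : Finset (Finset V)) (UH : Finset V) (Mt : SimpleGraph V) (D : VD V C)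
    (i : Idx V) (b : C) : Finset (Pos Ts UH Mt) :=
  univ.filter (fun s => prt Ts UH Mt D s = i ∧ ¬ Gl Mt s.1 ∧ D.av s.1 b)

/-- special positions -/
noncomputable def XX (Ts : Finset (Finset V)) (UH : Finset V) (Mt : SimpleGraph V) :
    Finset (Pos Ts UH Mt) := univ.filter (fun s => Gl Mt s.1)

/-- the vertices of a position -/
noncomputable def mem (Ts : Finset (Finset V)) (UH : Finset V) (Mt : SimpleGraph V)
    (s : Pos Ts UH Mt) : Finset V := univ.filter (fun v => Act Ts UH v ∧ rp Mt v = s.1)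

/-- forbidden colours of a position -/
noncomputable def FF (Ts : Finset (Finset V)) (UH : Finset V) (Mt : SimpleGraph V) (D : VD V C)
    (s : Pos Ts UH Mt) : Finset (C) := (mem Ts UH Mt s).biUnion D.Fb

/-- conflicts -/
def RR (G : SimpleGraph V) (Ts : Finset (Finset V)) (UH : Finset V) (Mt : SimpleGraph V)
    (D : VD V C) (s s' : Pos Ts UH Mt) : Prop :=
  ∃ v w, Act Ts UH v ∧ Act Ts UH w ∧ rp Mt v = s.1 ∧ rp Mt w = s'.1 ∧ G.Adj v w ∧ D.sp v ≠ D.sp w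

lemma VLH.KK_prt (h : VLH G Mt Ts UH D) (s : Pos Ts UH Mt) :
    KK Ts D (prt Ts UH Mt D s) = D.Kc (D.sp s.1) (pt Mt D s.1) := by
  unfold KK prt
  rw [if_pos (h.act_iff.1 s.2.1).1]

lemma VLH.Al_eq (h : VLH G Mt Ts UH D) (s : Pos Ts UH Mt) :
    Al (prt Ts UH Mt D) (KK Ts D) (HH Ts D) (LL Ts UH Mt D) (XX Ts UH Mt)
      (fun s => D.Wc (D.sp s.1)) s = Alv Mt D s.1 := by
  unfold Al Alv
  by_cases hg : Gl Mt s.1
  · have hX : s ∈ XX Ts UH Mt := Finset.mem_filter.2 ⟨Finset.mem_univ _, hg⟩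
    rw [if_pos hX, if_pos hg]
  · have hX : s ∉ XX Ts UH Mt := fun hX => hg (Finset.mem_filter.1 hX).2
    rw [if_neg hX, if_neg hg, h.KK_prt]
    have hpt : pt Mt D s.1 = D.p s.1 := by unfold pt; rw [if_neg hg]
    rw [hpt]
    ext b
    simp only [Finset.mem_filter]
    refine and_congr_right (fun hb => ?_)
    have h1 : b ∈ HH Ts D (prt Ts UH Mt D s) ↔ b ∈ D.H (D.sp s.1) := by
      unfold HH
      rw [Finset.mem_inter, h.KK_prt, hpt]
      exact ⟨fun h' => h'.2, fun h' => ⟨hb, h'⟩⟩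
    have h2 : s ∈ LL Ts UH Mt D (prt Ts UH Mt D s) b ↔ D.av s.1 b := by
      unfold LL
      rw [Finset.mem_filter]
      exact ⟨fun h' => h'.2.2.2, fun h' => ⟨Finset.mem_univ _, rfl, hg, h'⟩⟩
    rw [h1, h2]

lemma VLH.mem_card (h : VLH G Mt Ts UH D) (s : Pos Ts UH Mt) : (mem Ts UH Mt s).card ≤ 2 := by
  have h1 : mem Ts UH Mt s ⊆ insert s.1 (nb Mt s.1) := by
    intro v hv
    obtain ⟨_, _, hr⟩ := Finset.mem_filter.1 hv
    rw [← s.2.2] at hr
    rcases rp_inj h.mat hr with h1 | h1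
    · exact Finset.mem_insert.2 (Or.inl h1)
    · exact Finset.mem_insert.2 (Or.inr (mem_nb.2 h1.symm))
  calc (mem Ts UH Mt s).card ≤ (insert s.1 (nb Mt s.1)).card := Finset.card_le_card h1
    _ ≤ (nb Mt s.1).card + 1 := Finset.card_insert_le _ _
    _ ≤ 2 := by have := h.mat s.1; omega

/-- number of positions of a part -/
lemma VLH.card_part (h : VLH G Mt Ts UH D) (i : Idx V) :
    (KK Ts D i).card = (univ.filter (fun s => prt Ts UH Mt D s = i)).card := by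
  obtain ⟨Y, j⟩ := i
  by_cases hY : Y ∈ Ts
  · have h0 : KK Ts D ⟨Y, j⟩ = D.Kc Y j := by unfold KK; rw [if_pos hY]
    rw [h0, h.Kn Y hY j]
    have h1 : (univ.filter (fun s => prt Ts UH Mt D s = ⟨Y, j⟩)).card =
        ((univ.filter (fun s => prt Ts UH Mt D s = ⟨Y, j⟩)).image
          (Subtype.val : Pos Ts UH Mt → V)).card :=
      (Finset.card_image_of_injective _ Subtype.val_injective).symm
    have h2 : (univ.filter (fun s => prt Ts UH Mt D s = ⟨Y, j⟩)).image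
        (Subtype.val : Pos Ts UH Mt → V) =
        Y.filter (fun v => v ∉ UH ∧ ¬ Gl Mt v ∧ D.p v = j) ∪
          (if j = D.i0 Y then Y.filter (fun v => Gl Mt v ∧ rp Mt v = v) else ∅) := by
      ext v
      simp only [Finset.mem_image, Finset.mem_filter, Finset.mem_univ, true_and,
        Finset.mem_union]
      constructor
      · rintro ⟨s, hs, rfl⟩
        unfold prt at hs
        obtain ⟨hs1, hs2⟩ := Idx.mk.inj hs
        have ha := h.act_iff.1 s.2.1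
        rw [hs1] at ha
        by_cases hg : Gl Mt s.1
        · right
          have h3 : pt Mt D s.1 = D.i0 Y := by unfold pt; rw [if_pos hg, hs1]
          rw [if_pos (by rw [← hs2, h3])]
          exact Finset.mem_filter.2 ⟨ha.2.1, hg, s.2.2⟩
        · left
          have h3 : pt Mt D s.1 = D.p s.1 := by unfold pt; rw [if_neg hg]
          exact ⟨ha.2.1, ha.2.2, hg, by rw [← h3, hs2]⟩
      · rintro (⟨hv, hu, hg, hp⟩ | hv)
        · refine ⟨⟨v, ⟨⟨Y, hY, hv⟩, hu⟩, rp_of_not_gl hg⟩, ?_, rfl⟩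
          unfold prt pt
          simp only
          rw [if_neg hg, h.spY Y hY v hv, hp]
        · split_ifs at hv with hj
          · obtain ⟨hv, hg, hr⟩ := Finset.mem_filter.1 hv
            refine ⟨⟨v, h.gl_act hg, hr⟩, ?_, rfl⟩
            unfold prt pt
            simp only
            rw [if_pos hg, h.spY Y hY v hv, hj]
          · exact absurd hv (Finset.notMem_empty _)
    rw [h1, h2, Finset.card_union_of_disjoint]
    · congr 1
      split_ifs with hj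
      · exact (h.reps hY).symm
      · rfl
    · rw [Finset.disjoint_left]
      intro v hv hv'
      split_ifs at hv' with hj
      · exact (Finset.mem_filter.1 hv).2.2.1 (Finset.mem_filter.1 hv').2.1
      · exact absurd hv' (Finset.notMem_empty _)
  · have h0 : KK Ts D ⟨Y, j⟩ = ∅ := by unfold KK; rw [if_neg hY]
    rw [h0, Finset.card_empty, eq_comm, Finset.card_eq_zero, Finset.filter_eq_empty_iff]
    intro s _ hs
    unfold prt at hs
    obtain ⟨hs1, _⟩ := Idx.mk.inj hs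
    exact hY (hs1 ▸ (h.act_iff.1 s.2.1).1)

/-- number of special positions of a part -/
lemma VLH.card_X (h : VLH G Mt Ts UH D) (i : Idx V) (hY : i.fst ∈ Ts) :
    ((XX Ts UH Mt).filter (fun s => prt Ts UH Mt D s = i)).card ≤ D.pn i.fst := by
  rw [← h.reps hY, ← Finset.card_image_of_injective _
    (Subtype.val_injective : Function.Injective (Subtype.val : Pos Ts UH Mt → V))]
  apply Finset.card_le_card
  intro v hv
  obtain ⟨s, hs, rfl⟩ := Finset.mem_image.1 hv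
  obtain ⟨hs1, hs2⟩ := Finset.mem_filter.1 hs
  have hg := (Finset.mem_filter.1 hs1).2
  have h1 : D.sp s.1 = i.fst := by rw [← hs2]; rfl
  have ha := h.act_iff.1 s.2.1
  rw [h1] at ha
  exact Finset.mem_filter.2 ⟨ha.2.1, hg, s.2.2⟩

/-- size of a list -/
lemma VLH.card_L (h : VLH G Mt Ts UH D) {Y : Finset V} (hY : Y ∈ Ts) (j : Fin 3) (b : C) :
    (LL Ts UH Mt D ⟨Y, j⟩ b).card =
      (Y.filter (fun w => w ∉ UH ∧ ¬ Gl Mt w ∧ D.p w = j ∧ D.av w b)).card := by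
  rw [← Finset.card_image_of_injective _
    (Subtype.val_injective : Function.Injective (Subtype.val : Pos Ts UH Mt → V))]
  congr 1
  ext v
  simp only [Finset.mem_image, Finset.mem_filter, LL, Finset.mem_univ, true_and]
  constructor
  · rintro ⟨s, ⟨hs, hg, hav⟩, rfl⟩
    unfold prt at hs
    obtain ⟨hs1, hs2⟩ := Idx.mk.inj hs
    have ha := h.act_iff.1 s.2.1
    rw [hs1] at ha
    have h3 : pt Mt D s.1 = D.p s.1 := by unfold pt; rw [if_neg hg]
    exact ⟨ha.2.1, ha.2.2, hg, by rw [← h3, hs2], hav⟩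
  · rintro ⟨hv, hu, hg, hp, hav⟩
    refine ⟨⟨v, ⟨⟨Y, hY, hv⟩, hu⟩, rp_of_not_gl hg⟩, ⟨?_, hg, hav⟩, rfl⟩
    unfold prt pt
    simp only
    rw [if_neg hg, h.spY Y hY v hv, hp]

/-- the hypotheses of LSB -/
lemma VLH.lsh (h : VLH G Mt Ts UH D) :
    LSH (prt Ts UH Mt D) (KK Ts D) (HH Ts D) (LL Ts UH Mt D) (XX Ts UH Mt)
      (fun s => D.Wc (D.sp s.1)) (FF Ts UH Mt D) (RR G Ts UH Mt D) (fun s b => D.μ s.1 b) := by
  have hKK : ∀ i : Idx V, ∀ b ∈ KK Ts D i, i.fst ∈ Ts ∧ b ∈ D.Kc i.fst i.snd := by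
    intro i b hb
    unfold KK at hb
    split_ifs at hb with hY
    · exact ⟨hY, hb⟩
    · exact absurd hb (Finset.notMem_empty _)
  have hspT : ∀ s : Pos Ts UH Mt, D.sp s.1 ∈ Ts ∧ s.1 ∈ D.sp s.1 ∧ s.1 ∉ UH :=
    fun s => h.act_iff.1 s.2.1
  have hAl := h.Al_eq
  have hsub : ∀ s : Pos Ts UH Mt, Alv Mt D s.1 ⊆ KK Ts D (prt Ts UH Mt D s) := by
    intro s
    rw [h.KK_prt]
    exact h.Alv_sub s.2.1
  have hsd : ∀ s : Pos Ts UH Mt, Alv Mt D s.1 \ HH Ts D (prt Ts UH Mt D s) =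
      Alv Mt D s.1 \ D.H (D.sp s.1) := by
    intro s
    ext b
    simp only [Finset.mem_sdiff, HH, Finset.mem_inter]
    constructor
    · rintro ⟨h1, h2⟩
      exact ⟨h1, fun h3 => h2 ⟨hsub s h1, h3⟩⟩
    · rintro ⟨h1, h2⟩
      exact ⟨h1, fun h3 => h2 h3.2⟩
  refine
    { card := h.card_part
      HK := fun i => Finset.inter_subset_left
      Lp := ?_
      WK := ?_
      μ0 := fun s b => h.μ0 _ _
      μl := ?_
      μh := ?_
      Lc := ?_
      μx := ?_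
      Wc := ?_
      Rs := ?_
      Rp := ?_
      row := ?_
      clm := ?_ }
  · intro i b _ s hs
    obtain ⟨_, h1, h2, _⟩ := Finset.mem_filter.1 hs
    exact ⟨h1, fun h3 => h2 (Finset.mem_filter.1 h3).2⟩
  · intro s hs b hb
    have hg := (Finset.mem_filter.1 hs).2
    have hb' := h.WK _ (hspT s).1 hb
    obtain ⟨h1, h2⟩ := Finset.mem_sdiff.1 hb'
    have h3 : pt Mt D s.1 = D.i0 (D.sp s.1) := by unfold pt; rw [if_pos hg]
    rw [Finset.mem_sdiff, h.KK_prt, h3]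
    exact ⟨h1, fun h4 => h2 (Finset.mem_inter.1 h4).2⟩
  · intro s hs b hb hb'
    have hg : ¬ Gl Mt s.1 := fun hg => hs (Finset.mem_filter.2 ⟨Finset.mem_univ _, hg⟩)
    have h3 : pt Mt D s.1 = D.p s.1 := by unfold pt; rw [if_neg hg]
    have hbK := hb
    rw [h.KK_prt, h3] at hb
    have hbH : b ∉ D.H (D.sp s.1) := fun h4 => hb' (Finset.mem_inter.2 ⟨hbK, h4⟩)
    have h1 := h.μl _ (hspT s).1 s.1 (hspT s).2.1 (hspT s).2.2 hg b hb hbH
    have h2 := h.card_X (prt Ts UH Mt D s) (hspT s).1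
    have h4 : (HH Ts D (prt Ts UH Mt D s)).card ≤ (D.H (D.sp s.1)).card :=
      Finset.card_le_card Finset.inter_subset_right
    rw [h.KK_prt, h3]
    refine h1.trans (mul_le_mul_of_nonneg_left ?_ (h.μ0 _ _))
    have h2' : ((((XX Ts UH Mt).filter
      (fun s' => prt Ts UH Mt D s' = prt Ts UH Mt D s)).card : ℕ) : ℝ) ≤
        (D.pn (D.sp s.1) : ℝ) := by exact_mod_cast h2
    have h4' : (((HH Ts D (prt Ts UH Mt D s)).card : ℕ) : ℝ) ≤ ((D.H (D.sp s.1)).card : ℝ) := by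
      exact_mod_cast h4
    linarith
  · intro i b hb s hs
    obtain ⟨hb1, hb2⟩ := Finset.mem_inter.1 hb
    obtain ⟨hY, hb3⟩ := hKK i b hb1
    obtain ⟨_, hp, hg, hav⟩ := Finset.mem_filter.1 hs
    have h3 : pt Mt D s.1 = D.p s.1 := by unfold pt; rw [if_neg hg]
    have hi : i = ⟨D.sp s.1, D.p s.1⟩ := by rw [← hp, prt, h3]
    subst hi
    have h1 := h.μh _ (hspT s).1 s.1 (hspT s).2.1 (hspT s).2.2 hg b hb3 hb2 hav
    have h4 : (HH Ts D ⟨D.sp s.1, D.p s.1⟩).card ≤ (D.H (D.sp s.1)).card :=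
      Finset.card_le_card Finset.inter_subset_right
    rw [h.card_L (hspT s).1]
    refine h1.trans (mul_le_mul_of_nonneg_left ?_ (h.μ0 _ _))
    have h4' : (((HH Ts D ⟨D.sp s.1, D.p s.1⟩).card : ℕ) : ℝ) ≤ ((D.H (D.sp s.1)).card : ℝ) := by
      exact_mod_cast h4
    linarith
  · rintro ⟨Y, j⟩ b hb
    obtain ⟨hb1, hb2⟩ := Finset.mem_inter.1 hb
    obtain ⟨hY, hb3⟩ := hKK _ b hb1
    rw [h.card_L hY]
    exact lt_of_le_of_lt (Finset.card_le_card Finset.inter_subset_right) (h.Lc Y hY j b hb3 hb2)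
  · intro s hs b hb
    have hg := (Finset.mem_filter.1 hs).2
    have h1 := h.μx _ (hspT s).1 s.1 (hspT s).2.1 hg b hb
    have h2 := h.card_X (prt Ts UH Mt D s) (hspT s).1
    refine h1.trans (mul_le_mul_of_nonneg_left ?_ (h.μ0 _ _))
    have h2' : ((((XX Ts UH Mt).filter
      (fun s' => prt Ts UH Mt D s' = prt Ts UH Mt D s)).card : ℕ) : ℝ) ≤
        (D.pn (D.sp s.1) : ℝ) := by exact_mod_cast h2
    linarith
  · intro s _
    exact lt_of_le_of_lt (h.card_X (prt Ts UH Mt D s) (hspT s).1) (h.Wn _ (hspT s).1)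
  · rintro s s' ⟨v, w, h1, h2, h3, h4, h5, h6⟩
    exact ⟨w, v, h2, h1, h4, h3, h5.symm, h6.symm⟩
  · rintro s s' ⟨v, w, _, _, h3, h4, _, h6⟩ h7
    apply h6
    have h8 : D.sp s.1 = D.sp s'.1 := (Idx.mk.inj h7).1
    rw [← h.sp_rp v, ← h.sp_rp w, h3, h4, h8]
  · intro s
    rw [hAl, hsd]
    have hrows : ∑ v ∈ mem Ts UH Mt s, (∑ b ∈ (Alv Mt D v \ D.H (D.sp v)) ∩ D.Fb v, D.μ v b +
        ∑ w ∈ outn G Ts UH D v, ∑ b ∈ Alv Mt D v ∩ Alv Mt D w, D.μ v b * D.μ w b) ≤ 1 / 64 := by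
      calc _ ≤ ∑ v ∈ mem Ts UH Mt s, (1 / 128 : ℝ) :=
            Finset.sum_le_sum (fun v hv => h.row v (Finset.mem_filter.1 hv).2.1)
        _ = ((mem Ts UH Mt s).card : ℝ) * (1 / 128) := by rw [Finset.sum_const, nsmul_eq_mul]
        _ ≤ 2 * (1 / 128) := by
            have : ((mem Ts UH Mt s).card : ℝ) ≤ 2 := by exact_mod_cast h.mem_card s
            nlinarith
        _ = 1 / 64 := by norm_num
    rw [Finset.sum_add_distrib] at hrows
    refine le_trans (add_le_add ?_ ?_) hrows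
    · rw [Finset.sum_sigma']
      refine sum_rel_le _ _ _ _ (fun x _ => h.μ0 _ _) (fun b x => x.2 = b) ?_ ?_
      · intro i _ j _ x hx hx'
        rw [← hx, ← hx']
      · intro b hb
        obtain ⟨hb1, hb2⟩ := Finset.mem_inter.1 hb
        obtain ⟨v, hv, hbv⟩ := Finset.mem_biUnion.1 hb2
        obtain ⟨_, hva, hvr⟩ := Finset.mem_filter.1 hv
        refine ⟨⟨v, b⟩, ?_, rfl, ?_⟩
        · rw [Finset.mem_sigma]
          refine ⟨hv, Finset.mem_inter.2 ⟨?_, hbv⟩⟩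
          simp only
          rw [← h.Alv_rp v, ← h.sp_rp v, hvr]
          exact hb1
        · simp only
          rw [← h.μ_rp v, hvr]
    · rw [Finset.sum_sigma' (mem Ts UH Mt s) (fun v => outn G Ts UH D v)
        (fun v w => ∑ b ∈ Alv Mt D v ∩ Alv Mt D w, D.μ v b * D.μ w b)]
      refine sum_rel_le _ _ _ _ ?_ (fun s' x => rp Mt x.2 = s'.1) ?_ ?_
      · intro x _
        exact Finset.sum_nonneg (fun b _ => mul_nonneg (h.μ0 _ _) (h.μ0 _ _))
      · intro i _ j _ x hx hx'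
        exact Subtype.ext (hx.symm.trans hx')
      · intro s' hs'
        obtain ⟨_, v, w, h1, h2, h3, h4, h5, h6⟩ := Finset.mem_filter.1 hs'
        refine ⟨⟨v, w⟩, ?_, h4, ?_⟩
        · rw [Finset.mem_sigma]
          exact ⟨Finset.mem_filter.2 ⟨Finset.mem_univ _, h1, h3⟩,
            Finset.mem_filter.2 ⟨mem_nb.2 h5, h2, h6.symm⟩⟩
        · simp only
          rw [hAl, ← h.Alv_rp v, ← h.Alv_rp w, h3, h4]
          apply le_of_eq
          apply Finset.sum_congr rfl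
          intro b _
          rw [← h.μ_rp v, ← h.μ_rp w, h3, h4]
  · rintro ⟨Y, j⟩ b hb
    obtain ⟨hY, hbK⟩ := hKK _ b hb
    refine le_trans (add_le_add ?_ ?_) (h.clm Y hY j b hbK)
    · refine sum_rel_le _ _ _ _ (fun x _ => h.μ0 _ _) (fun s v => rp Mt v = s.1) ?_ ?_
      · intro i _ i' _ x hx hx'
        exact Subtype.ext (hx.symm.trans hx')
      · intro s hs
        obtain ⟨_, hp, hb1⟩ := Finset.mem_filter.1 hs
        obtain ⟨hb2, hb3⟩ := Finset.mem_inter.1 hb1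
        obtain ⟨v, hv, hbv⟩ := Finset.mem_biUnion.1 hb3
        obtain ⟨_, hva, hvr⟩ := Finset.mem_filter.1 hv
        have hsY : D.sp s.1 = Y := (Idx.mk.inj hp).1
        have hvY : D.sp v = Y := by rw [← h.sp_rp v, hvr, hsY]
        rw [hAl, ← hp, hsd] at hb2
        refine ⟨v, ?_, hvr, ?_⟩
        · have ha := h.act_iff.1 hva
          rw [Finset.mem_filter]
          refine ⟨hvY ▸ ha.2.1, ha.2.2, Finset.mem_inter.2 ⟨?_, hbv⟩⟩
          rw [← h.Alv_rp v, hvr, ← hsY]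
          exact hb2
        · rw [← h.μ_rp v, hvr]
    · rw [Finset.sum_sigma', Finset.sum_sigma']
      refine sum_rel_le _ _ _ _ (fun x _ => mul_nonneg (h.μ0 _ _) (h.μ0 _ _))
        (fun s x => rp Mt x.1 = s.1.1 ∧ rp Mt x.2 = s.2.1) ?_ ?_
      · rintro ⟨i1, i2⟩ _ ⟨j1, j2⟩ _ x ⟨hx1, hx2⟩ ⟨hx3, hx4⟩
        have e1 : i1 = j1 := Subtype.ext (hx1.symm.trans hx3)
        have e2 : i2 = j2 := Subtype.ext (hx2.symm.trans hx4)
        rw [e1, e2]
      · rintro ⟨s, s'⟩ hs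
        obtain ⟨hs1, hs2⟩ := Finset.mem_sigma.1 hs
        obtain ⟨_, hp, hb1⟩ := Finset.mem_filter.1 hs1
        obtain ⟨_, hR, hb2⟩ := Finset.mem_filter.1 hs2
        obtain ⟨v, w, h1, h2, h3, h4, h5, h6⟩ := hR
        simp only at hp hb1 hb2 h3 h4
        rw [hAl] at hb1 hb2
        have hsY : D.sp s.1 = Y := (Idx.mk.inj hp).1
        have hvY : D.sp v = Y := by rw [← h.sp_rp v, h3, hsY]
        refine ⟨⟨v, w⟩, ?_, ⟨h3, h4⟩, ?_⟩
        · have ha := h.act_iff.1 h1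
          rw [Finset.mem_sigma]
          refine ⟨Finset.mem_filter.2 ⟨hvY ▸ ha.2.1, ha.2.2, ?_⟩,
            Finset.mem_filter.2 ⟨Finset.mem_filter.2 ⟨mem_nb.2 h5, h2, h6.symm⟩, ?_⟩⟩
          · rw [← h.Alv_rp v, h3]; exact hb1
          · simp only
            rw [← h.Alv_rp w, h4]; exact hb2
        · simp only
          rw [← h.μ_rp v, ← h.μ_rp w, h3, h4]

/-- LSB for vertices -/
theorem VLH.exists_colouring (hL : Stmt_LSB.{u}) (h : VLH G Mt Ts UH D) (c0 : V → C) :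
    ∃ c : V → C, (∀ v, ¬ Act Ts UH v → c v = c0 v) ∧
      (∀ v, Act Ts UH v → c v ∈ Alv Mt D v ∧ (c v ∉ D.H (D.sp v) → c v ∉ D.Fb v)) ∧
      (∀ v w, Act Ts UH v → Act Ts UH w → D.sp v = D.sp w → c v = c w → v = w ∨ Mt.Adj v w) ∧
      (∀ v w, Mt.Adj v w → c v = c w) ∧
      (∀ v w, Act Ts UH v → Act Ts UH w → D.sp v ≠ D.sp w → G.Adj v w → c v ≠ c w) ∧
      ∀ Y ∈ Ts, ∀ i, ∀ b ∈ D.Kc Y i, ∃ v ∈ Y, v ∉ UH ∧ c v = b := by
  obtain ⟨c, hc1, hc2, hc3, hc4⟩ := hL _ _ _ _ _ _ _ _ _ h.lsh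
  have hpos : ∀ v, Act Ts UH v → Act Ts UH (rp Mt v) ∧ rp Mt (rp Mt v) = rp Mt v :=
    fun v hv => ⟨h.act_rp hv, rp_rp h.mat v⟩
  have hc' : ∀ v (hv : Act Ts UH v), (fun v => if hv : Act Ts UH v then
      c ⟨rp Mt v, hpos v hv⟩ else c0 v) v = c ⟨rp Mt v, hpos v hv⟩ := by
    intro v hv
    simp only
    rw [dif_pos hv]
  have hcA : ∀ v (hv : Act Ts UH v), c ⟨rp Mt v, hpos v hv⟩ ∈ Alv Mt D v := by
    intro v hv
    have h1 := hc1 ⟨rp Mt v, hpos v hv⟩
    rw [h.Al_eq] at h1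
    simp only at h1
    rw [h.Alv_rp] at h1
    exact h1
  have hcK : ∀ v (hv : Act Ts UH v), c ⟨rp Mt v, hpos v hv⟩ ∈ D.Kc (D.sp v) (pt Mt D v) :=
    fun v hv => h.Alv_sub hv (hcA v hv)
  refine ⟨fun v => if hv : Act Ts UH v then c ⟨rp Mt v, hpos v hv⟩ else c0 v, ?_, ?_, ?_, ?_, ?_,
    ?_⟩
  · intro v hv
    simp only
    rw [dif_neg hv]
  · intro v hv
    rw [hc' v hv]
    refine ⟨hcA v hv, ?_⟩
    intro hH hF
    apply hH
    have h2 := hc2 ⟨rp Mt v, hpos v hv⟩ (Finset.mem_biUnion.2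
      ⟨v, Finset.mem_filter.2 ⟨Finset.mem_univ _, hv, rfl⟩, hF⟩)
    have h3 := (Finset.mem_inter.1 h2).2
    have h4 : (prt Ts UH Mt D ⟨rp Mt v, hpos v hv⟩).fst = D.sp v := h.sp_rp v
    rw [h4] at h3
    exact h3
  · intro v w hv hw hs hcc
    rw [hc' v hv, hc' w hw] at hcc
    have h1 := hcK v hv
    have h2 := hcK w hw
    rw [hcc] at h1
    rw [← hs] at h2
    have hY := (h.act_iff.1 hv).1
    have hpt : pt Mt D v = pt Mt D w := by
      by_contra hne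
      exact Finset.disjoint_left.1 (h.Kd _ hY _ _ hne) h1 h2
    have h3 := hc3 ⟨rp Mt v, hpos v hv⟩ ⟨rp Mt w, hpos w hw⟩ (by
      unfold prt
      simp only
      rw [h.sp_rp, h.sp_rp, h.pt_rp, h.pt_rp, hs, hpt]) hcc
    exact rp_inj h.mat (Subtype.mk.inj h3)
  · intro v w hvw
    have hv := (h.mta _ _ hvw).1
    have hw := (h.mta _ _ hvw.symm).1
    rw [hc' v hv, hc' w hw]
    congr 1
    exact Subtype.ext (rp_adj h.mat hvw)
  · intro v w hv hw hs hvw hcc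
    rw [hc' v hv, hc' w hw] at hcc
    exact hc4 ⟨rp Mt v, hpos v hv⟩ ⟨rp Mt w, hpos w hw⟩ ⟨v, w, hv, hw, rfl, rfl, hvw, hs⟩ hcc
  · intro Y hY i b hb
    have hcard := h.card_part ⟨Y, i⟩
    have h0 : KK Ts D ⟨Y, i⟩ = D.Kc Y i := by unfold KK; rw [if_pos hY]
    have himg : (univ.filter (fun s => prt Ts UH Mt D s = ⟨Y, i⟩)).image c = KK Ts D ⟨Y, i⟩ := by
      apply Finset.eq_of_subset_of_card_le
      · intro b' hb'
        obtain ⟨s, hs, rfl⟩ := Finset.mem_image.1 hb'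
        have hs' := (Finset.mem_filter.1 hs).2
        rw [← hs', h.KK_prt]
        have h1 := hc1 s
        rw [h.Al_eq] at h1
        exact h.Alv_sub s.2.1 h1
      · rw [hcard, Finset.card_image_of_injOn]
        intro s hs s' hs' hss
        exact hc3 s s' ((Finset.mem_filter.1 hs).2.trans (Finset.mem_filter.1 hs').2.symm) hss
    rw [← h0, ← himg] at hb
    obtain ⟨s, hs, rfl⟩ := Finset.mem_image.1 hb
    have hs' := (Finset.mem_filter.1 hs).2
    have hsY : D.sp s.1 = Y := (Idx.mk.inj hs').1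
    have ha := h.act_iff.1 s.2.1
    refine ⟨s.1, hsY ▸ ha.2.1, ha.2.2, ?_⟩
    rw [hc' s.1 s.2.1]
    congr 1
    exact Subtype.ext s.2.2

end pos

end Pool.Agent.Work.MP_db9399_sw_helper39
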