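import Pool.Agent.Work.MP_db9399_sw_helper39.VNum

/-!
# MP_db9399, PHASE 2 (short spots), block VSHORT, part 4: the data of LSB
-/

set_option autoImplicit false

namespace Pool.Agent.Work.MP_db9399_sw_helper39

open Finset Classical
open Pool.Agent.Work.MP_db9399_all (nb)
open Pool.Agent.Work.MP_db9399_dn (IsMat Tot)
open Pool.Agent.Work.MP_db9399_bg (HPre)
open Pool.Agent.Work.MP_db9399_sl (InS Same Gout Gss Gin Gex Out Vert odd)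
open Pool.Agent.Work.MP_db9399_sw

universe u

/-- the constants -/
structure Cst (x η θ T0 y0 y1 B : ℝ) (d : ℕ) : Prop where
  θ0 : 0 < θ
  θ1 : θ ≤ 1 / 10 ^ 7
  x0 : 0 < x
  xθ : x ≤ θ
  η0 : 0 < η
  ηx : 10 ^ 7 * η ≤ x ^ 2
  d1 : (1000 : ℝ) ≤ d
  T1 : 1 ≤ T0
  B1 : 1 ≤ B
  y11 : 1 ≤ y1
  xy : 10 ^ 9 * T0 ≤ x * y0
  yB : 10 ^ 9 * (y1 * B) ≤ x * d

lemma Cst.x1 {x η θ T0 y0 y1 B : ℝ} {d : ℕ} (h : Cst x η θ T0 y0 y1 B d) : x ≤ 1 / 10 ^ 7 :=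
  h.xθ.trans h.θ1

lemma Cst.η1 {x η θ T0 y0 y1 B : ℝ} {d : ℕ} (h : Cst x η θ T0 y0 y1 B d) :
    10 ^ 14 * η ≤ x := by
  have h1 := h.x1
  have h2 := h.x0
  have h3 := h.ηx
  have h4 : x ^ 2 ≤ x * (1 / 10 ^ 7) := by nlinarith
  linarith

lemma Cst.y0' {x η θ T0 y0 y1 B : ℝ} {d : ℕ} (h : Cst x η θ T0 y0 y1 B d) : 10 ^ 9 ≤ y0 := by
  have h1 := h.x1
  have h2 := h.x0
  have h3 := h.xy
  have h4 := h.T1
  by_contra h5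
  push Not at h5
  have h6 : x * y0 < x * 10 ^ 9 := mul_lt_mul_of_pos_left h5 h2
  have h7 : x * 10 ^ 9 ≤ 1 * 10 ^ 9 := by
    apply mul_le_mul_of_nonneg_right _ (by norm_num)
    linarith
  linarith

section spot
variable {V : Type u} [Fintype V] {k : ℕ}

/-- spot of a vertex -/
noncomputable def spf (Ts : Finset (Finset V)) (v : V) : Finset V :=
  if h : InS Ts v then h.choose else ∅

lemma spf_eq {Ts : Finset (Finset V)} (dis : ∀ Y ∈ Ts, ∀ Y' ∈ Ts, Y ≠ Y' → Disjoint Y Y')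
    {Y : Finset V} (hY : Y ∈ Ts) {v : V} (hv : v ∈ Y) : spf Ts v = Y := by
  have h : InS Ts v := ⟨Y, hY, hv⟩
  unfold spf
  rw [dif_pos h]
  by_contra hne
  exact Finset.disjoint_left.1 (dis _ h.choose_spec.1 Y hY hne) h.choose_spec.2 hv

/-- the data -/
noncomputable def Dat (G : SimpleGraph V) (Ys Sm : Finset (Finset V)) (UH Gd : Finset V)
    (c0 c : V → Fin k) (E : V → Finset (Fin k)) (d : ℕ) (p : V → Fin 3) (Mt : SimpleGraph V)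
    (pn : Finset V → ℕ) (x y0 : ℝ) (Kc : Finset V → Fin 3 → Finset (Fin k))
    (i0 : Finset V → Fin 3) (Wc : Finset V → Finset (Fin k)) : VD V (Fin k) where
  sp := spf (shs d Ys)
  p := p
  Kc := Kc
  i0 := i0
  Wc := Wc
  H := hvy G Ys UH c0 c E d
  av := fun v b => b ∉ E v ∧ b ∉ ac G Ys UH c v ∧ (spf (shs d Ys) v ∈ Sm → v ∈ Gd)
  Fb := fun v => E v ∪ ac G Ys UH c v
  pn := pn
  μ := fun v b => if Gl Mt v then 2 / ((Wc (spf (shs d Ys) v)).card : ℝ) else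
    if b ∈ hvy G Ys UH c0 c E d (spf (shs d Ys) v) then
      (if spf (shs d Ys) v ∈ Sm then 8 / y0 else 8 / (x * d)) else 5 / (d : ℝ)

/-- the list of the colour `b` in the third `i` of `Y` -/
noncomputable def lst (G : SimpleGraph V) (Ys Sm : Finset (Finset V)) (UH Gd : Finset V)
    (c : V → Fin k) (E : V → Finset (Fin k)) (d : ℕ) (p : V → Fin 3) (Mt : SimpleGraph V)
    (Y : Finset V) (i : Fin 3) (b : Fin k) : Finset V :=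
  Y.filter (fun w => w ∉ UH ∧ ¬ Gl Mt w ∧ p w = i ∧
    (b ∉ E w ∧ b ∉ ac G Ys UH c w ∧ (spf (shs d Ys) w ∈ Sm → w ∈ Gd)))

/-- the results of CHO at all short spots, and the lists -/
structure CH (x θ y0 : ℝ) (G : SimpleGraph V) (d : ℕ) (Ys Sm : Finset (Finset V))
    (UH Gd : Finset V) (c0 c : V → Fin k) (E F0 : V → Finset (Fin k)) (K0 : Finset (Fin k))
    (C : Fin 3 → Finset (Fin k)) (p : V → Fin 3) (Fy : Finset V → Finset (Fin k))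
    (Mt : SimpleGraph V) (pn : Finset V → ℕ) (hi : Finset V → Fin k → Fin 3)
    (U Wc : Finset V → Finset (Fin k)) (i0 : Finset V → Fin 3)
    (Kc : Finset V → Fin 3 → Finset (Fin k)) : Prop where
  c1 : ∀ Y ∈ shs d Ys, ∀ b ∈ Fy Y, b ∉ cw UH c0 Y → b ∈ U Y
  c2 : ∀ Y ∈ shs d Ys, ∀ i j, i ≠ j → Disjoint (Kc Y i) (Kc Y j)
  c3 : ∀ Y ∈ shs d Ys, ∀ i, ∀ b ∈ Kc Y i, b ∈ K0 ∧ b ∉ U Y ∧ b ∉ cw UH c0 Y
  c4 : ∀ Y ∈ shs d Ys, ∀ i, (Kc Y i).card =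
    (Y.filter (fun v => v ∉ UH ∧ ¬ Gl Mt v ∧ p v = i)).card + if i = i0 Y then pn Y else 0
  c5 : ∀ Y ∈ shs d Ys, ∀ i, ∀ b ∈ Kc Y i, b ∈ hvy G Ys UH c0 c E d Y → hi Y b = i
  c6 : ∀ Y ∈ shs d Ys, ∀ i, ∀ b ∈ Kc Y i, b ∉ hvy G Ys UH c0 c E d Y → b ∉ C i
  c7 : ∀ Y ∈ shs d Ys, ∀ b ∈ Wc Y, b ∈ Kc Y (i0 Y) ∧ b ∉ hvy G Ys UH c0 c E d Y
  c8 : ∀ Y ∈ shs d Ys, 10 ^ 4 * θ * d ≤ ((Wc Y).card : ℝ)
  c9 : ∀ Y ∈ shs d Ys, ∀ b ∈ K0, b ∉ U Y → b ∉ cw UH c0 Y → ∃ i, b ∈ Kc Y i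
  c10 : ∀ Y ∈ shs d Ys, ∀ Pc : Finset (Fin k), (∀ b ∈ Pc, b ∈ Wc Y) → Pc.card = pn Y →
    ∃ S : Finset (Fin k), (∀ b ∈ S, b ∈ K0 ∧
      ((¬ Odd (Y.filter (fun v => b ∉ fst UH F0 E v)).card ∧
        (b ∈ U Y ∨ b ∈ Pc ∨ b ∈ cw UH c0 Y)) ∨
      (Odd (Y.filter (fun v => b ∉ fst UH F0 E v)).card ∧ b ∉ U Y ∧ b ∉ Pc ∧
        b ∉ cw UH c0 Y))) ∧ d + 2 ≤ Y.card + S.card
  ls : ∀ Y ∈ shs d Ys, ∀ b ∈ K0, b ∉ Fy Y → b ∉ cw UH c0 Y →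
    (Y ∉ Sm → x * d * (3 / 10) ≤ ((lst G Ys Sm UH Gd c E d p Mt Y (hi Y b) b).card : ℝ)) ∧
    (Y ∈ Sm → y0 / 3 ≤ ((lst G Ys Sm UH Gd c E d p Mt Y (hi Y b) b).card : ℝ))
  cc : ∀ Y ∈ shs d Ys, ∀ i, (d : ℝ) / 4 ≤ ((Kc Y i).card : ℝ)

end spot

section main
variable {V : Type u} [Fintype V] {k : ℕ} {δ1 π x η θ T0 y0 y1 B : ℝ} {G EH : SimpleGraph V}
  {d : ℕ} {Ys Sm : Finset (Finset V)} {UH Gd Hs : Finset V} {c0 tu c : V → Fin k}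
  {t : V → V → Fin k} {E F0 : V → Finset (Fin k)} {K0 : Finset (Fin k)}
  {C : Fin 3 → Finset (Fin k)} {p : V → Fin 3} {a : V → Bool} {Z : Finset V}
  {Fy : Finset V → Finset (Fin k)} {Mt : SimpleGraph V} {pn : Finset V → ℕ}
  {hi : Finset V → Fin k → Fin 3} {U Wc : Finset V → Finset (Fin k)} {i0 : Finset V → Fin 3}
  {Kc : Finset V → Fin 3 → Finset (Fin k)}

lemma mem_shs {Y : Finset V} (hY : Y ∈ shs d Ys) : Y ∈ Ys ∧ Y.card < d :=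
  Finset.mem_filter.1 hY

lemma shs_dis (dis : ∀ Y ∈ Ys, ∀ Y' ∈ Ys, Y ≠ Y' → Disjoint Y Y') :
    ∀ Y ∈ shs d Ys, ∀ Y' ∈ shs d Ys, Y ≠ Y' → Disjoint Y Y' :=
  fun Y hY Y' hY' => dis Y (mem_shs hY).1 Y' (mem_shs hY').1

/-- number of heavy colours -/
lemma hvy_le (hC : Cst x η θ T0 y0 y1 B d)
    (hO : Out δ1 π G (Gex G Ys) ⊥ EH d Ys UH c0 tu c t E K0 C p a Z)
    (hS : SHH x η θ T0 y0 y1 B G EH d Ys Sm UH Gd Hs c0 c E F0 K0 Fy Mt pn)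
    (hP : HPre G UH c0 EH tu) {Y : Finset V} (hY : Y ∈ shs d Ys) :
    ((hvy G Ys UH c0 c E d Y).card : ℝ) ≤ 2000 * η * d ∧
      (Y ∈ Sm → ((hvy G Ys UH c0 c E d Y).card : ℝ) ≤ 2500 * T0) := by
  obtain ⟨hY1, hY2⟩ := mem_shs hY
  have hd : (0 : ℝ) < d := by linarith [hC.d1]
  have h1 := hvy_card hO.Ed hP.EU hS.dis hS.deg hO.cU hY1
  have h2 := hS.sum Y hY1
  have h3 : (Y.card : ℝ) ≤ d := by exact_mod_cast hY2.le
  have hη := hC.η0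
  have hT := hC.T1
  constructor
  · have h4 : ((hvy G Ys UH c0 c E d Y).card : ℝ) * d ≤ (2000 * η * d) * d := by
      have : η * d * (Y.card : ℝ) ≤ η * d * d := mul_le_mul_of_nonneg_left h3 (by positivity)
      nlinarith
    exact le_of_mul_le_mul_right h4 hd
  · intro hSm
    have h5 := (hS.sml Y hSm).2.1
    have h1 := hvy_card2 (Hs := Hs) hO.Ed hP.EU hS.dis hS.deg hO.cU hY1 (hS.hsc Y hSm) hY2.le
    have h4 : ((hvy G Ys UH c0 c E d Y).card : ℝ) * d ≤ (2500 * T0) * d := by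
      have : T0 * (Y.card : ℝ) ≤ T0 * d := mul_le_mul_of_nonneg_left h3 (by linarith)
      nlinarith
    exact le_of_mul_le_mul_right h4 hd

end main

end Pool.Agent.Work.MP_db9399_sw_helper39
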