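import Pool.Agent.Work.MP_db9399_sw_helper39.VSpot

/-!
# MP_db9399, PHASE 2 (short spots), block VSHORT, part 5: the hypotheses of LSB for vertices
-/

set_option autoImplicit false

namespace Pool.Agent.Work.MP_db9399_sw_helper39

open Finset Classical
open Pool.Agent.Work.MP_db9399_all (nb)
open Pool.Agent.Work.MP_db9399_dn (IsMat Tot)
open Pool.Agent.Work.MP_db9399_bg (HPre)
open Pool.Agent.Work.MP_db9399_sl (InS Same Gout Gss Gin Gex Out Vert odd)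
open Pool.Agent.Work.MP_db9399_sw

universe u

section main
variable {V : Type u} [Fintype V] {k : ℕ} {δ1 π x η θ T0 y0 y1 B : ℝ} {G EH : SimpleGraph V}
  {d : ℕ} {Ys Sm : Finset (Finset V)} {UH Gd Hs : Finset V} {c0 tu c : V → Fin k}
  {t : V → V → Fin k} {E F0 : V → Finset (Fin k)} {K0 : Finset (Fin k)}
  {C : Fin 3 → Finset (Fin k)} {p : V → Fin 3} {a : V → Bool} {Z : Finset V}
  {Fy : Finset V → Finset (Fin k)} {Mt : SimpleGraph V} {pn : Finset V → ℕ}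
  {hi : Finset V → Fin k → Fin 3} {U Wc : Finset V → Finset (Fin k)} {i0 : Finset V → Fin 3}
  {Kc : Finset V → Fin 3 → Finset (Fin k)}

lemma act_spf (dis : ∀ Y ∈ Ys, ∀ Y' ∈ Ys, Y ≠ Y' → Disjoint Y Y') {v : V}
    (hv : Act (shs d Ys) UH v) : spf (shs d Ys) v ∈ shs d Ys ∧ v ∈ spf (shs d Ys) v ∧ v ∉ UH := by
  obtain ⟨⟨Y, hY, h1⟩, h2⟩ := hv
  rw [spf_eq (shs_dis dis) hY h1]
  exact ⟨hY, h1, h2⟩

lemma alv_cases {v : V} {b : Fin k}
    (hb : b ∈ Alv Mt (Dat G Ys Sm UH Gd c0 c E d p Mt pn x y0 Kc i0 Wc) v) :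
    (Gl Mt v ∧ b ∈ Wc (spf (shs d Ys) v)) ∨ (¬ Gl Mt v ∧ b ∈ Kc (spf (shs d Ys) v) (p v) ∧
      (b ∈ hvy G Ys UH c0 c E d (spf (shs d Ys) v) → b ∉ E v ∧ b ∉ ac G Ys UH c v ∧
        (spf (shs d Ys) v ∈ Sm → v ∈ Gd))) := by
  exact mem_Alv.1 hb

lemma mu_gl {v : V} (b : Fin k) (hg : Gl Mt v) :
    (Dat G Ys Sm UH Gd c0 c E d p Mt pn x y0 Kc i0 Wc).μ v b =
      2 / ((Wc (spf (shs d Ys) v)).card : ℝ) := by
  unfold Dat
  simp only
  rw [if_pos hg]

lemma mu_lt {v : V} {b : Fin k} (hg : ¬ Gl Mt v)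
    (hb : b ∉ hvy G Ys UH c0 c E d (spf (shs d Ys) v)) :
    (Dat G Ys Sm UH Gd c0 c E d p Mt pn x y0 Kc i0 Wc).μ v b = 5 / (d : ℝ) := by
  unfold Dat
  simp only
  rw [if_neg hg, if_neg hb]

lemma mu_hv {v : V} {b : Fin k} (hg : ¬ Gl Mt v)
    (hb : b ∈ hvy G Ys UH c0 c E d (spf (shs d Ys) v)) :
    (Dat G Ys Sm UH Gd c0 c E d p Mt pn x y0 Kc i0 Wc).μ v b =
      if spf (shs d Ys) v ∈ Sm then 8 / y0 else 8 / (x * d) := by
  unfold Dat
  simp only
  rw [if_neg hg, if_pos hb]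

lemma mu_nonneg (hC : Cst x η θ T0 y0 y1 B d) (v : V) (b : Fin k) :
    0 ≤ (Dat G Ys Sm UH Gd c0 c E d p Mt pn x y0 Kc i0 Wc).μ v b := by
  have h1 := hC.x0
  have h2 := hC.y0'
  have h3 := hC.d1
  unfold Dat
  simp only
  split_ifs
  · positivity
  · positivity
  · positivity
  · positivity

/-- the numbers -/
lemma Cst.eps (hC : Cst x η θ T0 y0 y1 B d) : 5 / (d : ℝ) ≤ 2 / (10 ^ 4 * θ * d) ∧
    2 / (10 ^ 4 * θ * d) ≤ 8 / (x * d) ∧ 0 ≤ 2 / (10 ^ 4 * θ * d) := by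
  have h1 := hC.x0
  have h2 := hC.θ0
  have h3 := hC.d1
  have h4 := hC.θ1
  have h5 := hC.xθ
  have hd : (0 : ℝ) < d := by linarith
  refine ⟨?_, ?_, by positivity⟩
  · rw [div_le_div_iff₀ hd (by positivity)]
    nlinarith
  · rw [div_le_div_iff₀ (by positivity) (by positivity)]
    have : x * d ≤ θ * d := mul_le_mul_of_nonneg_right h5 hd.le
    nlinarith [mul_pos h2 hd]

lemma F1 (hC : Cst x η θ T0 y0 y1 B d)
    (hH : CH x θ y0 G d Ys Sm UH Gd c0 c E F0 K0 C p Fy Mt pn hi U Wc i0 Kc)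
    (dis : ∀ Y ∈ Ys, ∀ Y' ∈ Ys, Y ≠ Y' → Disjoint Y Y') {w : V} (hw : Act (shs d Ys) UH w)
    {b : Fin k} (hb : b ∉ hvy G Ys UH c0 c E d (spf (shs d Ys) w)) :
    (Dat G Ys Sm UH Gd c0 c E d p Mt pn x y0 Kc i0 Wc).μ w b ≤ 2 / (10 ^ 4 * θ * d) := by
  have h2 := hC.θ0
  have h3 := hC.d1
  have hd : (0 : ℝ) < d := by linarith
  by_cases hg : Gl Mt w
  · rw [mu_gl b hg]
    have h8 := hH.c8 _ (act_spf dis hw).1
    exact div_le_div_of_nonneg_left (by norm_num) (by positivity) h8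
  · rw [mu_lt hg hb]
    exact hC.eps.1

lemma F2 (hC : Cst x η θ T0 y0 y1 B d)
    (hH : CH x θ y0 G d Ys Sm UH Gd c0 c E F0 K0 C p Fy Mt pn hi U Wc i0 Kc)
    (dis : ∀ Y ∈ Ys, ∀ Y' ∈ Ys, Y ≠ Y' → Disjoint Y Y') {w : V} (hw : Act (shs d Ys) UH w)
    {b : Fin k} (hb : b ∈ Alv Mt (Dat G Ys Sm UH Gd c0 c E d p Mt pn x y0 Kc i0 Wc) w) :
    (Dat G Ys Sm UH Gd c0 c E d p Mt pn x y0 Kc i0 Wc).μ w b ≤ 8 / (x * d) ∨
    (spf (shs d Ys) w ∈ Sm ∧ w ∈ Gd ∧ b ∈ hvy G Ys UH c0 c E d (spf (shs d Ys) w) ∧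
      (Dat G Ys Sm UH Gd c0 c E d p Mt pn x y0 Kc i0 Wc).μ w b = 8 / y0) := by
  by_cases hb' : b ∈ hvy G Ys UH c0 c E d (spf (shs d Ys) w)
  · rcases alv_cases hb with ⟨_, h1⟩ | ⟨hg, _, h2⟩
    · exact absurd hb' (hH.c7 _ (act_spf dis hw).1 b h1).2
    · rw [mu_hv hg hb']
      by_cases hs : spf (shs d Ys) w ∈ Sm
      · right
        rw [if_pos hs]
        exact ⟨hs, (h2 hb').2.2 hs, hb', rfl⟩
      · left
        rw [if_neg hs]
  · left
    exact (F1 hC hH dis hw hb').trans hC.eps.2.1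

lemma F3 (hC : Cst x η θ T0 y0 y1 B d)
    (hH : CH x θ y0 G d Ys Sm UH Gd c0 c E F0 K0 C p Fy Mt pn hi U Wc i0 Kc)
    (dis : ∀ Y ∈ Ys, ∀ Y' ∈ Ys, Y ≠ Y' → Disjoint Y Y')
    (hK : ∀ Y ∈ shs d Ys, ∀ i, (Kc Y i).card ≤ d)
    {w : V} (hw : Act (shs d Ys) UH w) (T : Finset (Fin k))
    (hT : ∀ b ∈ T, b ∈ Alv Mt (Dat G Ys Sm UH Gd c0 c E d p Mt pn x y0 Kc i0 Wc) w ∧
      b ∉ hvy G Ys UH c0 c E d (spf (shs d Ys) w)) :
    ∑ b ∈ T, (Dat G Ys Sm UH Gd c0 c E d p Mt pn x y0 Kc i0 Wc).μ w b ≤ 5 := by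
  have h2 := hC.θ0
  have h3 := hC.d1
  have hd : (0 : ℝ) < d := by linarith
  obtain ⟨ha1, ha2, ha3⟩ := act_spf dis hw
  by_cases hg : Gl Mt w
  · have h8 := hH.c8 _ ha1
    have hW : (0 : ℝ) < ((Wc (spf (shs d Ys) w)).card : ℝ) := lt_of_lt_of_le (by positivity) h8
    rw [Finset.sum_congr rfl (fun b _ => mu_gl b hg), Finset.sum_const, nsmul_eq_mul]
    have hsub : T.card ≤ (Wc (spf (shs d Ys) w)).card := by
      apply Finset.card_le_card
      intro b hb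
      rcases alv_cases (hT b hb).1 with ⟨_, h4⟩ | ⟨h4, _⟩
      · exact h4
      · exact absurd hg h4
    calc _ ≤ ((Wc (spf (shs d Ys) w)).card : ℝ) * (2 / ((Wc (spf (shs d Ys) w)).card : ℝ)) :=
          mul_le_mul_of_nonneg_right (by exact_mod_cast hsub) (by positivity)
      _ = 2 := by field_simp
      _ ≤ 5 := by norm_num
  · have hsum : ∀ b ∈ T,
        (Dat G Ys Sm UH Gd c0 c E d p Mt pn x y0 Kc i0 Wc).μ w b = 5 / (d : ℝ) := by
      intro b hb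
      exact mu_lt hg (hT b hb).2
    rw [Finset.sum_congr rfl hsum, Finset.sum_const, nsmul_eq_mul]
    have hsub : T.card ≤ d := by
      refine (Finset.card_le_card ?_).trans (hK _ ha1 (p w))
      intro b hb
      rcases alv_cases (hT b hb).1 with ⟨h4, _⟩ | ⟨_, h4, _⟩
      · exact absurd h4 hg
      · exact h4
    calc _ ≤ (d : ℝ) * (5 / (d : ℝ)) :=
          mul_le_mul_of_nonneg_right (by exact_mod_cast hsub) (by positivity)
      _ = 5 := by field_simp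

lemma F4 (hC : Cst x η θ T0 y0 y1 B d)
    (hH : CH x θ y0 G d Ys Sm UH Gd c0 c E F0 K0 C p Fy Mt pn hi U Wc i0 Kc)
    (dis : ∀ Y ∈ Ys, ∀ Y' ∈ Ys, Y ≠ Y' → Disjoint Y Y')
    (hh : ∀ Y ∈ shs d Ys, ((hvy G Ys UH c0 c E d Y).card : ℝ) ≤ 2000 * η * d ∧
      (Y ∈ Sm → ((hvy G Ys UH c0 c E d Y).card : ℝ) ≤ 2500 * T0))
    {w : V} (hw : Act (shs d Ys) UH w) (T : Finset (Fin k))
    (hT : ∀ b ∈ T, b ∈ Alv Mt (Dat G Ys Sm UH Gd c0 c E d p Mt pn x y0 Kc i0 Wc) w ∧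
      b ∈ hvy G Ys UH c0 c E d (spf (shs d Ys) w)) :
    ∑ b ∈ T, (Dat G Ys Sm UH Gd c0 c E d p Mt pn x y0 Kc i0 Wc).μ w b ≤ x / 100 := by
  have h1 := hC.x0
  have h2 := hC.θ0
  have h3 := hC.d1
  have hd : (0 : ℝ) < d := by linarith
  have hy := hC.y0'
  have hy0 : 0 < y0 := by linarith
  obtain ⟨ha1, ha2, ha3⟩ := act_spf dis hw
  by_cases hg : Gl Mt w
  · rw [Finset.sum_eq_zero]
    · positivity
    · intro b hb
      obtain ⟨hb1, hb2⟩ := hT b hb
      rcases alv_cases hb1 with ⟨_, h4⟩ | ⟨h4, _⟩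
      · exact absurd hb2 (hH.c7 _ ha1 b h4).2
      · exact absurd hg h4
  · have hsum : ∀ b ∈ T,
        (Dat G Ys Sm UH Gd c0 c E d p Mt pn x y0 Kc i0 Wc).μ w b =
          if spf (shs d Ys) w ∈ Sm then 8 / y0 else 8 / (x * d) := by
      intro b hb
      exact mu_hv hg (hT b hb).2
    rw [Finset.sum_congr rfl hsum, Finset.sum_const, nsmul_eq_mul]
    have hsub : (T.card : ℝ) ≤ ((hvy G Ys UH c0 c E d (spf (shs d Ys) w)).card : ℝ) := by
      exact_mod_cast Finset.card_le_card (fun b hb => (hT b hb).2)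
    obtain ⟨hh1, hh2⟩ := hh _ ha1
    by_cases hs : spf (shs d Ys) w ∈ Sm
    · rw [if_pos hs]
      calc _ ≤ (2500 * T0) * (8 / y0) :=
            mul_le_mul_of_nonneg_right (hsub.trans (hh2 hs)) (by positivity)
        _ = 20000 * T0 / y0 := by ring
        _ ≤ x / 100 := by
            rw [div_le_div_iff₀ hy0 (by norm_num)]
            have := hC.xy
            have := hC.T1
            nlinarith
    · rw [if_neg hs]
      calc _ ≤ (2000 * η * d) * (8 / (x * d)) :=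
            mul_le_mul_of_nonneg_right (hsub.trans hh1) (by positivity)
        _ = 16000 * η / x := by field_simp; ring
        _ ≤ x / 100 := by
            rw [div_le_div_iff₀ h1 (by norm_num)]
            have := hC.ηx
            nlinarith

lemma F5 (dis : ∀ Y ∈ Ys, ∀ Y' ∈ Ys, Y ≠ Y' → Disjoint Y Y')
    (gdi : ∀ v ∈ Gd, ∀ w ∈ Gd, ¬ (Gss G EH Ys).Adj v w) (hEU : ∀ v w, EH.Adj v w → v ∈ UH)
    {v w : V} (hv : Act (shs d Ys) UH v)
    (hw : w ∈ outn G (shs d Ys) UH (Dat G Ys Sm UH Gd c0 c E d p Mt pn x y0 Kc i0 Wc) v)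
    (h1 : v ∈ Gd) (h2 : w ∈ Gd) : False := by
  obtain ⟨hw1, hw2, hw3⟩ := Finset.mem_filter.1 hw
  apply gdi v h1 w h2
  obtain ⟨ha1, ha2, ha3⟩ := act_spf dis hv
  obtain ⟨hb1, hb2, hb3⟩ := act_spf dis hw2
  refine ⟨mem_nb.1 hw1, ⟨_, (mem_shs ha1).1, ha2⟩, ⟨_, (mem_shs hb1).1, hb2⟩, ?_,
    fun h => ha3 (hEU _ _ h)⟩
  intro hs
  have h3 := (same_iff dis (mem_shs ha1).1 ha2).1 hs
  apply hw3
  exact (spf_eq (shs_dis dis) ha1 h3)

lemma Kc_le (hS : SHH x η θ T0 y0 y1 B G EH d Ys Sm UH Gd Hs c0 c E F0 K0 Fy Mt pn)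
    (hH : CH x θ y0 G d Ys Sm UH Gd c0 c E F0 K0 C p Fy Mt pn hi U Wc i0 Kc) :
    ∀ Y ∈ shs d Ys, ∀ i, (Kc Y i).card ≤ d := by
  intro Y hY i
  have h1 := hH.c4 Y hY i
  have h2 := hS.mtn Y hY
  have h3 := (mem_shs hY).2
  have h4 : (Y.filter (fun v => v ∉ UH ∧ ¬ Gl Mt v ∧ p v = i)).card +
      (Y.filter (fun v => (nb Mt v).Nonempty)).card ≤ Y.card := by
    rw [← Finset.card_union_of_disjoint]
    · apply Finset.card_le_card
      intro v hv
      rcases Finset.mem_union.1 hv with hv | hv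
      · exact (Finset.mem_filter.1 hv).1
      · exact (Finset.mem_filter.1 hv).1
    · rw [Finset.disjoint_left]
      intro v hv hv'
      exact (Finset.mem_filter.1 hv).2.2.1 (Finset.mem_filter.1 hv').2
  rw [h1]
  split_ifs <;> omega

lemma outn_sub (dis : ∀ Y ∈ Ys, ∀ Y' ∈ Ys, Y ≠ Y' → Disjoint Y Y') {Y : Finset V}
    (hY : Y ∈ shs d Ys) {v : V} (hv : v ∈ Y) :
    outn G (shs d Ys) UH (Dat G Ys Sm UH Gd c0 c E d p Mt pn x y0 Kc i0 Wc) v ⊆ nb G v \ Y := by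
  intro w hw
  obtain ⟨hw1, hw2, hw3⟩ := Finset.mem_filter.1 hw
  refine Finset.mem_sdiff.2 ⟨hw1, fun hwY => hw3 ?_⟩
  exact (spf_eq (shs_dis dis) hY hwY).trans (spf_eq (shs_dis dis) hY hv).symm

lemma outn_card (hS : SHH x η θ T0 y0 y1 B G EH d Ys Sm UH Gd Hs c0 c E F0 K0 Fy Mt pn)
    {Y : Finset V} (hY : Y ∈ shs d Ys) {v : V} (hv : v ∈ Y) :
    (((outn G (shs d Ys) UH (Dat G Ys Sm UH Gd c0 c E d p Mt pn x y0 Kc i0 Wc) v).card : ℕ) : ℝ) ≤
      (d : ℝ) - (nb G v ∩ Y).card := by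
  have h1 := Finset.card_le_card (outn_sub (G := G) (Sm := Sm) (UH := UH) (Gd := Gd) (c0 := c0)
    (c := c) (E := E) (p := p) (Mt := Mt) (pn := pn) (x := x) (y0 := y0) (Kc := Kc) (i0 := i0)
    (Wc := Wc) hS.dis hY hv)
  have h2 := out_card hS.deg Y v
  have h3 : (((outn G (shs d Ys) UH
      (Dat G Ys Sm UH Gd c0 c E d p Mt pn x y0 Kc i0 Wc) v).card : ℕ) : ℝ) +
      (nb G v ∩ Y).card ≤ d := by
    exact_mod_cast (by omega : (outn G (shs d Ys) UH
      (Dat G Ys Sm UH Gd c0 c E d p Mt pn x y0 Kc i0 Wc) v).card + (nb G v ∩ Y).card ≤ d)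
  linarith

lemma alv_not_cw (hH : CH x θ y0 G d Ys Sm UH Gd c0 c E F0 K0 C p Fy Mt pn hi U Wc i0 Kc)
    {v : V} {b : Fin k} (hv : spf (shs d Ys) v ∈ shs d Ys)
    (hb : b ∈ Alv Mt (Dat G Ys Sm UH Gd c0 c E d p Mt pn x y0 Kc i0 Wc) v) :
    b ∉ cw UH c0 (spf (shs d Ys) v) := by
  rcases alv_cases hb with ⟨_, h1⟩ | ⟨_, h1, _⟩
  · exact (hH.c3 _ hv _ b (hH.c7 _ hv b h1).1).2.2
  · exact (hH.c3 _ hv _ b h1).2.2

/-- the facts -/
lemma facts (hC : Cst x η θ T0 y0 y1 B d)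
    (hO : Out δ1 π G (Gex G Ys) ⊥ EH d Ys UH c0 tu c t E K0 C p a Z)
    (hS : SHH x η θ T0 y0 y1 B G EH d Ys Sm UH Gd Hs c0 c E F0 K0 Fy Mt pn)
    (hP : HPre G UH c0 EH tu)
    (hH : CH x θ y0 G d Ys Sm UH Gd c0 c E F0 K0 C p Fy Mt pn hi U Wc i0 Kc) :
    VFacts G Mt (shs d Ys) Sm UH Gd (Dat G Ys Sm UH Gd c0 c E d p Mt pn x y0 Kc i0 Wc)
      (θ * d) (2 / (10 ^ 4 * θ * d)) (8 / (x * d)) (x / 100) (8 / y0) (5 / d) (d / 1000)
      (20 * η * d) (η * d * d) (x / 10 ^ 5 * y0 * d) y1 B := by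
  have hx := hC.x0
  have hx1 := hC.x1
  have hθ := hC.θ0
  have hθ1 := hC.θ1
  have hη := hC.η0
  have hηx := hC.ηx
  have hη1 := hC.η1
  have hd1 := hC.d1
  have hd : (0 : ℝ) < d := by linarith
  have hy := hC.y0'
  have hy0 : 0 < y0 := by linarith
  have he := hC.eps
  have hh : ∀ Y ∈ shs d Ys, ((hvy G Ys UH c0 c E d Y).card : ℝ) ≤ 2000 * η * d ∧
      (Y ∈ Sm → ((hvy G Ys UH c0 c E d Y).card : ℝ) ≤ 2500 * T0) :=
    fun Y hY => hvy_le hC hO hS hP hY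
  have hdis := shs_dis (d := d) hS.dis
  have hxd : 0 < x * d := by positivity
  refine
    { spY := fun Y hY v hv => spf_eq hdis hY hv
      mat := hS.mat
      mta := ?_
      mtn := ?_
      Kd := hH.c2
      Kn := hH.c4
      WK := hH.c7
      μ0 := mu_nonneg hC
      μg := ?_
      μl := ?_
      μh := ?_
      Lc := ?_
      μx := ?_
      Wn := ?_
      ε0 := he.2.2
      εβ := he.2.1
      γ1 := by positivity
      γ2 := by positivity
      l0 := by positivity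
      B0 := by linarith [hC.B1]
      n10 := by positivity
      n20 := by positivity
      F1 := fun w hw b _ hb => F1 hC hH hS.dis hw hb
      F1' := fun w _ hg b _ hb => (mu_lt hg hb).le
      F2 := ?_
      F6 := ?_
      F3 := fun v hv T hT => F3 hC hH hS.dis (Kc_le hS hH) hv T hT
      F4 := fun v hv T hT => F4 hC hH hS.dis hh hv T hT
      F5 := fun v hv w hw h1 h2 _ _ => F5 hS.dis hS.gdi hP.EU hv hw h1 h2
      hF := ?_
      hn := ?_
      h1 := ?_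
      h2 := ?_
      h3 := ?_
      h4 := ?_
      h5 := ?_
      h6 := ?_
      z1 := ?_
      z2 := ?_
      z3 := ?_ }
  · intro v w h
    obtain ⟨⟨Y, hY, h1, h2⟩, h3, h4, h5⟩ := hS.mta v w h
    refine ⟨⟨⟨Y, hY, h1⟩, h4⟩, ?_⟩
    exact (spf_eq hdis hY h1).trans (spf_eq hdis hY h2).symm
  · intro Y hY
    refine Eq.trans ?_ (hS.mtn Y hY)
    congr 1
    ext v
    rw [Finset.mem_filter, Finset.mem_filter]
    exact Iff.rfl
  · intro v w b h
    obtain ⟨⟨Y, hY, h1, h2⟩, h3, h4, h5⟩ := hS.mta v w h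
    rw [mu_gl b (gl_of_adj h), mu_gl b (gl_of_adj h.symm), spf_eq hdis hY h1, spf_eq hdis hY h2]
  · intro Y hY v hv hu hg b hb hbH
    have hsp := spf_eq hdis hY hv
    have h1 := hH.cc Y hY (p v)
    have h2 := (hh Y hY).1
    have h3 := hS.pnu Y hY
    have h4 : (Dat G Ys Sm UH Gd c0 c E d p Mt pn x y0 Kc i0 Wc).μ v b = 5 / (d : ℝ) :=
      mu_lt hg (by rw [hsp]; exact hbH)
    rw [h4]
    have h5 : (d : ℝ) / 5 ≤ ((Kc Y (p v)).card : ℝ) - ((hvy G Ys UH c0 c E d Y).card : ℝ) -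
        (pn Y : ℝ) := by
      have : η * d ≤ d / 10 ^ 6 := by nlinarith
      nlinarith
    calc (1 : ℝ) = 5 / d * (d / 5) := by field_simp
      _ ≤ _ := mul_le_mul_of_nonneg_left h5 (by positivity)
  · intro Y hY v hv hu hg b hb hbH hav T hT
    have hsp := spf_eq hdis hY hv
    have h4 : (Dat G Ys Sm UH Gd c0 c E d p Mt pn x y0 Kc i0 Wc).μ v b =
        if Y ∈ Sm then 8 / y0 else 8 / (x * d) := by
      have := mu_hv (G := G) (Sm := Sm) (Gd := Gd) (p := p) (pn := pn) (x := x) (y0 := y0)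
        (Kc := Kc) (i0 := i0) (Wc := Wc) (b := b) hg (by rw [hsp]; exact hbH)
      rw [hsp] at this
      exact this
    have hbc := hH.c3 Y hY _ b hb
    have hbF : b ∉ Fy Y := fun h => hbc.2.1 (hH.c1 Y hY b h hbc.2.2)
    obtain ⟨l1, l2⟩ := hH.ls Y hY b hbc.1 hbF hbc.2.2
    have hhi : hi Y b = p v := hH.c5 Y hY _ b hb hbH
    rw [hhi] at l1 l2
    have hcard : ((lst G Ys Sm UH Gd c E d p Mt Y (p v) b).card : ℝ) ≤ (T.card : ℝ) := by
      have : lst G Ys Sm UH Gd c E d p Mt Y (p v) b ⊆ T := by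
        intro w hw
        obtain ⟨q1, q2, q3, q4, q5⟩ := Finset.mem_filter.1 hw
        exact hT w q1 q2 q3 q4 q5
      exact_mod_cast Finset.card_le_card this
    obtain ⟨g1, g2⟩ := hh Y hY
    rw [h4]
    split_ifs with hs
    · have h5 : y0 / 8 ≤ (T.card : ℝ) - ((hvy G Ys UH c0 c E d Y).card : ℝ) := by
        have q1 := l2 hs
        have q2 := g2 hs
        have q3 := hC.xy
        have q4 : x * y0 ≤ 1 / 10 ^ 7 * y0 := mul_le_mul_of_nonneg_right hx1 hy0.le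
        linarith
      calc (1 : ℝ) = 8 / y0 * (y0 / 8) := by field_simp
        _ ≤ _ := mul_le_mul_of_nonneg_left h5 (by positivity)
    · have h5 : x * d / 8 ≤ (T.card : ℝ) - ((hvy G Ys UH c0 c E d Y).card : ℝ) := by
        have q1 := l1 hs
        have q3 : 10 ^ 14 * η * d ≤ x * d := mul_le_mul_of_nonneg_right hη1 hd.le
        linarith
      calc (1 : ℝ) = 8 / (x * d) * (x * d / 8) := by field_simp
        _ ≤ _ := mul_le_mul_of_nonneg_left h5 (by positivity)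
  · intro Y hY i b hb hbH T hT
    have hbc := hH.c3 Y hY _ b hb
    have hbF : b ∉ Fy Y := fun h => hbc.2.1 (hH.c1 Y hY b h hbc.2.2)
    obtain ⟨l1, l2⟩ := hH.ls Y hY b hbc.1 hbF hbc.2.2
    have hhi : hi Y b = i := hH.c5 Y hY _ b hb hbH
    rw [hhi] at l1 l2
    have hcard : ((lst G Ys Sm UH Gd c E d p Mt Y i b).card : ℝ) ≤ (T.card : ℝ) := by
      have : lst G Ys Sm UH Gd c E d p Mt Y i b ⊆ T := by
        intro w hw
        obtain ⟨q1, q2, q3, q4, q5⟩ := Finset.mem_filter.1 hw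
        exact hT w q1 q2 q3 q4 q5
      exact_mod_cast Finset.card_le_card this
    obtain ⟨g1, g2⟩ := hh Y hY
    have h5 : ((hvy G Ys UH c0 c E d Y).card : ℝ) < (T.card : ℝ) := by
      by_cases hs : Y ∈ Sm
      · have q1 := l2 hs
        have q2 := g2 hs
        have q3 := hC.xy
        have q4 : x * y0 ≤ 1 / 10 ^ 7 * y0 := mul_le_mul_of_nonneg_right hx1 hy0.le
        linarith
      · have q1 := l1 hs
        have q3 : 10 ^ 14 * η * d ≤ x * d := mul_le_mul_of_nonneg_right hη1 hd.le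
        linarith
    exact_mod_cast h5
  · intro Y hY v hv hg b hb
    have hsp := spf_eq hdis hY hv
    have h4 : (Dat G Ys Sm UH Gd c0 c E d p Mt pn x y0 Kc i0 Wc).μ v b =
        2 / ((Wc Y).card : ℝ) := by
      have := mu_gl (G := G) (Ys := Ys) (Sm := Sm) (UH := UH) (Gd := Gd) (c0 := c0) (c := c)
        (E := E) (d := d) (p := p) (pn := pn) (x := x) (y0 := y0)
        (Kc := Kc) (i0 := i0) (Wc := Wc) b hg
      rw [hsp] at this
      exact this
    rw [h4]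
    have q1 := hH.c8 Y hY
    have q2 := hS.pnu Y hY
    have q3 : 0 < θ * d := by positivity
    have hW : (0 : ℝ) < ((Wc Y).card : ℝ) := by linarith
    have q4 : η * d ≤ θ * d := by
      apply mul_le_mul_of_nonneg_right _ hd.le
      have := hC.xθ
      linarith
    have h5 : ((Wc Y).card : ℝ) / 2 ≤ ((Wc Y).card : ℝ) - (pn Y : ℝ) := by linarith
    calc (1 : ℝ) = 2 / ((Wc Y).card : ℝ) * (((Wc Y).card : ℝ) / 2) := by field_simp
      _ ≤ _ := mul_le_mul_of_nonneg_left h5 (by positivity)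
  · intro Y hY
    have q1 := hH.c8 Y hY
    have q2 := hS.pnu Y hY
    have q3 : 0 < θ * d := by positivity
    have q4 : η * d ≤ θ * d := by
      apply mul_le_mul_of_nonneg_right _ hd.le
      have := hC.xθ
      linarith
    have h5 : (pn Y : ℝ) < ((Wc Y).card : ℝ) := by linarith
    exact_mod_cast h5
  · intro w hw b hb
    rcases F2 hC hH hS.dis hw hb with h1 | ⟨h1, h2, h3, h4⟩
    · exact Or.inl h1
    · exact Or.inr ⟨h1, h2, h3, h4.le⟩
  · intro v hv b hb hbH hs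
    obtain ⟨ha1, ha2, ha3⟩ := act_spf hS.dis hv
    rcases alv_cases hb with ⟨_, h1⟩ | ⟨hg, _, h1⟩
    · exact absurd hbH (hH.c7 _ ha1 b h1).2
    · refine ⟨(h1 hbH).2.2 hs, ?_⟩
      rw [mu_hv hg hbH]
      have hs' : spf (shs d Ys) v ∈ Sm := hs
      rw [if_pos hs']
  · intro v hv T hT
    obtain ⟨ha1, ha2, ha3⟩ := act_spf hS.dis hv
    have hY := (mem_shs ha1).1
    have h5 := E_card hO.Ed hP.EU hS.dis hY ha2 ha3
    have h6 := out_card hS.deg (spf (shs d Ys) v) v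
    have h7 := ac_card (G := G) (Ys := Ys) hO.cU hY v
    have h8 : T.card ≤ (E v).card + (ac G Ys UH c v \ cw UH c0 (spf (shs d Ys) v)).card := by
      refine (Finset.card_le_card ?_).trans (Finset.card_union_le _ _)
      intro b hb
      obtain ⟨hb1, hb2⟩ := hT b hb
      have hb3 := alv_not_cw hH ha1 hb1
      have hb4 : b ∈ E v ∪ ac G Ys UH c v := hb2
      rcases Finset.mem_union.1 hb4 with h9 | h9
      · exact Finset.mem_union_left _ h9
      · exact Finset.mem_union_right _ (Finset.mem_sdiff.2 ⟨h9, hb3⟩)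
    have h9 : (T.card : ℝ) + 2 * ((nb G v ∩ spf (shs d Ys) v).card : ℝ) ≤ 2 * d := by
      exact_mod_cast (by omega : T.card + 2 * (nb G v ∩ spf (shs d Ys) v).card ≤ 2 * d)
    have h10 := hS.inn _ hY v ha2
    linarith
  · intro v hv
    obtain ⟨ha1, ha2, ha3⟩ := act_spf hS.dis hv
    refine (outn_card hS ha1 ha2).trans ?_
    have := hS.inn _ (mem_shs ha1).1 v ha2
    linarith
  · intro Y hY i b hb hbH T hT
    have hbc := hH.c3 Y hY _ b hb
    have h1 : T.card ≤ (bad G Ys UH c E Y b).card := by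
      apply Finset.card_le_card
      intro v hv
      obtain ⟨q1, q2, q3⟩ := hT v hv
      have q4 : b ∈ E v ∪ ac G Ys UH c v := q3
      exact Finset.mem_filter.2 ⟨q1, q2, Finset.mem_union.1 q4⟩
    have h2 : 1000 * (bad G Ys UH c E Y b).card ≤ d := by
      by_contra h3
      push Not at h3
      exact hbH (Finset.mem_filter.2 ⟨Finset.mem_univ _, hbc.2.2, h3⟩)
    have h3 : 1000 * (T.card : ℝ) ≤ d := by exact_mod_cast (by omega : 1000 * T.card ≤ d)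
    linarith
  · intro Y hY
    have q2 := hS.pnu Y hY
    have : (2 : ℝ) * ((Dat G Ys Sm UH Gd c0 c E d p Mt pn x y0 Kc i0 Wc).pn Y : ℝ) =
      2 * (pn Y : ℝ) := rfl
    rw [this]
    linarith
  · intro Y hY
    have h1 := hS.sum Y (mem_shs hY).1
    have h2 : (Y.card : ℝ) ≤ d := by exact_mod_cast (mem_shs hY).2.le
    have h3 : η * d * (Y.card : ℝ) ≤ η * d * d := mul_le_mul_of_nonneg_left h2 (by positivity)
    refine le_trans ?_ (h1.trans h3)
    unfold wt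
    refine le_trans (Finset.sum_le_sum (fun v hv =>
      outn_card hS hY (Finset.mem_filter.1 hv).1)) ?_
    apply Finset.sum_le_sum_of_subset_of_nonneg (Finset.filter_subset _ _)
    intro v _ _
    exact wt_nonneg hS.deg Y v
  · intro Y hY
    have h1 := hS.gde Y hY
    have h2 : (Y.card : ℝ) ≤ d := by exact_mod_cast (mem_shs hY).2.le
    have h3 : x / 10 ^ 5 * y0 * (Y.card : ℝ) ≤ x / 10 ^ 5 * y0 * d :=
      mul_le_mul_of_nonneg_left h2 (by positivity)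
    refine le_trans ?_ (h1.trans h3)
    push_cast
    have h4 : ∀ v ∈ Y.filter (fun v => v ∉ UH),
        (((outn G (shs d Ys) UH (Dat G Ys Sm UH Gd c0 c E d p Mt pn x y0 Kc i0 Wc) v ∩ Gd).card :
          ℕ) : ℝ) ≤ ((nb (Gss G EH Ys) v ∩ Gd).card : ℝ) := by
      intro v hv
      obtain ⟨hv1, hv2⟩ := Finset.mem_filter.1 hv
      have : outn G (shs d Ys) UH (Dat G Ys Sm UH Gd c0 c E d p Mt pn x y0 Kc i0 Wc) v ∩ Gd ⊆
          nb (Gss G EH Ys) v ∩ Gd := by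
        intro w hw
        obtain ⟨hw1, hw2⟩ := Finset.mem_inter.1 hw
        have hw3 := Finset.mem_sdiff.1 (outn_sub hS.dis hY hv1 hw1)
        obtain ⟨_, hw4, _⟩ := Finset.mem_filter.1 hw1
        obtain ⟨hb1, hb2, _⟩ := act_spf hS.dis hw4
        refine Finset.mem_inter.2 ⟨mem_nb.2 ⟨mem_nb.1 hw3.1, ⟨Y, (mem_shs hY).1, hv1⟩,
          ⟨_, (mem_shs hb1).1, hb2⟩, fun h => hw3.2 ((same_iff hS.dis (mem_shs hY).1 hv1).1 h),
          fun h => hv2 (hP.EU _ _ h)⟩, hw2⟩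
      exact_mod_cast Finset.card_le_card this
    refine le_trans (Finset.sum_le_sum h4) ?_
    apply Finset.sum_le_sum_of_subset_of_nonneg (Finset.filter_subset _ _)
    intro v _ _
    positivity
  · intro Y hY hs
    exact (hS.sml Y hs).2.2
  · intro Y hY v hv hvG
    refine le_trans ?_ (hS.gdd v hvG).2
    have : outn G (shs d Ys) UH (Dat G Ys Sm UH Gd c0 c E d p Mt pn x y0 Kc i0 Wc) v ⊆
        (nb G v).filter (fun w => ¬ Same Ys v w) := by
      intro w hw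
      have hw3 := Finset.mem_sdiff.1 (outn_sub hS.dis hY hv hw)
      exact Finset.mem_filter.2 ⟨hw3.1, fun h => hw3.2 ((same_iff hS.dis (mem_shs hY).1 hv).1 h)⟩
    exact_mod_cast Finset.card_le_card this
  · have e1 : θ * d * (2 / (10 ^ 4 * θ * d)) = 2 / 10 ^ 4 := by field_simp
    have e2 : θ * d * (2 * (8 / (x * d)) * (x / 100)) = 16 * θ / 100 := by field_simp; ring
    have e3 : 2 * (θ * d) * (2 / (10 ^ 4 * θ * d)) + θ * d * (5 * (2 / (10 ^ 4 * θ * d)) +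
      2 * (8 / (x * d)) * (x / 100)) = 7 * (θ * d * (2 / (10 ^ 4 * θ * d))) +
      θ * d * (2 * (8 / (x * d)) * (x / 100)) := by ring
    rw [e3, e1, e2]
    linarith
  · have e1 : 5 / (d : ℝ) * (d / 1000) = 1 / 200 := by field_simp; norm_num
    have e2 : 2 / (10 ^ 4 * θ * d) * (20 * η * d) = 40 * η / (10 ^ 4 * θ) := by field_simp; ring
    have e3 : 8 / (x * d) * (8 / (x * d) * (η * d * d) + 8 / y0 * (x / 10 ^ 5 * y0 * d)) =
        64 * η / x ^ 2 + 64 / 10 ^ 5 := by field_simp; ring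
    rw [e1, e2, e3]
    have q1 : 40 * η / (10 ^ 4 * θ) ≤ 1 / 1000 := by
      rw [div_le_div_iff₀ (by positivity) (by norm_num)]
      have := hC.xθ
      linarith
    have q2 : 64 * η / x ^ 2 ≤ 1 / 1000 := by
      rw [div_le_div_iff₀ (by positivity) (by norm_num)]
      have : 0 < x ^ 2 := by positivity
      linarith
    linarith
  · have e1 : 5 / (d : ℝ) * (d / 1000) = 1 / 200 := by field_simp; norm_num
    have e2 : 2 / (10 ^ 4 * θ * d) * (20 * η * d) = 40 * η / (10 ^ 4 * θ) := by field_simp; ring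
    have e3 : y1 * (B * (8 / y0 * (8 / (x * d)))) = 64 * (y1 * B) / (y0 * (x * d)) := by
      field_simp; ring
    rw [e1, e2, e3]
    have q1 : 40 * η / (10 ^ 4 * θ) ≤ 1 / 1000 := by
      rw [div_le_div_iff₀ (by positivity) (by norm_num)]
      have := hC.xθ
      linarith
    have q2 : 64 * (y1 * B) / (y0 * (x * d)) ≤ 1 / 1000 := by
      rw [div_le_div_iff₀ (by positivity) (by norm_num)]
      have h1 := hC.yB
      have h2 : 1 * (x * d) ≤ y0 * (x * d) := mul_le_mul_of_nonneg_right (by linarith) hxd.le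
      linarith
    linarith

end main

end Pool.Agent.Work.MP_db9399_sw_helper39
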